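import Pool.Agent.Work.MP_76dc41_al.H8.Classes

set_option autoImplicit false

open Equiv Equiv.Perm MulAction

noncomputable section

namespace Pool.Agent.ACD8

/-- two permutations whose supports meet in one point have a 3-cycle as commutator -/
theorem comm_threeCycle {α : Type} [Fintype α] [DecidableEq α] (x y : Perm α) (a : α)
    (hx : x a ≠ a) (hy : y a ≠ a) (h : ∀ z, x z ≠ z → y z ≠ z → z = a) :
    (x * y * x⁻¹ * y⁻¹).IsThreeCycle := by
  have hyr : ∀ z, z ≠ a → x z ≠ z → y z = z := by
    intro z hz hxz
    by_contra hc
    exact hz (h z hxz hc)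
  have hxr : ∀ z, z ≠ a → y z ≠ z → x z = z := by
    intro z hz hyz
    by_contra hc
    exact hz (h z hc hyz)
  set p := x a with hp
  set r := y a with hr
  have hxp : x p ≠ p := fun e => hx (x.injective e)
  have hyrr : y r ≠ r := fun e => hy (y.injective e)
  have hyp : y p = p := hyr p hx hxp
  have hxr' : x r = r := hxr r hy hyrr
  have hpr : p ≠ r := by
    intro e
    rw [e] at hxp
    exact hxp hxr'
  have key : x * y * x⁻¹ * y⁻¹ = swap a r * swap a p := by
    ext z
    simp only [Perm.mul_apply]
    by_cases hza : z = a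
    · subst hza
      rw [swap_apply_left, swap_apply_of_ne_of_ne hx hpr]
      set s := y⁻¹ z with hs
      have hys : y s = z := by rw [hs]; simp
      have hsz : s ≠ z := by
        intro e
        rw [e] at hys
        exact hy hys
      have hxs : x s = s := hxr s hsz (by rw [hys]; exact hsz.symm)
      have hxs' : x⁻¹ s = s := by
        rw [Perm.inv_eq_iff_eq]
        exact hxs.symm
      rw [hxs', hys]
    by_cases hzp : z = p
    · rw [hzp, swap_apply_right, swap_apply_left]
      have e1 : y⁻¹ p = p := by rw [Perm.inv_eq_iff_eq]; exact hyp.symm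
      have e2 : x⁻¹ p = a := by rw [Perm.inv_eq_iff_eq]
      rw [e1, e2]
      exact hxr'
    by_cases hzr : z = r
    · rw [hzr, swap_apply_of_ne_of_ne hy hpr.symm, swap_apply_right]
      have e1 : y⁻¹ r = a := by rw [Perm.inv_eq_iff_eq]
      rw [e1]
      set u := x⁻¹ a with hu
      have hxu : x u = a := by rw [hu]; simp
      have hua : u ≠ a := by
        intro e
        rw [e] at hxu
        exact hx hxu
      have hyu : y u = u := hyr u hua (by rw [hxu]; exact hua.symm)
      rw [hyu, hxu]
    · rw [swap_apply_of_ne_of_ne hza hzp, swap_apply_of_ne_of_ne hza hzr]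
      set v := y⁻¹ z with hv
      have hyv : y v = z := by rw [hv]; simp
      have hva : v ≠ a := by
        intro e
        rw [e] at hyv
        exact hzr hyv.symm
      by_cases hxv : x v = v
      · have e1 : x⁻¹ v = v := by rw [Perm.inv_eq_iff_eq]; exact hxv.symm
        rw [e1, hyv]
        by_contra hc
        have h1 : y z = z := hyr z hza hc
        have h2 : v = z := by
          apply y.injective
          rw [hyv, h1]
        rw [h2] at hxv
        exact hc hxv
      · have h1 : y v = v := hyr v hva hxv
        have h2 : z = v := by rw [← hyv, h1]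
        rw [← h2]
        set w := x⁻¹ z with hw
        have hxw : x w = z := by rw [hw]; simp
        have hwa : w ≠ a := by
          intro e
          rw [e] at hxw
          exact hzp hxw.symm
        have hxw' : x w ≠ w := by
          intro e
          rw [h2.symm] at hxv
          have : w = z := by rw [← e, hxw]
          rw [this] at e
          exact hxv e
        rw [hyr w hwa hxw', hxw]
  rw [key]
  exact isThreeCycle_swap_mul_swap_same hy.symm hx.symm hpr.symm

/-- Bochert: a primitive group not containing the alternating group has a base of size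
at most `n/2` -/
theorem bochert {α : Type} [Fintype α] [DecidableEq α] (Q : Subgroup (Perm α))
    (hQ : IsPreprimitive Q α) (hA : ¬ alternatingGroup α ≤ Q) :
    ∃ A : Finset α, 2 * A.card ≤ Fintype.card α ∧ ∀ g ∈ Q, (∀ z ∈ A, g z = z) → g = 1 := by
  classical
  have hex : ∃ n, ∃ A : Finset α, A.card = n ∧ ∀ g ∈ Q, (∀ z ∈ A, g z = z) → g = 1 := by
    refine ⟨_, Finset.univ, rfl, ?_⟩
    intro g _ hg
    ext z
    simpa using hg z (Finset.mem_univ z)
  obtain ⟨A, hA1, hA2⟩ := Nat.find_spec hex
  refine ⟨A, ?_, hA2⟩
  by_contra hcon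
  push Not at hcon
  have hmin : ∀ B : Finset α, B.card < A.card → ∃ g ∈ Q, (∀ z ∈ B, g z = z) ∧ g ≠ 1 := by
    intro B hB
    by_contra hc
    push Not at hc
    have := Nat.find_min' hex ⟨B, rfl, hc⟩
    omega
  have hcompl : (Aᶜ).card < A.card := by
    rw [Finset.card_compl]
    omega
  obtain ⟨x, hxQ, hxB, hx1⟩ := hmin _ hcompl
  have : ∃ a, x a ≠ a := by
    by_contra hc
    push Not at hc
    apply hx1
    ext z
    simpa using hc z
  obtain ⟨a, ha⟩ := this
  have haA : a ∈ A := by
    by_contra hc
    exact ha (hxB a (by simpa using hc))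
  have herase : (A.erase a).card < A.card := by
    rw [Finset.card_erase_of_mem haA]
    have : 0 < A.card := Finset.card_pos.2 ⟨a, haA⟩
    omega
  obtain ⟨y, hyQ, hyB, hy1⟩ := hmin _ herase
  have hya : y a ≠ a := by
    intro hc
    apply hy1
    apply hA2 y hyQ
    intro z hz
    by_cases hza : z = a
    · rw [hza, hc]
    · exact hyB z (Finset.mem_erase.2 ⟨hza, hz⟩)
  apply hA
  apply alternatingGroup_le_of_isPreprimitive_of_isThreeCycle_mem hQ
    (comm_threeCycle x y a ha hya ?_)
    (Q.mul_mem (Q.mul_mem (Q.mul_mem hxQ hyQ) (Q.inv_mem hxQ)) (Q.inv_mem hyQ))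
  intro z hxz hyz
  have hzA : z ∈ A := by
    by_contra hc
    exact hxz (hxB z (by simpa using hc))
  by_contra hza
  exact hyz (hyB z (Finset.mem_erase.2 ⟨hza, hzA⟩))

/-- the symmetric group has at most `2^(n-1)` classes -/
theorem kc_perm (α : Type) [Fintype α] [DecidableEq α] :
    kc (Perm α) ≤ 2 ^ (Fintype.card α - 1) := by
  have h1 : Nat.card (ConjClasses (Perm α)) ≤ Nat.card (Fintype.card α).Partition := by
    have hinj : Function.Injective (fun c : ConjClasses (Perm α) => Quotient.liftOn c
        (fun σ => σ.partition) (fun σ τ h => partition_eq_of_isConj.1 h)) := by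
      intro c d h
      obtain ⟨σ, rfl⟩ := ConjClasses.mk_surjective c
      obtain ⟨τ, rfl⟩ := ConjClasses.mk_surjective d
      rw [ConjClasses.mk_eq_mk_iff_isConj]
      exact partition_eq_of_isConj.2 h
    exact Nat.card_le_card_of_injective _ hinj
  have h2 : Nat.card (Fintype.card α).Partition ≤ Nat.card (Composition (Fintype.card α)) :=
    Nat.card_le_card_of_surjective _ Nat.Partition.ofComposition_surj
  have h3 : Nat.card (Composition (Fintype.card α)) = 2 ^ (Fintype.card α - 1) := by
    rw [Nat.card_eq_fintype_card, composition_card]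
  unfold kc
  omega

end Pool.Agent.ACD8
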