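import Mathlib

set_option autoImplicit false

noncomputable section

namespace Pool.Agent.ACD8

/-- generating function bound for the number of partitions -/
theorem part_gf (n : ℕ) (x : ℝ) (h0 : 0 < x) (h1 : x < 1) :
    (Nat.card n.Partition : ℝ) * x ^ n ≤ ∏ i ∈ Finset.range n, (1 - x ^ (i + 1))⁻¹ := by
  classical
  -- multiplicities
  have hcount : ∀ (p : n.Partition) (i : ℕ), p.parts.count (i + 1) * (i + 1) ≤ n := by
    intro p i
    have h2 := p.parts_sum
    have h3 : Multiset.replicate (p.parts.count (i + 1)) (i + 1) ≤ p.parts :=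
      Multiset.le_count_iff_replicate_le.1 le_rfl
    obtain ⟨t, ht⟩ := Multiset.le_iff_exists_add.1 h3
    have h4 : p.parts.sum = p.parts.count (i + 1) * (i + 1) + t.sum := by
      conv_lhs => rw [ht]
      rw [Multiset.sum_add, Multiset.sum_replicate, smul_eq_mul]
    omega
  let φ : n.Partition → (Fin n → ℕ) := fun p i => p.parts.count (i.1 + 1)
  have hφ : ∀ p, φ p ∈ Fintype.piFinset (fun _ : Fin n => Finset.range (n + 1)) := by
    intro p
    rw [Fintype.mem_piFinset]
    intro i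
    rw [Finset.mem_range]
    have := hcount p i
    show p.parts.count (i.1 + 1) < n + 1
    have h5 : p.parts.count (i.1 + 1) * 1 ≤ p.parts.count (i.1 + 1) * (i.1 + 1) := by
      gcongr
      omega
    omega
  have hle : ∀ (p : n.Partition) (m : ℕ), m ∈ p.parts → m ≤ n := by
    intro p m hm
    have := Multiset.le_sum_of_mem hm
    rw [p.parts_sum] at this
    exact this
  have hinj : Function.Injective φ := by
    intro p q hpq
    apply Nat.Partition.ext
    apply Multiset.ext.2
    intro m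
    rcases Nat.eq_zero_or_pos m with hm | hm
    · subst hm
      rw [Multiset.count_eq_zero_of_notMem, Multiset.count_eq_zero_of_notMem]
      · intro h
        exact absurd (q.parts_pos h) (lt_irrefl 0)
      · intro h
        exact absurd (p.parts_pos h) (lt_irrefl 0)
    · by_cases hmn : m ≤ n
      · have := congrFun hpq ⟨m - 1, by omega⟩
        have e : m - 1 + 1 = m := by omega
        simp only [φ, e] at this
        exact this
      · rw [Multiset.count_eq_zero_of_notMem, Multiset.count_eq_zero_of_notMem]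
        · intro h
          exact hmn (hle q m h)
        · intro h
          exact hmn (hle p m h)
  have hsum : ∀ p : n.Partition, ∑ i : Fin n, (i.1 + 1) * φ p i = n := by
    intro p
    have h2 : p.parts.sum = ∑ m ∈ Finset.Icc 1 n, p.parts.count m • m := by
      apply Finset.sum_multiset_count_of_subset
      intro m hm
      rw [Multiset.mem_toFinset] at hm
      rw [Finset.mem_Icc]
      exact ⟨p.parts_pos hm, hle p m hm⟩
    rw [p.parts_sum] at h2
    have h3 : ∑ m ∈ Finset.Icc 1 n, p.parts.count m • m =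
        ∑ i ∈ Finset.range n, (i + 1) * p.parts.count (i + 1) := by
      rw [Finset.range_eq_Ico, Finset.sum_Ico_add' (fun m => m * p.parts.count m) 0 n 1]
      have : Finset.Ico (0 + 1) (n + 1) = Finset.Icc 1 n := by
        ext m
        simp only [Finset.mem_Ico, Finset.mem_Icc]
        omega
      rw [this]
      refine Finset.sum_congr rfl fun m _ => ?_
      rw [smul_eq_mul, mul_comm]
    rw [h3, Finset.sum_range] at h2
    exact h2.symm
  calc (Nat.card n.Partition : ℝ) * x ^ n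
      = ∑ p : n.Partition, ∏ i : Fin n, x ^ ((i.1 + 1) * φ p i) := by
        have : ∀ p : n.Partition, ∏ i : Fin n, x ^ ((i.1 + 1) * φ p i) = x ^ n := by
          intro p
          rw [Finset.prod_pow_eq_pow_sum, hsum]
        simp only [this]
        rw [Finset.sum_const, Finset.card_univ, nsmul_eq_mul, Nat.card_eq_fintype_card]
    _ = ∑ f ∈ Finset.univ.image φ, ∏ i : Fin n, x ^ ((i.1 + 1) * f i) := by
        rw [Finset.sum_image (fun a _ b _ h => hinj h)]
    _ ≤ ∑ f ∈ Fintype.piFinset (fun _ : Fin n => Finset.range (n + 1)),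
          ∏ i : Fin n, x ^ ((i.1 + 1) * f i) := by
        apply Finset.sum_le_sum_of_subset_of_nonneg
        · intro f hf
          rw [Finset.mem_image] at hf
          obtain ⟨p, _, rfl⟩ := hf
          exact hφ p
        · intro f _ _
          positivity
    _ = ∏ i : Fin n, ∑ j ∈ Finset.range (n + 1), x ^ ((i.1 + 1) * j) := by
        rw [Finset.prod_univ_sum]
    _ ≤ ∏ i : Fin n, (1 - x ^ (i.1 + 1))⁻¹ := by
        apply Finset.prod_le_prod
        · intro i _
          positivity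
        · intro i _
          have h2 : x ^ (i.1 + 1) < 1 := pow_lt_one₀ h0.le h1 (by omega)
          have h3 : 0 ≤ x ^ (i.1 + 1) := by positivity
          simp only [pow_mul]
          rw [geom_sum_eq h2.ne]
          rw [← neg_div_neg_eq, neg_sub, neg_sub, div_eq_mul_inv]
          have h4 : 0 < (1 - x ^ (i.1 + 1))⁻¹ := by
            apply inv_pos.2
            linarith
          have h5 : 0 ≤ (x ^ (i.1 + 1)) ^ (n + 1) := by positivity
          nlinarith
    _ = ∏ i ∈ Finset.range n, (1 - x ^ (i + 1))⁻¹ := by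
        rw [Finset.prod_range]

/-- the Euler product at `8/9` -/
def eu (n : ℕ) : ℝ := ∏ i ∈ Finset.range n, (1 - (8 / 9 : ℝ) ^ (i + 1))

theorem eu_fac (i : ℕ) : 0 < 1 - (8 / 9 : ℝ) ^ (i + 1) ∧ 1 - (8 / 9 : ℝ) ^ (i + 1) ≤ 1 := by
  have h1 : (8 / 9 : ℝ) ^ (i + 1) < 1 := pow_lt_one₀ (by norm_num) (by norm_num) (by omega)
  have h2 : (0 : ℝ) ≤ (8 / 9 : ℝ) ^ (i + 1) := by positivity
  constructor <;> linarith

theorem eu_pos (n : ℕ) : 0 < eu n := Finset.prod_pos fun i _ => (eu_fac i).1

theorem eu_60 : (1 : ℝ) / 159000 ≤ eu 60 := by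
  unfold eu
  norm_num [Finset.prod_range_succ]

theorem eu_tail (m : ℕ) : 1 - (9 - 9 * (8 / 9 : ℝ) ^ m) * (8 / 9 : ℝ) ^ 61 ≤
    ∏ j ∈ Finset.range m, (1 - (8 / 9 : ℝ) ^ (60 + j + 1)) := by
  induction m with
  | zero => simp
  | succ m ih =>
    rw [Finset.prod_range_succ]
    have h1 := eu_fac (60 + m)
    have h2 : (0 : ℝ) ≤ (8 / 9 : ℝ) ^ m := by positivity
    have h3 : (8 / 9 : ℝ) ^ m ≤ 1 := pow_le_one₀ (by norm_num) (by norm_num)
    have h4 : (8 / 9 : ℝ) ^ (60 + m + 1) = (8 / 9 : ℝ) ^ m * (8 / 9 : ℝ) ^ 61 := by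
      rw [← pow_add]
      congr 1
      omega
    have h5 : (0 : ℝ) < (8 / 9 : ℝ) ^ 61 := by positivity
    have h6 : (8 / 9 : ℝ) ^ 61 ≤ 1 / 1000 := by norm_num
    rw [h4] at h1 ⊢
    set u := (8 / 9 : ℝ) ^ m with hu
    set v := (8 / 9 : ℝ) ^ 61 with hv
    have h7 : (8 / 9 : ℝ) ^ (m + 1) = 8 / 9 * u := by rw [pow_succ, hu]; ring
    rw [h7]
    set P := ∏ j ∈ Finset.range m, (1 - (8 / 9 : ℝ) ^ (60 + j + 1)) with hP
    have h8 : (1 - (9 - 9 * u) * v) * (1 - u * v) ≤ P * (1 - u * v) :=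
      mul_le_mul_of_nonneg_right ih h1.1.le
    refine le_trans ?_ h8
    have h9 : 0 ≤ (9 - 9 * u) * v * (u * v) := by
      have : 0 ≤ 9 - 9 * u := by linarith
      positivity
    nlinarith

theorem eu_lower (n : ℕ) : (1 : ℝ) / 160200 ≤ eu n := by
  have h1 : eu (60 + n) ≤ eu n := by
    have : eu (60 + n) = eu n * ∏ j ∈ Finset.range 60, (1 - (8 / 9 : ℝ) ^ (n + j + 1)) := by
      unfold eu
      rw [add_comm 60 n, Finset.prod_range_add]
    rw [this]
    apply mul_le_of_le_one_right (eu_pos n).le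
    apply Finset.prod_le_one
    · intro j _
      exact (eu_fac (n + j)).1.le
    · intro j _
      exact (eu_fac (n + j)).2
  refine le_trans ?_ h1
  have h2 : eu (60 + n) = eu 60 * ∏ j ∈ Finset.range n, (1 - (8 / 9 : ℝ) ^ (60 + j + 1)) := by
    unfold eu
    rw [Finset.prod_range_add]
  rw [h2]
  have h3 := eu_tail n
  have h4 := eu_60
  have h5 : (8 / 9 : ℝ) ^ 61 ≤ 76 / 100000 := by norm_num
  have h6 : (0 : ℝ) ≤ (8 / 9 : ℝ) ^ n := by positivity
  have h7 : (0 : ℝ) < (8 / 9 : ℝ) ^ 61 := by positivity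
  have h8 : 1 - 9 * (76 / 100000 : ℝ) ≤
      ∏ j ∈ Finset.range n, (1 - (8 / 9 : ℝ) ^ (60 + j + 1)) := by
    refine le_trans ?_ h3
    nlinarith [mul_nonneg h6 h7.le]
  calc (1 : ℝ) / 160200 ≤ 1 / 159000 * (1 - 9 * (76 / 100000 : ℝ)) := by norm_num
    _ ≤ eu 60 * ∏ j ∈ Finset.range n, (1 - (8 / 9 : ℝ) ^ (60 + j + 1)) := by
      apply mul_le_mul h4 h8 (by norm_num) (eu_pos 60).le

/-- `p(n) ≤ 160200 (9/8)^n` -/
theorem part_le (n : ℕ) : (Nat.card n.Partition : ℝ) ≤ 160200 * (9 / 8 : ℝ) ^ n := by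
  have h1 := part_gf n (8 / 9) (by norm_num) (by norm_num)
  have h2 : ∏ i ∈ Finset.range n, (1 - (8 / 9 : ℝ) ^ (i + 1))⁻¹ = (eu n)⁻¹ := by
    unfold eu
    rw [Finset.prod_inv_distrib]
  rw [h2] at h1
  have h3 : (eu n)⁻¹ ≤ 160200 := by
    rw [inv_le_comm₀ (eu_pos n) (by norm_num)]
    have := eu_lower n
    rw [one_div] at this
    exact this
  have h4 : (8 / 9 : ℝ) ^ n * (9 / 8 : ℝ) ^ n = 1 := by
    rw [← mul_pow]
    norm_num
  calc (Nat.card n.Partition : ℝ) = ((Nat.card n.Partition : ℝ) * (8 / 9) ^ n) * (9 / 8) ^ n := by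
        rw [mul_assoc, h4, mul_one]
    _ ≤ 160200 * (9 / 8) ^ n := by
        gcongr
        exact h1.trans h3

end Pool.Agent.ACD8
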