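import Pool.Agent.Work.MP_76dc41_al.H8.Gen
import Pool.Agent.Work.MP_76dc41_al.H8.Part
import Pool.Agent.Work.MP_76dc41_al.H8.Bochert

set_option autoImplicit false

open Equiv Equiv.Perm

noncomputable section

namespace Pool.Agent.ACD8

/-- automorphisms of a group generated by `x` and `y`, in terms of the centraliser of `x` -/
theorem aut_bound (S : Type) [Group S] [Finite S] (x y : S) (h : Subgroup.closure {x, y} = ⊤) :
    Nat.card (MulAut S) * Nat.card (Subgroup.centralizer {x}) ≤ kc S * Nat.card S * Nat.card S := by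
  classical
  have := Fintype.ofFinite S
  set c := Nat.card (Subgroup.centralizer {x}) with hc
  have hcent : ∀ z : S, Nat.card (Subgroup.centralizer {z}) =
      (Finset.univ.filter (fun w : S => z * w = w * z)).card := by
    intro z
    rw [Nat.card_eq_fintype_card, Fintype.card_subtype]
    congr 1
    ext w
    simp [Subgroup.mem_centralizer_iff]
  set Z := Finset.univ.filter (fun z : S => Nat.card (Subgroup.centralizer {z}) = c) with hZ
  have h1 : Z.card * c ≤ kc S * Nat.card S := by
    rw [← comm_count S]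
    calc Z.card * c = ∑ z ∈ Z, c := by rw [Finset.sum_const, smul_eq_mul]
      _ = ∑ z ∈ Z, (Finset.univ.filter (fun w : S => z * w = w * z)).card := by
          refine Finset.sum_congr rfl fun z hz => ?_
          rw [← hcent z]
          exact (Finset.mem_filter.1 hz).2.symm
      _ ≤ _ := Finset.sum_le_sum_of_subset (Finset.subset_univ _)
  have hmem : ∀ φ : MulAut S, φ x ∈ Z := by
    intro φ
    rw [hZ, Finset.mem_filter]
    refine ⟨Finset.mem_univ _, ?_⟩
    rw [hc]
    symm
    apply Nat.card_congr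
    refine
      { toFun := fun w => ⟨φ w, ?_⟩
        invFun := fun w => ⟨φ.symm w, ?_⟩
        left_inv := fun w => Subtype.ext (φ.symm_apply_apply _)
        right_inv := fun w => Subtype.ext (φ.apply_symm_apply _) }
    · rw [Subgroup.mem_centralizer_iff]
      rintro v hv
      rw [Set.mem_singleton_iff] at hv
      have := (Subgroup.mem_centralizer_iff.1 w.2) x rfl
      rw [hv, ← map_mul, ← map_mul, this]
    · rw [Subgroup.mem_centralizer_iff]
      rintro v hv
      rw [Set.mem_singleton_iff] at hv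
      have := (Subgroup.mem_centralizer_iff.1 w.2) (φ x) rfl
      rw [hv]
      apply φ.injective
      rw [map_mul, map_mul]
      show φ x * φ (φ.symm w) = φ (φ.symm w) * φ x
      rw [φ.apply_symm_apply]
      exact this
  have h2 : Nat.card (MulAut S) ≤ Z.card * Nat.card S := by
    have e : Nat.card (Z × S) = Z.card * Nat.card S := by
      rw [Nat.card_prod]
      simp
    rw [← e]
    apply Nat.card_le_card_of_injective (fun φ : MulAut S => ((⟨φ x, hmem φ⟩ : Z), φ y))
    intro φ ψ hφψ
    have e1 : φ x = ψ x := congrArg (fun p : Z × S => (p.1 : S)) hφψ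
    have e2 : φ y = ψ y := congrArg Prod.snd hφψ
    have e3 : φ.toMonoidHom = ψ.toMonoidHom := by
      apply MonoidHom.eq_of_eqOn_dense h
      rintro z hz
      rcases hz with hz | hz
      · rw [hz]; exact e1
      · rw [Set.mem_singleton_iff.1 hz]; exact e2
    ext z
    exact congrArg (fun f => f z) e3
  calc Nat.card (MulAut S) * c ≤ (Z.card * Nat.card S) * c := by gcongr
    _ = (Z.card * c) * Nat.card S := by ring
    _ ≤ (kc S * Nat.card S) * Nat.card S := by gcongr

/-- centraliser of a 3-cycle in the alternating group -/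
theorem cent_bound {α : Type} [Fintype α] [DecidableEq α] (a b c : α) (x : alternatingGroup α)
    (hx : (x : Perm α) = ta a b c) :
    Nat.card (alternatingGroup α) ≤ Fintype.card α ^ 3 * Nat.card (Subgroup.centralizer {x}) := by
  classical
  let f : alternatingGroup α → α × α × α := fun g => ((g : Perm α) a, (g : Perm α) b, (g : Perm α) c)
  have hfib : ∀ t : α × α × α, (Finset.univ.filter (fun g => f g = t)).card ≤
      Nat.card (Subgroup.centralizer {x}) := by
    intro t
    rcases Finset.eq_empty_or_nonempty (Finset.univ.filter (fun g => f g = t)) with h | ⟨g₀, hg₀⟩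
    · rw [h]
      simp
    · have hg₀' := (Finset.mem_filter.1 hg₀).2
      have e : (Finset.univ.filter (fun g => f g = t)).card =
          Nat.card (Finset.univ.filter (fun g => f g = t)) := by
        rw [Nat.card_eq_fintype_card, Fintype.card_coe]
      rw [e]
      apply Nat.card_le_card_of_injective (fun g : Finset.univ.filter (fun g => f g = t) =>
        (⟨g₀⁻¹ * g.1, ?_⟩ : Subgroup.centralizer {x}))
      · intro g g' hgg
        have := congrArg Subtype.val hgg
        exact Subtype.ext (mul_left_cancel this)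
      · rw [Subgroup.mem_centralizer_iff]
        rintro v hv
        rw [Set.mem_singleton_iff] at hv
        rw [hv]
        have hg := (Finset.mem_filter.1 g.2).2
        have h1 : f g.1 = f g₀ := by rw [hg, hg₀']
        have e1 : ((g.1 : alternatingGroup α) : Perm α) a = (g₀ : Perm α) a :=
          congrArg Prod.fst h1
        have e2 : ((g.1 : alternatingGroup α) : Perm α) b = (g₀ : Perm α) b :=
          congrArg (fun p => p.2.1) h1
        have e3 : ((g.1 : alternatingGroup α) : Perm α) c = (g₀ : Perm α) c :=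
          congrArg (fun p => p.2.2) h1
        have h2 : ((g.1 : alternatingGroup α) : Perm α) * ta a b c * ((g.1 : Perm α))⁻¹ =
            (g₀ : Perm α) * ta a b c * (g₀ : Perm α)⁻¹ := by
          rw [ta_conj, ta_conj, e1, e2, e3]
        apply Subtype.ext
        show (x : Perm α) * ((g₀ : Perm α)⁻¹ * (g.1 : Perm α)) =
          ((g₀ : Perm α)⁻¹ * (g.1 : Perm α)) * (x : Perm α)
        rw [hx]
        have h3 : ta a b c = (g₀ : Perm α)⁻¹ * ((g.1 : Perm α) * ta a b c * (g.1 : Perm α)⁻¹) *
            (g₀ : Perm α) := by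
          rw [h2]
          group
        calc ta a b c * ((g₀ : Perm α)⁻¹ * (g.1 : Perm α))
            = ((g₀ : Perm α)⁻¹ * ((g.1 : Perm α) * ta a b c * (g.1 : Perm α)⁻¹) *
            (g₀ : Perm α)) * ((g₀ : Perm α)⁻¹ * (g.1 : Perm α)) := by rw [← h3]
          _ = _ := by group
  have h1 : Nat.card (alternatingGroup α) = ∑ t : α × α × α,
      (Finset.univ.filter (fun g => f g = t)).card := by
    rw [Nat.card_eq_fintype_card, ← Finset.card_univ]
    exact Finset.card_eq_sum_card_fiberwise (fun _ _ => Finset.mem_univ _)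
  rw [h1]
  calc ∑ t : α × α × α, (Finset.univ.filter (fun g => f g = t)).card
      ≤ ∑ t : α × α × α, Nat.card (Subgroup.centralizer {x}) := Finset.sum_le_sum fun t _ => hfib t
    _ = _ := by
        rw [Finset.sum_const, Finset.card_univ, smul_eq_mul, Fintype.card_prod, Fintype.card_prod]
        ring

/-- class number of the symmetric group -/
theorem kc_perm_part (α : Type) [Fintype α] [DecidableEq α] :
    kc (Perm α) ≤ Nat.card (Fintype.card α).Partition := by
  have hinj : Function.Injective (fun c : ConjClasses (Perm α) => Quotient.liftOn c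
      (fun σ => σ.partition) (fun σ τ h => partition_eq_of_isConj.1 h)) := by
    intro c d h
    obtain ⟨σ, rfl⟩ := ConjClasses.mk_surjective c
    obtain ⟨τ, rfl⟩ := ConjClasses.mk_surjective d
    rw [ConjClasses.mk_eq_mk_iff_isConj]
    exact partition_eq_of_isConj.2 h
  exact Nat.card_le_card_of_injective _ hinj

/-- the numerical inequality -/
theorem num_ineq (n : ℕ) (hn : 160 ≤ n) :
    2 * (16 * (160200 * (9 / 8 : ℝ) ^ n) ^ 2 * (n : ℝ) ^ 3) ^ 8 ≤ (n.factorial : ℝ) := by
  induction n, hn using Nat.le_induction with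
  | base =>
    have : (Nat.factorial 160 : ℝ) = ((Nat.factorial 160 : ℕ) : ℝ) := rfl
    norm_num [Nat.factorial]
  | succ n hn ih =>
    have h1 : (16 * (160200 * (9 / 8 : ℝ) ^ (n + 1)) ^ 2 * ((n + 1 : ℕ) : ℝ) ^ 3) ^ 8 ≤
        161 * (16 * (160200 * (9 / 8 : ℝ) ^ n) ^ 2 * (n : ℝ) ^ 3) ^ 8 := by
      have hn' : (160 : ℝ) ≤ n := by exact_mod_cast hn
      have h2 : ((n + 1 : ℕ) : ℝ) ≤ (161 / 160) * n := by
        push_cast
        linarith
      calc (16 * (160200 * (9 / 8 : ℝ) ^ (n + 1)) ^ 2 * ((n + 1 : ℕ) : ℝ) ^ 3) ^ 8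
          ≤ (16 * (160200 * (9 / 8 : ℝ) ^ (n + 1)) ^ 2 * ((161 / 160) * n) ^ 3) ^ 8 := by gcongr
        _ = (((9 / 8 : ℝ) ^ 2 * (161 / 160) ^ 3) ^ 8) *
            (16 * (160200 * (9 / 8 : ℝ) ^ n) ^ 2 * (n : ℝ) ^ 3) ^ 8 := by
            rw [pow_succ (9 / 8 : ℝ) n]
            ring
        _ ≤ _ := by
            gcongr
            norm_num
    rw [Nat.factorial_succ]
    push_cast
    have hn' : (160 : ℝ) ≤ n := by exact_mod_cast hn
    have hf : (0 : ℝ) ≤ (n.factorial : ℝ) := by positivity
    push_cast at h1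
    nlinarith

/-- the alternating groups of degree at least 160 satisfy the criterion -/
theorem alt_crit {α : Type} [Fintype α] [DecidableEq α] (hα : 160 ≤ Fintype.card α) :
    (4 * kc (alternatingGroup α) * Nat.card (MulAut (alternatingGroup α))) ^ 8 ≤
      Nat.card (alternatingGroup α) ^ 9 := by
  set n := Fintype.card α with hn
  -- transport to the standard model
  obtain ⟨m, hm⟩ : ∃ m, n = m + 3 := ⟨n - 3, by omega⟩
  have e : α ≃ Fin 2 ⊕ Fin (m + 1) := Fintype.equivOfCardEq (by simp; omega)
  have E := Equiv.altCongrHom e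
  have hgen := alt_gen m
  set A := alternatingGroup (Fin 2 ⊕ Fin (m + 1)) with hA
  obtain ⟨x, y, hx, hxy⟩ := hgen
  rw [kc_congr E, Nat.card_congr (MulAut.congr E).toEquiv, Nat.card_congr E.toEquiv]
  have h1 := aut_bound A x y hxy
  have h2 := cent_bound _ _ _ x hx
  have hcard : Fintype.card (Fin 2 ⊕ Fin (m + 1)) = n := by simp; omega
  rw [hcard] at h2
  have hApos : 0 < Nat.card A := Nat.card_pos
  have h3 : Nat.card (MulAut A) ≤ n ^ 3 * kc A * Nat.card A := by
    have h4 : Nat.card (MulAut A) * Nat.card A ≤ (n ^ 3 * kc A * Nat.card A) * Nat.card A := by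
      calc Nat.card (MulAut A) * Nat.card A
          ≤ Nat.card (MulAut A) * (n ^ 3 * Nat.card (Subgroup.centralizer {x})) := by gcongr
        _ = n ^ 3 * (Nat.card (MulAut A) * Nat.card (Subgroup.centralizer {x})) := by ring
        _ ≤ n ^ 3 * (kc A * Nat.card A * Nat.card A) := by gcongr
        _ = _ := by ring
    exact Nat.le_of_mul_le_mul_right h4 hApos
  have : Nontrivial (Fin 2 ⊕ Fin (m + 1)) := ⟨⟨Sum.inl 0, Sum.inl 1, by simp⟩⟩
  have hk : kc A ≤ 2 * Nat.card n.Partition := by
    have h4 := kc_sub A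
    have h5 := kc_perm_part (Fin 2 ⊕ Fin (m + 1))
    rw [hcard] at h5
    have h6 : A.index = 2 := alternatingGroup.index_eq_two
    rw [h6] at h4
    omega
  have hN : 2 * Nat.card A = n.factorial := by
    have h4 : 2 * Nat.card A = Nat.card (Perm (Fin 2 ⊕ Fin (m + 1))) :=
      two_mul_nat_card_alternatingGroup
    rw [h4, Nat.card_perm, Nat.card_eq_fintype_card, hcard]
  have h7 : ((4 * kc A * (n ^ 3 * kc A)) ^ 8 : ℕ) ≤ Nat.card A := by
    have hp := part_le n
    have hnum := num_ineq n hα
    have hkR : (kc A : ℝ) ≤ 2 * (160200 * (9 / 8 : ℝ) ^ n) := by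
      have : (kc A : ℝ) ≤ 2 * (Nat.card n.Partition : ℝ) := by exact_mod_cast hk
      linarith
    have hNR : (2 : ℝ) * (Nat.card A : ℝ) = (n.factorial : ℝ) := by exact_mod_cast hN
    have h8 : (2 : ℝ) * (4 * (kc A : ℝ) * ((n : ℝ) ^ 3 * kc A)) ^ 8 ≤ 2 * (Nat.card A : ℝ) := by
      rw [hNR]
      refine le_trans ?_ hnum
      have h9 : 4 * (kc A : ℝ) * ((n : ℝ) ^ 3 * kc A) ≤
          16 * (160200 * (9 / 8 : ℝ) ^ n) ^ 2 * (n : ℝ) ^ 3 := by
        calc 4 * (kc A : ℝ) * ((n : ℝ) ^ 3 * kc A) = 4 * (kc A : ℝ) ^ 2 * (n : ℝ) ^ 3 := by ring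
          _ ≤ 4 * (2 * (160200 * (9 / 8 : ℝ) ^ n)) ^ 2 * (n : ℝ) ^ 3 := by gcongr
          _ = _ := by ring
      gcongr
    have h10 : ((4 * (kc A : ℝ) * ((n : ℝ) ^ 3 * kc A)) ^ 8) ≤ (Nat.card A : ℝ) := by linarith
    exact_mod_cast h10
  calc (4 * kc A * Nat.card (MulAut A)) ^ 8 ≤ (4 * kc A * (n ^ 3 * kc A * Nat.card A)) ^ 8 := by
        gcongr
    _ = (4 * kc A * (n ^ 3 * kc A)) ^ 8 * Nat.card A ^ 8 := by ring
    _ ≤ Nat.card A * Nat.card A ^ 8 := by gcongr
    _ = Nat.card A ^ 9 := by ring

end Pool.Agent.ACD8
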