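import Mathlib

set_option autoImplicit false

open Representation LinearMap

noncomputable section

namespace Pool.Agent.ACD8

/-- the irreducible complex characters of `G` -/
def IrrC (G : Type) [Group G] : Set (G → ℂ) :=
  {χ | ∃ (n : ℕ) (ρ : Representation ℂ G (Fin n → ℂ)), ρ.IsIrreducible ∧ ρ.character = χ}

section transport

variable {G : Type} [Group G] {V W : Type} [AddCommGroup V] [Module ℂ V]
  [AddCommGroup W] [Module ℂ W]

/-- transport of a representation along a linear equivalence -/
def tr (ρ : Representation ℂ G V) (e : V ≃ₗ[ℂ] W) : Representation ℂ G W where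
  toFun g := e.toLinearMap ∘ₗ ρ g ∘ₗ e.symm.toLinearMap
  map_one' := by ext x; simp
  map_mul' g h := by ext x; simp

theorem tr_apply (ρ : Representation ℂ G V) (e : V ≃ₗ[ℂ] W) (g : G) (w : W) :
    tr ρ e g w = e (ρ g (e.symm w)) := rfl

/-- transported subrepresentation -/
def trSub (ρ : Representation ℂ G V) (e : V ≃ₗ[ℂ] W) (S : Subrepresentation ρ) :
    Subrepresentation (tr ρ e) where
  toSubmodule := S.toSubmodule.map e.toLinearMap
  apply_mem_toSubmodule g v hv := by
    rw [Submodule.mem_map] at hv ⊢
    obtain ⟨y, hy, rfl⟩ := hv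
    exact ⟨ρ g y, S.apply_mem_toSubmodule g hy, by simp [tr_apply]⟩

end transport

/-- irreducibility in elementary terms -/
theorem irr_iff {G : Type} [Group G] {V : Type} [AddCommGroup V] [Module ℂ V]
    (ρ : Representation ℂ G V) : ρ.IsIrreducible ↔ (Nontrivial V ∧
      ∀ S : Submodule ℂ V, (∀ g, ∀ v ∈ S, ρ g v ∈ S) → S = ⊥ ∨ S = ⊤) := by
  constructor
  · intro h
    refine ⟨?_, ?_⟩
    · by_contra hn
      rw [not_nontrivial_iff_subsingleton] at hn
      have := h.toNontrivial
      obtain ⟨a, b, hab⟩ := this
      apply hab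
      apply Subrepresentation.toSubmodule_injective
      exact Subsingleton.elim _ _
    · intro S hS
      let S' : Subrepresentation ρ := ⟨S, fun g v hv => hS g v hv⟩
      rcases h.eq_bot_or_eq_top S' with h1 | h1
      · left
        have := congrArg Subrepresentation.toSubmodule h1
        exact this
      · right
        have := congrArg Subrepresentation.toSubmodule h1
        exact this
  · rintro ⟨h1, h2⟩
    have hnt : Nontrivial (Subrepresentation ρ) := by
      refine ⟨⟨⊥, ⊤, ?_⟩⟩
      intro h
      have := congrArg Subrepresentation.toSubmodule h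
      exact bot_ne_top (α := Submodule ℂ V) this
    refine { hnt with eq_bot_or_eq_top := ?_ }
    intro S
    rcases h2 S.toSubmodule (fun g v hv => S.apply_mem_toSubmodule g hv) with h | h
    · left
      apply Subrepresentation.toSubmodule_injective
      exact h
    · right
      apply Subrepresentation.toSubmodule_injective
      exact h

theorem irr_tr {G : Type} [Group G] {V W : Type} [AddCommGroup V] [Module ℂ V]
    [AddCommGroup W] [Module ℂ W] (ρ : Representation ℂ G V) (e : V ≃ₗ[ℂ] W)
    (h : ρ.IsIrreducible) : (tr ρ e).IsIrreducible := by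
  rw [irr_iff] at h ⊢
  obtain ⟨h1, h2⟩ := h
  refine ⟨e.symm.toEquiv.nontrivial, ?_⟩
  intro S hS
  rcases h2 (S.comap e.toLinearMap) (by
    intro g v hv
    have := hS g (e v) hv
    rw [tr_apply, e.symm_apply_apply] at this
    exact this) with h | h
  · left
    rw [eq_bot_iff]
    intro w hw
    have : e.symm w ∈ S.comap e.toLinearMap := by simpa using hw
    rw [h] at this
    have h3 : e.symm w = 0 := this
    simpa using h3
  · right
    rw [eq_top_iff]
    intro w _
    have : e.symm w ∈ S.comap e.toLinearMap := by rw [h]; trivial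
    simpa using this

theorem char_tr {G : Type} [Group G] {V W : Type} [AddCommGroup V] [Module ℂ V]
    [AddCommGroup W] [Module ℂ W] (ρ : Representation ℂ G V) (e : V ≃ₗ[ℂ] W) :
    (tr ρ e).character = ρ.character := by
  ext g
  show LinearMap.trace ℂ W (e.toLinearMap ∘ₗ ρ g ∘ₗ e.symm.toLinearMap) = LinearMap.trace ℂ V (ρ g)
  exact LinearMap.trace_conj' (ρ g) e

/-- the character of an irreducible representation is in `IrrC` -/
theorem mem_irrC {G : Type} [Group G] {V : Type} [AddCommGroup V] [Module ℂ V]
    [FiniteDimensional ℂ V] (ρ : Representation ℂ G V) (h : ρ.IsIrreducible) :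
    ρ.character ∈ IrrC G := by
  let e : V ≃ₗ[ℂ] (Fin (Module.finrank ℂ V) → ℂ) := LinearEquiv.ofFinrankEq _ _ (by simp)
  exact ⟨_, tr ρ e, irr_tr ρ e h, char_tr ρ e⟩

/-- degree of an irreducible character -/
def dg {G : Type} [Group G] (χ : IrrC G) : ℕ := Classical.choose χ.2

/-- model of an irreducible character -/
def md {G : Type} [Group G] (χ : IrrC G) : Representation ℂ G (Fin (dg χ) → ℂ) :=
  Classical.choose (Classical.choose_spec χ.2)

theorem md_irr {G : Type} [Group G] (χ : IrrC G) : (md χ).IsIrreducible :=
  (Classical.choose_spec (Classical.choose_spec χ.2)).1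

theorem md_char {G : Type} [Group G] (χ : IrrC G) : (md χ).character = χ.1 :=
  (Classical.choose_spec (Classical.choose_spec χ.2)).2

theorem dg_eq {G : Type} [Group G] (χ : IrrC G) : χ.1 1 = dg χ := by
  rw [← md_char, char_one]
  simp

section fin

variable {G : Type} [Group G] [Fintype G]

instance invG : Invertible (Nat.card G : ℂ) :=
  invertibleOfNonzero (by rw [Nat.card_eq_fintype_card]; exact_mod_cast Fintype.card_ne_zero)

open scoped Classical in
/-- orthonormality -/
theorem ortho (χ ψ : IrrC G) :
    (Nat.card G : ℂ)⁻¹ * ∑ g : G, χ.1 g * ψ.1 g⁻¹ = if χ = ψ then 1 else 0 := by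
  haveI := md_irr χ
  haveI := md_irr ψ
  have h := char_orthonormal (md χ) (md ψ)
  rw [md_char, md_char] at h
  rw [h]
  by_cases hn : Nonempty (Equiv (md ψ) (md χ))
  · rw [if_pos hn]
    obtain ⟨φ⟩ := hn
    have := char_iso φ
    rw [md_char, md_char] at this
    rw [if_pos (Subtype.ext this.symm)]
  · rw [if_neg hn, if_neg]
    rintro rfl
    exact hn ⟨Representation.Equiv.refl _⟩

/-- two irreducible representations with the same character are isomorphic to the model -/
theorem iso_md {V : Type} [AddCommGroup V] [Module ℂ V] [FiniteDimensional ℂ V]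
    (ρ : Representation ℂ G V) (h : ρ.IsIrreducible) :
    Nonempty (Equiv ρ (md ⟨ρ.character, mem_irrC ρ h⟩)) := by
  haveI := h
  haveI := md_irr ⟨ρ.character, mem_irrC ρ h⟩
  have h1 := char_orthonormal (md ⟨ρ.character, mem_irrC ρ h⟩) ρ
  have h2 := char_orthonormal ρ ρ
  rw [md_char] at h1
  rw [h1] at h2
  by_contra hn
  rw [if_neg hn, if_pos ⟨Representation.Equiv.refl _⟩] at h2
  exact zero_ne_one h2

end fin

end Pool.Agent.ACD8
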