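import Pool.Agent.Work.MP_76dc41_al.H8.Ri

set_option autoImplicit false

open Representation LinearMap

noncomputable section

namespace Pool.Agent.ACD8

theorem ri_char {G : Type} [Group G] {V : Type} [AddCommGroup V] [Module ℂ V]
    [FiniteDimensional ℂ V] (ρ : Representation ℂ G V) {ι : Type} [Fintype ι] (χ : ι → IrrC G)
    (i : ∀ j, (Fin (dg (χ j)) → ℂ) →ₗ[ℂ] V) (q : ∀ j, V →ₗ[ℂ] (Fin (dg (χ j)) → ℂ))
    (h1 : ∀ j g, i j ∘ₗ md (χ j) g = ρ g ∘ₗ i j)
    (h3 : ∀ j, q j ∘ₗ i j = LinearMap.id) (h4 : ∑ j, i j ∘ₗ q j = LinearMap.id) (g : G) :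
    ρ.character g = ∑ j, (χ j).1 g := by
  show LinearMap.trace ℂ V (ρ g) = _
  have : ρ g = ∑ j, (i j ∘ₗ md (χ j) g) ∘ₗ q j := by
    calc ρ g = ρ g ∘ₗ (∑ j, i j ∘ₗ q j) := by rw [h4]; rfl
      _ = ∑ j, (i j ∘ₗ md (χ j) g) ∘ₗ q j := by
          ext x
          simp only [LinearMap.comp_apply, LinearMap.sum_apply, map_sum]
          refine Finset.sum_congr rfl fun j _ => ?_
          have := congrArg (fun f => f (q j x)) (h1 j g)
          simp only [LinearMap.comp_apply] at this
          exact this.symm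
  rw [this, map_sum]
  refine Finset.sum_congr rfl fun j _ => ?_
  rw [LinearMap.trace_comp_comm', ← LinearMap.comp_assoc, h3, LinearMap.id_comp, ← md_char]
  rfl

section

variable {G : Type} [Group G] [Fintype G]

/-- the bilinear form on functions -/
def ip (f h : G → ℂ) : ℂ := (Nat.card G : ℂ)⁻¹ * ∑ g : G, f g * h g⁻¹

theorem ip_sum_left {ι : Type} (s : Finset ι) (f : ι → G → ℂ) (h : G → ℂ) :
    ip (fun g => ∑ j ∈ s, f j g) h = ∑ j ∈ s, ip (f j) h := by
  unfold ip
  rw [← Finset.mul_sum, Finset.sum_comm]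
  congr 1
  refine Finset.sum_congr rfl fun g _ => ?_
  rw [Finset.sum_mul]

theorem ip_smul_left (a : ℂ) (f h : G → ℂ) : ip (fun g => a * f g) h = a * ip f h := by
  unfold ip
  rw [mul_left_comm, Finset.mul_sum (a := a)]
  congr 1
  refine Finset.sum_congr rfl fun g _ => ?_
  ring

open scoped Classical in
theorem ip_irr (χ ψ : IrrC G) : ip χ.1 ψ.1 = if χ = ψ then 1 else 0 := ortho χ ψ

theorem linIndep : LinearIndependent ℂ (fun χ : IrrC G => χ.1) := by
  classical
  rw [linearIndependent_iff']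
  intro s a h ψ hψ
  have h1 : ip (fun g => ∑ χ ∈ s, a χ * χ.1 g) ψ.1 = 0 := by
    have : (fun g => ∑ χ ∈ s, a χ * χ.1 g) = 0 := by
      rw [← h]
      ext g
      simp
    rw [this]
    simp [ip]
  rw [ip_sum_left] at h1
  simp only [ip_smul_left, ip_irr] at h1
  simpa [hψ] using h1

instance finIrr : Finite (IrrC G) := linIndep.finite_of_isNoetherian

instance fintypeIrr : Fintype (IrrC G) := Fintype.ofFinite _

open scoped Classical in
theorem count_ip {ι : Type} [Fintype ι] (χ : ι → IrrC G) (f : G → ℂ)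
    (hf : ∀ g, f g = ∑ j, (χ j).1 g) (ψ : IrrC G) :
    ip f ψ.1 = (Finset.univ.filter (fun j => χ j = ψ)).card := by
  have : f = fun g => ∑ j, (χ j).1 g := by
    ext g
    exact hf g
  rw [this, ip_sum_left]
  simp only [ip_irr]
  rw [Finset.sum_boole]

open scoped Classical in
/-- multiplicities -/
theorem exists_mult {V : Type} [AddCommGroup V] [Module ℂ V]
    [FiniteDimensional ℂ V] (ρ : Representation ℂ G V) :
    ∃ m : IrrC G → ℕ, (∀ g, ρ.character g = ∑ χ, (m χ : ℂ) * χ.1 g) ∧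
      ∀ χ, ip ρ.character χ.1 = m χ := by
  obtain ⟨ι, _, χ, i, q, r1, r2, r3, r4⟩ := ri_all _ V ρ rfl
  have h := ri_char ρ χ i q r1 r3 r4
  refine ⟨fun ψ => (Finset.univ.filter (fun j => χ j = ψ)).card, ?_, ?_⟩
  · intro g
    rw [h g, ← Finset.sum_fiberwise Finset.univ χ]
    refine Finset.sum_congr rfl fun ψ _ => ?_
    rw [Finset.sum_congr rfl (g := fun _ => ψ.1 g)]
    · simp
    · intro j hj
      rw [(Finset.mem_filter.1 hj).2]
  · exact count_ip χ _ h

/-- the regular representation on functions -/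
def reg (G : Type) [Group G] : Representation ℂ G (G → ℂ) where
  toFun g := LinearMap.funLeft ℂ ℂ (fun x => g⁻¹ * x)
  map_one' := by ext f x; simp [LinearMap.funLeft]
  map_mul' g h := by ext f x; simp [LinearMap.funLeft, mul_assoc]

open scoped Classical in
theorem reg_char (g : G) : (reg G).character g = if g = 1 then (Nat.card G : ℂ) else 0 := by
  show LinearMap.trace ℂ (G → ℂ) (reg G g) = _
  rw [LinearMap.trace_eq_matrix_trace ℂ (Pi.basisFun ℂ G)]
  simp only [Matrix.trace, Matrix.diag, LinearMap.toMatrix_apply, Pi.basisFun_apply, Pi.basisFun_repr]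
  have : ∀ x : G, (reg G g (Pi.single x 1)) x = if g = 1 then 1 else 0 := by
    intro x
    show (Pi.single x (1 : ℂ) : G → ℂ) (g⁻¹ * x) = _
    rw [Pi.single_apply]
    by_cases hg : g = 1
    · simp [hg]
    · rw [if_neg hg, if_neg]
      intro h
      apply hg
      have : g⁻¹ = 1 := by simpa using h
      simpa using this
  simp only [this]
  split_ifs
  · simp
  · simp

theorem regular_sum (g : G) : ∑ χ : IrrC G, (dg χ : ℂ) * χ.1 g =
    (open scoped Classical in if g = 1 then (Nat.card G : ℂ) else 0) := by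
  classical
  obtain ⟨m, h1, h2⟩ := exists_mult (reg G)
  have h3 : ∀ χ : IrrC G, (m χ : ℂ) = dg χ := by
    intro χ
    rw [← h2 χ]
    unfold ip
    simp only [reg_char]
    rw [Finset.sum_eq_single 1]
    · have : (Nat.card G : ℂ) ≠ 0 := by
        rw [Nat.card_eq_fintype_card]; exact_mod_cast Fintype.card_ne_zero
      simp [dg_eq]
    · intro b _ hb
      simp [hb]
    · simp
  rw [← reg_char, h1]
  refine Finset.sum_congr rfl fun χ _ => ?_
  rw [h3]

theorem sum_sq : ∑ χ : IrrC G, (dg χ) ^ 2 = Nat.card G := by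
  have h := regular_sum (G := G) 1
  rw [if_pos rfl] at h
  have : ((∑ χ : IrrC G, (dg χ) ^ 2 : ℕ) : ℂ) = (Nat.card G : ℕ) := by
    rw [← h]
    push_cast
    refine Finset.sum_congr rfl fun χ _ => ?_
    rw [dg_eq]
    ring
  exact_mod_cast this

end

end Pool.Agent.ACD8
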