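import Mathlib

set_option autoImplicit false

noncomputable section

namespace Pool.Agent.ACD8

/-- number of conjugacy classes -/
def kc (G : Type) [Group G] : ℕ := Nat.card (ConjClasses G)

theorem kc_congr {G H : Type} [Group G] [Group H] (e : G ≃* H) : kc G = kc H := by
  unfold kc
  refine Nat.card_congr ⟨ConjClasses.map e.toMonoidHom, ConjClasses.map e.symm.toMonoidHom, ?_, ?_⟩
  · intro x
    obtain ⟨y, rfl⟩ := ConjClasses.mk_surjective x
    show ConjClasses.mk (e.symm (e y)) = _
    rw [e.symm_apply_apply]
  · intro x
    obtain ⟨y, rfl⟩ := ConjClasses.mk_surjective x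
    show ConjClasses.mk (e (e.symm y)) = _
    rw [e.apply_symm_apply]

theorem kc_le_card (G : Type) [Group G] [Finite G] : kc G ≤ Nat.card G :=
  Nat.card_le_card_of_surjective ConjClasses.mk ConjClasses.mk_surjective

theorem kc_pos (G : Type) [Group G] [Finite G] : 0 < kc G := Nat.card_pos

section

variable {G : Type} [Group G]

/-- number of commuting pairs -/
theorem comm_count (G : Type) [Group G] [Fintype G] [DecidableEq G] :
    ∑ x : G, (Finset.univ.filter (fun y : G => x * y = y * x)).card = kc G * Nat.card G := by
  unfold kc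
  rw [← card_comm_eq_card_conjClasses_mul_card]
  have h : Nat.card {p : G × G // Commute p.1 p.2} =
      (Finset.univ.filter (fun p : G × G => p.1 * p.2 = p.2 * p.1)).card := by
    show Nat.card {p : G × G // p.1 * p.2 = p.2 * p.1} = _
    rw [Nat.card_eq_fintype_card, Fintype.card_subtype]
  rw [h, Finset.card_filter, Fintype.sum_prod_type]
  refine Finset.sum_congr rfl fun x _ => ?_
  rw [Finset.card_filter]

/-- subsets of a coset which commute with a fixed element -/
theorem coset_comm_le [Fintype G] [DecidableEq G] (N : Subgroup G) [DecidablePred (· ∈ N)] (b x : G) :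
    (Finset.univ.filter (fun y : G => b⁻¹ * y ∈ N ∧ x * y = y * x)).card ≤
      (Finset.univ.filter (fun y : G => y ∈ N ∧ x * y = y * x)).card := by
  by_cases h : ∃ y₀ : G, b⁻¹ * y₀ ∈ N ∧ x * y₀ = y₀ * x
  · obtain ⟨y₀, h1, h2⟩ := h
    apply Finset.card_le_card_of_injOn (fun y => y₀⁻¹ * y)
    · intro y hy
      simp only [Finset.coe_filter, Finset.mem_univ, true_and, Set.mem_ofPred_eq] at hy ⊢
      refine ⟨?_, ?_⟩
      · have : y₀⁻¹ * y = (b⁻¹ * y₀)⁻¹ * (b⁻¹ * y) := by group
        rw [this]
        exact N.mul_mem (N.inv_mem h1) hy.1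
      · have e1 : x * y₀⁻¹ = y₀⁻¹ * x := by
          have : Commute x y₀ := h2
          exact this.inv_right
        rw [← mul_assoc, e1, mul_assoc, hy.2, mul_assoc]
    · intro y _ z _ hyz
      exact mul_left_cancel hyz
  · rw [Finset.filter_eq_empty_iff.2]
    · simp
    · intro y _ hy
      exact h ⟨y, hy⟩

/-- `k(G) ≤ k(N) k(G/N)` -/
theorem kc_quot [Finite G] (N : Subgroup G) [N.Normal] : kc G ≤ kc N * kc (G ⧸ N) := by
  classical
  have := Fintype.ofFinite G
  have := Fintype.ofFinite N
  have := Fintype.ofFinite (G ⧸ N)
  have hG := comm_count G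
  have hN := comm_count N
  have hQ := comm_count (G ⧸ N)
  -- fibre bound
  have hfib : ∀ a b : G, ∑ x ∈ Finset.univ.filter (fun x : G => a⁻¹ * x ∈ N),
      (Finset.univ.filter (fun y : G => b⁻¹ * y ∈ N ∧ x * y = y * x)).card ≤ kc N * Nat.card N := by
    intro a b
    rw [← hN]
    calc ∑ x ∈ Finset.univ.filter (fun x : G => a⁻¹ * x ∈ N),
          (Finset.univ.filter (fun y : G => b⁻¹ * y ∈ N ∧ x * y = y * x)).card
        ≤ ∑ x ∈ Finset.univ.filter (fun x : G => a⁻¹ * x ∈ N),
          (Finset.univ.filter (fun y : G => y ∈ N ∧ x * y = y * x)).card :=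
          Finset.sum_le_sum fun x _ => coset_comm_le N b x
      _ = ∑ y ∈ Finset.univ.filter (fun y : G => y ∈ N),
          (Finset.univ.filter (fun x : G => a⁻¹ * x ∈ N ∧ y * x = x * y)).card := by
          simp only [Finset.card_eq_sum_ones]
          apply Finset.sum_comm'
          intro x y
          simp only [Finset.mem_filter, Finset.mem_univ, true_and]
          constructor
          · rintro ⟨h1, h2, h3⟩
            exact ⟨⟨h1, h3.symm⟩, h2⟩
          · rintro ⟨⟨h1, h3⟩, h2⟩
            exact ⟨h1, h2, h3.symm⟩
      _ ≤ ∑ y ∈ Finset.univ.filter (fun y : G => y ∈ N),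
          (Finset.univ.filter (fun x : G => x ∈ N ∧ y * x = x * y)).card :=
          Finset.sum_le_sum fun y _ => coset_comm_le N a y
      _ = ∑ y : N, (Finset.univ.filter (fun x : N => y * x = x * y)).card := by
          rw [Finset.sum_subtype (p := fun y => y ∈ N) (Finset.univ.filter (fun y : G => y ∈ N))
            (by simp)]
          refine Finset.sum_congr rfl fun y _ => ?_
          symm
          apply Finset.card_bij (fun (x : N) _ => (x : G))
          · intro x hx
            simp only [Finset.mem_filter, Finset.mem_univ, true_and] at hx ⊢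
            refine ⟨x.2, ?_⟩
            exact congrArg Subtype.val hx
          · intro x _ z _ h
            exact Subtype.ext h
          · intro x hx
            simp only [Finset.mem_filter, Finset.mem_univ, true_and] at hx
            refine ⟨⟨x, hx.1⟩, ?_, rfl⟩
            simp only [Finset.mem_filter, Finset.mem_univ, true_and]
            exact Subtype.ext hx.2
  have hmain : kc G * Nat.card G ≤ (kc (G ⧸ N) * Nat.card (G ⧸ N)) * (kc N * Nat.card N) := by
    rw [← hG, ← hQ, Finset.sum_mul]
    rw [← Finset.sum_fiberwise Finset.univ (fun x : G => (QuotientGroup.mk x : G ⧸ N))]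
    refine Finset.sum_le_sum fun q _ => ?_
    obtain ⟨a, rfl⟩ := QuotientGroup.mk_surjective q
    have e1 : ∀ x ∈ Finset.univ.filter (fun x : G => (QuotientGroup.mk x : G ⧸ N) =
        QuotientGroup.mk a), (Finset.univ.filter (fun y : G => x * y = y * x)).card =
        ∑ r ∈ Finset.univ.filter (fun r : G ⧸ N => (QuotientGroup.mk a) * r =
          r * (QuotientGroup.mk a)),
        (Finset.univ.filter (fun y : G => (QuotientGroup.mk y : G ⧸ N) = r ∧
          x * y = y * x)).card := by
      intro x hx
      have hx' := (Finset.mem_filter.1 hx).2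
      rw [Finset.card_eq_sum_card_fiberwise (f := fun y : G => (QuotientGroup.mk y : G ⧸ N))
        (t := Finset.univ.filter (fun r : G ⧸ N => (QuotientGroup.mk a) * r =
          r * (QuotientGroup.mk a)))]
      · refine Finset.sum_congr rfl fun r _ => ?_
        rw [Finset.filter_filter]
        congr 1
        ext y
        simp only [Finset.mem_filter, Finset.mem_univ, true_and]
        tauto
      · intro y hy
        simp only [Finset.coe_filter, Finset.mem_univ, true_and, Set.mem_ofPred_eq] at hy ⊢
        rw [← hx']
        have := congrArg (QuotientGroup.mk : G → G ⧸ N) hy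
        exact this
    rw [Finset.sum_congr rfl e1, Finset.sum_comm, Finset.card_eq_sum_ones, Finset.sum_mul]
    refine Finset.sum_le_sum fun r _ => ?_
    obtain ⟨b, rfl⟩ := QuotientGroup.mk_surjective r
    rw [one_mul]
    have := hfib a b
    refine le_trans (le_of_eq ?_) this
    have e2 : ∀ (a x : G), (QuotientGroup.mk x : G ⧸ N) = QuotientGroup.mk a ↔ a⁻¹ * x ∈ N := by
      intro a x
      rw [eq_comm, QuotientGroup.eq]
    simp only [e2]
  have h5 : Nat.card G = Nat.card (G ⧸ N) * Nat.card N :=
    Subgroup.card_eq_card_quotient_mul_card_subgroup N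
  have h6 : 0 < Nat.card G := Nat.card_pos
  have h7 : kc G * Nat.card G ≤ (kc N * kc (G ⧸ N)) * Nat.card G := by
    calc kc G * Nat.card G ≤ (kc (G ⧸ N) * Nat.card (G ⧸ N)) * (kc N * Nat.card N) := hmain
      _ = (kc N * kc (G ⧸ N)) * Nat.card G := by rw [h5]; ring
  exact Nat.le_of_mul_le_mul_right h7 h6

/-- `k(H) ≤ |G:H| k(G)` -/
theorem kc_sub [Finite G] (H : Subgroup G) : kc H ≤ H.index * kc G := by
  have h := Subgroup.commProb_subgroup_le H
  rw [commProb_def', commProb_def'] at h
  have h1 : (0 : ℚ) < Nat.card H := by exact_mod_cast (Nat.card_pos : 0 < Nat.card H)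
  have h2 : (0 : ℚ) < Nat.card G := by exact_mod_cast (Nat.card_pos : 0 < Nat.card G)
  have h3 : (Nat.card G : ℚ) = Nat.card H * H.index := by
    exact_mod_cast (H.card_mul_index).symm
  have h4 : ((kc H : ℕ) : ℚ) ≤ ((H.index * kc G : ℕ) : ℚ) := by
    unfold kc
    push_cast
    have h5 : (Nat.card (ConjClasses H) : ℚ) ≤ Nat.card (ConjClasses G) / Nat.card G * H.index ^ 2 *
        Nat.card H := by
      rw [div_le_iff₀ h1] at h
      exact h
    refine h5.trans (le_of_eq ?_)
    have h6 : (H.index : ℚ) ≠ 0 := by
      have := H.index_ne_zero_of_finite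
      exact_mod_cast this
    rw [h3]
    field_simp
  exact_mod_cast h4

theorem card_le_index_mul [Finite G] (H K : Subgroup G) :
    Nat.card K ≤ H.index * Nat.card (H ⊓ K : Subgroup G) := by
  have h1 := (H.subgroupOf K).card_mul_index
  have h2 : Nat.card (H.subgroupOf K) = Nat.card (H ⊓ K : Subgroup G) := by
    rw [← Subgroup.inf_subgroupOf_right]
    exact Nat.card_congr (Subgroup.subgroupOfEquivOfLe (inf_le_right : H ⊓ K ≤ K)).toEquiv
  have h3 : (H.subgroupOf K).index ≤ H.index := by
    have := Subgroup.relIndex_le_of_le_right (H := H) (le_top : K ≤ ⊤)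
      (by rw [Subgroup.relIndex_top_right]; exact H.index_ne_zero_of_finite)
    rw [Subgroup.relIndex_top_right] at this
    exact this
  rw [← h1, h2, mul_comm]
  exact Nat.mul_le_mul_right _ h3

/-- `k(G) ≤ |G:H| k(H)` -/
theorem kc_le_index [Finite G] (H : Subgroup G) : kc G ≤ H.index * kc H := by
  classical
  have := Fintype.ofFinite G
  have := Fintype.ofFinite H
  have hG := comm_count G
  have hH := comm_count H
  have hcent : ∀ x : G, (Finset.univ.filter (fun y : G => x * y = y * x)).card ≤
      H.index * (Finset.univ.filter (fun y : G => y ∈ H ∧ x * y = y * x)).card := by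
    intro x
    have h1 := card_le_index_mul H (Subgroup.centralizer {x})
    have h2 : Nat.card (Subgroup.centralizer {x}) =
        (Finset.univ.filter (fun y : G => x * y = y * x)).card := by
      rw [Nat.card_eq_fintype_card, Fintype.card_subtype]
      congr 1
      ext y
      simp [Subgroup.mem_centralizer_iff]
    have h3 : Nat.card (H ⊓ Subgroup.centralizer {x} : Subgroup G) =
        (Finset.univ.filter (fun y : G => y ∈ H ∧ x * y = y * x)).card := by
      rw [Nat.card_eq_fintype_card, Fintype.card_subtype]
      congr 1
      ext y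
      simp [Subgroup.mem_centralizer_iff, Subgroup.mem_inf]
    rw [h2, h3] at h1
    exact h1
  have key : kc G * Nat.card G ≤ H.index * (H.index * (kc H * Nat.card H)) := by
    rw [← hG, ← hH]
    calc ∑ x : G, (Finset.univ.filter (fun y : G => x * y = y * x)).card
        ≤ ∑ x : G, H.index * (Finset.univ.filter (fun y : G => y ∈ H ∧ x * y = y * x)).card :=
          Finset.sum_le_sum fun x _ => hcent x
      _ = H.index * ∑ x : G, (Finset.univ.filter (fun y : G => y ∈ H ∧ x * y = y * x)).card := by
          rw [Finset.mul_sum]
      _ = H.index * ∑ y ∈ Finset.univ.filter (fun y : G => y ∈ H),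
            (Finset.univ.filter (fun x : G => y * x = x * y)).card := by
          congr 1
          simp only [Finset.card_eq_sum_ones]
          apply Finset.sum_comm'
          intro x y
          simp only [Finset.mem_filter, Finset.mem_univ, true_and]
          constructor
          · rintro ⟨h1, h2⟩
            exact ⟨h2.symm, h1⟩
          · rintro ⟨h1, h2⟩
            exact ⟨h2, h1.symm⟩
      _ ≤ H.index * ∑ y ∈ Finset.univ.filter (fun y : G => y ∈ H),
            H.index * (Finset.univ.filter (fun x : G => x ∈ H ∧ y * x = x * y)).card := by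
          gcongr with y _
          exact hcent y
      _ = H.index * (H.index * ∑ y : H, (Finset.univ.filter (fun x : H => y * x = x * y)).card) := by
          congr 1
          rw [← Finset.mul_sum]
          congr 1
          rw [Finset.sum_subtype (p := fun y => y ∈ H) (Finset.univ.filter (fun y : G => y ∈ H))
            (by simp)]
          refine Finset.sum_congr rfl fun y _ => ?_
          symm
          apply Finset.card_bij (fun (x : H) _ => (x : G))
          · intro x hx
            simp only [Finset.mem_filter, Finset.mem_univ, true_and] at hx ⊢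
            refine ⟨x.2, ?_⟩
            exact congrArg Subtype.val hx
          · intro x _ z _ h
            exact Subtype.ext h
          · intro x hx
            simp only [Finset.mem_filter, Finset.mem_univ, true_and] at hx
            refine ⟨⟨x, hx.1⟩, ?_, rfl⟩
            simp only [Finset.mem_filter, Finset.mem_univ, true_and]
            exact Subtype.ext hx.2
  have h5 : Nat.card G = Nat.card H * H.index := (H.card_mul_index).symm
  have h6 : 0 < Nat.card G := Nat.card_pos
  have h7 : kc G * Nat.card G ≤ (H.index * kc H) * Nat.card G := by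
    refine key.trans (le_of_eq ?_)
    rw [h5]
    ring
  exact Nat.le_of_mul_le_mul_right h7 h6

end

end Pool.Agent.ACD8
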