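import Pool.Agent.Work.MP_76dc41_al.H8.Schur

set_option autoImplicit false

open Representation LinearMap

noncomputable section

namespace Pool.Agent.ACD8

variable {G : Type} [Group G] [Fintype G] (N : Subgroup G) [N.Normal]

instance fintypeN : Fintype N := Fintype.ofFinite _

/-- restriction of a representation -/
def rs {V : Type} [AddCommGroup V] [Module ℂ V] (ρ : Representation ℂ G V) :
    Representation ℂ N V := MonoidHom.comp ρ N.subtype

omit [Fintype G] in
/-- conjugation action of `G` on the irreducible characters of `N` -/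
theorem cj_mem (g : G) (θ : IrrC N) :
    (fun n : N => θ.1 (MulAut.conjNormal g n)) ∈ IrrC N :=
  irrC_comp (MulAut.conjNormal (H := N) g).toMonoidHom (MulAut.conjNormal (H := N) g).surjective θ

/-- conjugate character -/
def cj (g : G) (θ : IrrC N) : IrrC N := ⟨fun n => θ.1 (MulAut.conjNormal g n), cj_mem N g θ⟩

/-- multiplicity of `θ` in the restriction of `χ` -/
def mu (χ : IrrC G) (θ : IrrC N) : ℕ := Classical.choose (exists_mult (rs N (md χ))) θ

theorem mu_char (χ : IrrC G) (n : N) : χ.1 n = ∑ θ, (mu N χ θ : ℂ) * θ.1 n := by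
  have := (Classical.choose_spec (exists_mult (rs N (md χ)))).1 n
  rw [← md_char χ]
  exact this

theorem mu_ip (χ : IrrC G) (θ : IrrC N) : ip (fun n : N => χ.1 n) θ.1 = mu N χ θ := by
  have := (Classical.choose_spec (exists_mult (rs N (md χ)))).2 θ
  rw [← md_char χ]
  exact this

omit [Fintype G] in
theorem char_conj' (χ : IrrC G) (g x : G) : χ.1 (g * x * g⁻¹) = χ.1 x := by
  rw [← md_char χ]
  exact char_conj _ _ _

theorem mu_cj (χ : IrrC G) (θ : IrrC N) (g : G) : mu N χ (cj N g θ) = mu N χ θ := by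
  have h1 := mu_ip N χ (cj N g θ)
  have h2 := mu_ip N χ θ
  have h3 : ip (fun n : N => χ.1 n) (cj N g θ).1 = ip (fun n : N => χ.1 n) θ.1 := by
    unfold ip
    congr 1
    conv_rhs => rw [← (MulAut.conjNormal (H := N) g).toEquiv.sum_comp]
    refine Finset.sum_congr rfl fun n _ => ?_
    show χ.1 n * θ.1 (MulAut.conjNormal g n⁻¹) =
      χ.1 (MulAut.conjNormal (H := N) g n : N) * θ.1 (MulAut.conjNormal (H := N) g n)⁻¹
    rw [map_inv, MulAut.conjNormal_apply, char_conj']
  rw [h1, h2] at h3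
  exact_mod_cast h3

theorem mu_degree (χ : IrrC G) : dg χ = ∑ θ, mu N χ θ * dg θ := by
  have h := mu_char N χ 1
  have : ((dg χ : ℕ) : ℂ) = ((∑ θ, mu N χ θ * dg θ : ℕ) : ℂ) := by
    push_cast
    rw [← dg_eq]
    have h1 : ((1 : N) : G) = 1 := rfl
    rw [h1] at h
    rw [h]
    refine Finset.sum_congr rfl fun θ _ => ?_
    rw [dg_eq]
  exact_mod_cast this

/-- `Σ_χ χ(1) m(χ,θ) = |G:N| θ(1)` -/
theorem mu_sum (θ : IrrC N) :
    (∑ χ : IrrC G, dg χ * mu N χ θ) * Nat.card N = Nat.card G * dg θ := by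
  have h1 : ((∑ χ : IrrC G, dg χ * mu N χ θ : ℕ) : ℂ) =
      ip (fun n : N => ∑ χ : IrrC G, (dg χ : ℂ) * χ.1 n) θ.1 := by
    rw [ip_sum_left]
    push_cast
    refine Finset.sum_congr rfl fun χ _ => ?_
    rw [ip_smul_left, mu_ip]
  have h2 : ip (fun n : N => ∑ χ : IrrC G, (dg χ : ℂ) * χ.1 n) θ.1 =
      (Nat.card N : ℂ)⁻¹ * (Nat.card G * dg θ) := by
    unfold ip
    congr 1
    rw [Finset.sum_eq_single 1]
    · simp only [regular_sum]
      simp [dg_eq]
    · intro n _ hn
      simp only [regular_sum]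
      rw [if_neg, zero_mul]
      intro h
      exact hn (Subtype.ext h)
    · simp
  rw [h2] at h1
  have h3 : (Nat.card N : ℂ) ≠ 0 := by
    rw [Nat.card_eq_fintype_card]; exact_mod_cast Fintype.card_ne_zero
  have h4 : (((∑ χ : IrrC G, dg χ * mu N χ θ) * Nat.card N : ℕ) : ℂ) =
      ((Nat.card G * dg θ : ℕ) : ℂ) := by
    push_cast
    push_cast at h1
    rw [h1]
    field_simp
  exact_mod_cast h4

/-- for an irreducible `V`, an `N`-piece generates everything -/
theorem clifford_conn (χ : IrrC G) (θ η : IrrC N) (h1 : mu N χ θ ≠ 0) (h2 : mu N χ η ≠ 0) :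
    ∃ g : G, η = cj N g θ := by
  obtain ⟨ι, _, χ', i, q, r1, r2, r3, r4⟩ := ri_all _ _ (rs N (md χ)) rfl
  have h := ri_char _ χ' i q r1 r3 r4
  have hc := count_ip χ' _ h
  have hmu : ∀ ψ : IrrC N, mu N χ ψ ≠ 0 → ∃ j, χ' j = ψ := by
    intro ψ hψ
    have h5 := hc ψ
    have h6 : ip (rs N (md χ)).character ψ.1 = mu N χ ψ := by
      rw [← mu_ip, ← md_char χ]
      rfl
    rw [h6] at h5
    have h7 : mu N χ ψ = (Finset.univ.filter (fun j => χ' j = ψ)).card := by exact_mod_cast h5
    rw [h7] at hψ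
    obtain ⟨j, hj⟩ := Finset.card_pos.1 (Nat.pos_of_ne_zero hψ)
    exact ⟨j, (Finset.mem_filter.1 hj).2⟩
  obtain ⟨a, rfl⟩ := hmu θ h1
  obtain ⟨b, rfl⟩ := hmu η h2
  -- the span of the translates of the image of `i a`
  have hirr := (irr_iff (md χ)).1 (md_irr χ)
  obtain ⟨-, hirr⟩ := hirr
  let S : Submodule ℂ (Fin (dg χ) → ℂ) := Submodule.span ℂ {v | ∃ g w, v = md χ g (i a w)}
  have hS : ∀ g, ∀ v ∈ S, md χ g v ∈ S := by
    intro g v hv
    induction hv using Submodule.span_induction with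
    | mem x hx =>
      obtain ⟨g', w, rfl⟩ := hx
      apply Submodule.subset_span
      exact ⟨g * g', w, by rw [map_mul]; rfl⟩
    | zero => rw [map_zero]; exact S.zero_mem
    | add x y _ _ hx hy => rw [map_add]; exact S.add_mem hx hy
    | smul c x _ hx => rw [map_smul]; exact S.smul_mem c hx
  have hpos : ∀ j, ∃ w, w ≠ (0 : Fin (dg (χ' j)) → ℂ) := by
    intro j
    have := ((irr_iff (md (χ' j))).1 (md_irr (χ' j))).1
    exact exists_ne 0
  rcases hirr S hS with h0 | h0
  · exfalso
    obtain ⟨w, hw⟩ := hpos a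
    apply hw
    have h1 : i a w ∈ S := Submodule.subset_span ⟨1, w, by rw [map_one]; rfl⟩
    rw [h0] at h1
    have h2 : i a w = 0 := h1
    have h3 := congrArg (fun f => f w) (r3 a)
    simp only [LinearMap.comp_apply, LinearMap.id_apply] at h3
    rw [← h3, h2, map_zero]
  · have : ∃ g, q b ∘ₗ md χ g ∘ₗ i a ≠ 0 := by
      by_contra hcon
      push Not at hcon
      obtain ⟨w, hw⟩ := hpos b
      apply hw
      have hz : ∀ v ∈ S, q b v = 0 := by
        intro v hv
        induction hv using Submodule.span_induction with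
        | mem x hx =>
          obtain ⟨g', w, rfl⟩ := hx
          exact congrArg (fun f => f w) (hcon g')
        | zero => rw [map_zero]
        | add x y _ _ hx hy => rw [map_add, hx, hy, add_zero]
        | smul c x _ hx => rw [map_smul, hx, smul_zero]
      have h2 := hz (i b w) (by rw [h0]; trivial)
      have h3 := congrArg (fun f => f w) (r3 b)
      simp only [LinearMap.comp_apply, LinearMap.id_apply] at h3
      rw [← h3, h2]
    obtain ⟨g, hg⟩ := this
    refine ⟨g⁻¹, ?_⟩
    apply Subtype.ext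
    -- `A = q b ∘ ρ g ∘ i a` intertwines `θ` and `η ∘ conj g`
    have hA : ∀ n : N, (q b ∘ₗ md χ g ∘ₗ i a) ∘ₗ md (χ' a) n =
        (MonoidHom.comp (md (χ' b)) (MulAut.conjNormal (H := N) g).toMonoidHom) n ∘ₗ
          (q b ∘ₗ md χ g ∘ₗ i a) := by
      intro n
      have e1 : md χ g ∘ₗ md χ (n : G) =
          md χ (MulAut.conjNormal (H := N) g n : N) ∘ₗ md χ g := by
        rw [MulAut.conjNormal_apply]
        show md χ g * md χ (n : G) = md χ (g * n * g⁻¹) * md χ g
        rw [← map_mul, ← map_mul, inv_mul_cancel_right]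
      calc (q b ∘ₗ md χ g ∘ₗ i a) ∘ₗ md (χ' a) n
          = q b ∘ₗ md χ g ∘ₗ (i a ∘ₗ md (χ' a) n) := by
            simp only [LinearMap.comp_assoc]
        _ = q b ∘ₗ (md χ g ∘ₗ md χ (n : G)) ∘ₗ i a := by
            rw [r1]
            rfl
        _ = (q b ∘ₗ md χ (MulAut.conjNormal (H := N) g n : N)) ∘ₗ md χ g ∘ₗ i a := by
            rw [e1]
            rfl
        _ = _ := by
            have := r2 b (MulAut.conjNormal (H := N) g n)
            have e2 : q b ∘ₗ md χ (MulAut.conjNormal (H := N) g n : N) =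
              md (χ' b) (MulAut.conjNormal (H := N) g n) ∘ₗ q b := this
            rw [e2]
            rfl
    have hch := schur_char (md (χ' a))
      (MonoidHom.comp (md (χ' b)) (MulAut.conjNormal (H := N) g).toMonoidHom)
      (md_irr _) (irr_comp _ (md_irr _) _ (MulAut.conjNormal (H := N) g).surjective) _ hA hg
    ext n
    have := congrFun hch (MulAut.conjNormal (H := N) g⁻¹ n)
    rw [md_char] at this
    show (χ' b).1 n = (χ' a).1 (MulAut.conjNormal g⁻¹ n)
    rw [this, ← md_char (χ' b)]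
    show _ = LinearMap.trace ℂ _ (md (χ' b) (MulAut.conjNormal (H := N) g
      (MulAut.conjNormal (H := N) g⁻¹ n)))
    have e3 : MulAut.conjNormal (H := N) g (MulAut.conjNormal (H := N) g⁻¹ n) = n := by
      rw [map_inv]
      exact MulAut.apply_inv_self _ _ _
    rw [e3]
    rfl

end Pool.Agent.ACD8
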