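import Pool.Agent.Work.MP_76dc41_al.H8.Main
import Pool.Agent.Work.MP_76dc41_al.H8.Classes

set_option autoImplicit false

open Representation LinearMap

noncomputable section

namespace Pool.Agent.ACD8

variable {G : Type} [Group G] [Fintype G] (N : Subgroup G) [N.Normal]

/-- projection formula -/
theorem proj_formula {K : Type} [Group K] [Fintype K] (θ η : IrrC K) :
    ((dg θ : ℂ) * (Nat.card K : ℂ)⁻¹) • ∑ m : K, θ.1 m • md η m⁻¹ =
      (open scoped Classical in if θ = η then (1 : ℂ) else 0) • LinearMap.id := by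
  classical
  set P := ∑ m : K, θ.1 m • md η m⁻¹ with hP
  have hcomm : ∀ g : K, P ∘ₗ md η g = md η g ∘ₗ P := by
    intro g
    have h1 : P ∘ₗ md η g = ∑ m : K, θ.1 m • md η (m⁻¹ * g) := by
      rw [hP]
      refine LinearMap.ext fun x => ?_
      simp only [LinearMap.comp_apply, LinearMap.sum_apply, LinearMap.smul_apply, map_mul,
        Module.End.mul_apply]
    have h2 : md η g ∘ₗ P = ∑ m : K, θ.1 m • md η (g * m⁻¹) := by
      rw [hP]
      refine LinearMap.ext fun x => ?_
      simp only [LinearMap.comp_apply, LinearMap.sum_apply, LinearMap.smul_apply, map_mul,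
        Module.End.mul_apply, map_sum, map_smul]
    rw [h1, h2]
    rw [← (MulAut.conj g : MulAut K).toEquiv.sum_comp (fun m => θ.1 m • md η (m⁻¹ * g))]
    refine Finset.sum_congr rfl fun m _ => ?_
    show θ.1 (g * m * g⁻¹) • md η ((g * m * g⁻¹)⁻¹ * g) = _
    rw [char_conj' θ g m]
    congr 2
    group
  obtain ⟨c, hc⟩ := schur_scalar (md η) (md η) (md_irr η) (md_irr η) LinearMap.id P
    (fun g => rfl) hcomm (by
      intro h
      have := ((irr_iff (md η)).1 (md_irr η)).1
      obtain ⟨w, hw⟩ := exists_ne (0 : Fin (dg η) → ℂ)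
      apply hw
      have := congrArg (fun f => f w) h
      simpa using this)
  have htr : LinearMap.trace ℂ _ P = ∑ m : K, θ.1 m * η.1 m⁻¹ := by
    rw [hP, map_sum]
    refine Finset.sum_congr rfl fun m _ => ?_
    rw [map_smul, smul_eq_mul, ← md_char η]
    rfl
  rw [hc] at htr
  have hK : (Nat.card K : ℂ) ≠ 0 := by
    rw [Nat.card_eq_fintype_card]; exact_mod_cast Fintype.card_ne_zero
  have hd : (dg η : ℂ) ≠ 0 := by exact_mod_cast (dg_pos η).ne'
  have h3 : c * dg η = Nat.card K * (if θ = η then 1 else 0) := by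
    have h4 := ip_irr θ η
    unfold ip at h4
    rw [← htr, map_smul, smul_eq_mul] at h4
    have h5 : LinearMap.trace ℂ (Fin (dg η) → ℂ) LinearMap.id = dg η := by
      rw [LinearMap.trace_id]
      simp
    rw [h5] at h4
    rw [← h4]
    field_simp
  rw [hc, smul_smul]
  congr 1
  split_ifs with h
  · subst h
    rw [if_pos rfl] at h3
    field_simp
    linear_combination h3
  · rw [if_neg h] at h3
    have : c = 0 := by
      rw [mul_zero, mul_eq_zero] at h3
      exact h3.resolve_right hd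
    rw [this, mul_zero]

/-- `θ`-component of a function -/
def cmp (θ : IrrC N) (f : G → ℂ) (x : G) : ℂ :=
  (dg θ : ℂ) * (Nat.card N : ℂ)⁻¹ * ∑ m : N, f (x * m⁻¹) * θ.1 m

theorem cmp_sum (f : G → ℂ) (x : G) : ∑ θ : IrrC N, cmp N θ f x = f x := by
  classical
  have hN : (Nat.card N : ℂ) ≠ 0 := by
    rw [Nat.card_eq_fintype_card]; exact_mod_cast Fintype.card_ne_zero
  have h1 : ∑ θ : IrrC N, cmp N θ f x =
      (Nat.card N : ℂ)⁻¹ * ∑ m : N, f (x * m⁻¹) * ∑ θ : IrrC N, (dg θ : ℂ) * θ.1 m := by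
    unfold cmp
    simp only [Finset.mul_sum]
    rw [Finset.sum_comm]
    refine Finset.sum_congr rfl fun m _ => Finset.sum_congr rfl fun θ _ => ?_
    ring
  rw [h1]
  simp only [regular_sum]
  rw [Finset.sum_eq_single 1]
  · simp
    field_simp
  · intro m _ hm
    rw [if_neg hm, mul_zero]
  · simp

theorem cmp_conj (θ : IrrC N) (f : G → ℂ) (hf : ∀ g x, f (g * x * g⁻¹) = f x) (y x : G) :
    cmp N θ f (y * x * y⁻¹) = cmp N (cj N y θ) f x := by
  unfold cmp
  rw [dg_cj]
  congr 1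
  rw [← (MulAut.conjNormal (H := N) y).toEquiv.sum_comp]
  refine Finset.sum_congr rfl fun m _ => ?_
  show f (y * x * y⁻¹ * ((MulAut.conjNormal y m : N) : G)⁻¹) * θ.1 (MulAut.conjNormal y m) =
    f (x * (m : G)⁻¹) * θ.1 (MulAut.conjNormal y m)
  congr 1
  rw [MulAut.conjNormal_apply, ← hf y (x * (m : G)⁻¹)]
  congr 1
  group

/-- decomposition of values on a coset through twisted intertwiners -/
theorem coset_tw (g : G) (χ : IrrC G) :
    ∃ A : ∀ θ : IrrC N, (Fin (dg θ) → ℂ) →ₗ[ℂ] (Fin (dg θ) → ℂ),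
      (∀ θ (n : N), A θ ∘ₗ md θ n = md θ (MulAut.conjNormal (H := N) g n) ∘ₗ A θ) ∧
      (∀ θ, mu N χ θ = 0 → A θ = 0) ∧
      ∀ θ (n : N), cmp N θ χ.1 (g * n) = LinearMap.trace ℂ _ (A θ ∘ₗ md θ n) := by
  classical
  obtain ⟨ι, _, χ', i, q, r1, r2, r3, r4⟩ := ri_all _ _ (rs N (md χ)) rfl
  have h := ri_char _ χ' i q r1 r3 r4
  have hc := count_ip χ' _ h
  -- transport of the pieces
  let P : ∀ (θ : IrrC N) (j : ι), (Fin (dg θ) → ℂ) →ₗ[ℂ] (Fin (dg θ) → ℂ) := fun θ j =>
    if e : χ' j = θ then e ▸ (q j ∘ₗ md χ g ∘ₗ i j) else 0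
  have hP1 : ∀ j, P (χ' j) j = q j ∘ₗ md χ g ∘ₗ i j := by
    intro j
    simp [P]
  have hP2 : ∀ θ j, χ' j ≠ θ → P θ j = 0 := by
    intro θ j hj
    simp [P, hj]
  have hA : ∀ j (n : N), (q j ∘ₗ md χ g ∘ₗ i j) ∘ₗ md (χ' j) n =
      md (χ' j) (MulAut.conjNormal (H := N) g n) ∘ₗ (q j ∘ₗ md χ g ∘ₗ i j) := by
    intro j n
    have e1 : md χ g ∘ₗ md χ (n : G) =
        md χ (MulAut.conjNormal (H := N) g n : N) ∘ₗ md χ g := by
      rw [MulAut.conjNormal_apply]
      show md χ g * md χ (n : G) = md χ (g * n * g⁻¹) * md χ g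
      rw [← map_mul, ← map_mul, inv_mul_cancel_right]
    calc (q j ∘ₗ md χ g ∘ₗ i j) ∘ₗ md (χ' j) n
        = q j ∘ₗ md χ g ∘ₗ (i j ∘ₗ md (χ' j) n) := by
          simp only [LinearMap.comp_assoc]
      _ = q j ∘ₗ (md χ g ∘ₗ md χ (n : G)) ∘ₗ i j := by
          rw [r1]
          rfl
      _ = (q j ∘ₗ md χ (MulAut.conjNormal (H := N) g n : N)) ∘ₗ md χ g ∘ₗ i j := by
          rw [e1]
          rfl
      _ = _ := by
          have e2 : q j ∘ₗ md χ (MulAut.conjNormal (H := N) g n : N) =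
            md (χ' j) (MulAut.conjNormal (H := N) g n) ∘ₗ q j :=
              r2 j (MulAut.conjNormal (H := N) g n)
          rw [e2]
          rfl
  have hval : ∀ n : N, χ.1 (g * n) = ∑ θ, LinearMap.trace ℂ _ ((∑ j, P θ j) ∘ₗ md θ n) := by
    intro n
    have e0 : χ.1 (g * n) = LinearMap.trace ℂ _ (md χ (g * n)) := by
      rw [← md_char χ]
      rfl
    have e1 : md χ (g * n) = ∑ j, (md χ g ∘ₗ i j ∘ₗ md (χ' j) n) ∘ₗ q j := by
      calc md χ (g * n) = (md χ g ∘ₗ md χ (n : G)) ∘ₗ (∑ j, i j ∘ₗ q j) := by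
            rw [r4, map_mul]; rfl
        _ = _ := by
            refine LinearMap.ext fun x => ?_
            simp only [LinearMap.comp_apply, LinearMap.sum_apply, map_sum]
            refine Finset.sum_congr rfl fun j _ => ?_
            have := congrArg (fun f => f (q j x)) (r1 j n)
            simp only [LinearMap.comp_apply] at this
            rw [this]
            rfl
    have e2 : ∀ θ, LinearMap.trace ℂ _ ((∑ j, P θ j) ∘ₗ md θ n) =
        ∑ j, LinearMap.trace ℂ _ (P θ j ∘ₗ md θ n) := by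
      intro θ
      have : (∑ j, P θ j) ∘ₗ md θ n = ∑ j, P θ j ∘ₗ md θ n := by
        refine LinearMap.ext fun x => ?_
        simp only [LinearMap.comp_apply, LinearMap.sum_apply]
      rw [this, map_sum]
    simp only [e2]
    rw [Finset.sum_comm, e0, e1, map_sum]
    refine Finset.sum_congr rfl fun j _ => ?_
    rw [Finset.sum_eq_single (χ' j)]
    · rw [hP1, LinearMap.trace_comp_comm']
      congr 1
    · intro θ _ hθ
      rw [hP2 θ j hθ.symm]
      simp
    · simp
  refine ⟨fun θ => ∑ j, P θ j, ?_, ?_, ?_⟩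
  · intro θ n
    refine LinearMap.ext fun x => ?_
    simp only [LinearMap.comp_apply, LinearMap.sum_apply, map_sum]
    refine Finset.sum_congr rfl fun j _ => ?_
    by_cases hj : χ' j = θ
    · subst hj
      rw [hP1]
      exact congrArg (fun f => f x) (hA j n)
    · rw [hP2 θ j hj]
      simp
  · intro θ hθ
    refine Finset.sum_eq_zero fun j _ => ?_
    apply hP2
    intro hj
    have h5 := hc θ
    have h6 : ip (rs N (md χ)).character θ.1 = mu N χ θ := by
      rw [← mu_ip, ← md_char χ]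
      rfl
    rw [h6, hθ] at h5
    have h7 : (Finset.univ.filter (fun j => χ' j = θ)).card = 0 := by exact_mod_cast h5.symm
    rw [Finset.card_eq_zero, Finset.filter_eq_empty_iff] at h7
    exact h7 (Finset.mem_univ j) hj
  · intro θ n
    set A : ∀ θ : IrrC N, (Fin (dg θ) → ℂ) →ₗ[ℂ] (Fin (dg θ) → ℂ) := fun θ => ∑ j, P θ j with hAdef
    have h1 : cmp N θ χ.1 (g * n) = ∑ η, LinearMap.trace ℂ _ (A η ∘ₗ md η n ∘ₗ
        (((dg θ : ℂ) * (Nat.card N : ℂ)⁻¹) • ∑ m : N, θ.1 m • md η m⁻¹)) := by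
      unfold cmp
      have e3 : ∀ m : N, χ.1 (g * n * m⁻¹) = ∑ η, LinearMap.trace ℂ _ (A η ∘ₗ md η (n * m⁻¹)) := by
        intro m
        rw [mul_assoc]
        exact hval (n * m⁻¹)
      simp only [e3, Finset.sum_mul]
      rw [Finset.sum_comm, Finset.mul_sum]
      refine Finset.sum_congr rfl fun η _ => ?_
      rw [LinearMap.comp_smul, LinearMap.comp_smul, map_smul, smul_eq_mul]
      congr 1
      have e4 : A η ∘ₗ md η n ∘ₗ ∑ m : N, θ.1 m • md η m⁻¹ =
          ∑ m : N, θ.1 m • (A η ∘ₗ md η (n * m⁻¹)) := by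
        refine LinearMap.ext fun x => ?_
        simp only [LinearMap.comp_apply, LinearMap.sum_apply, map_sum, LinearMap.smul_apply,
          map_smul, map_mul, Module.End.mul_apply]
      rw [e4, map_sum]
      refine Finset.sum_congr rfl fun m _ => ?_
      rw [map_smul, smul_eq_mul, mul_comm]
    rw [h1]
    simp only [proj_formula]
    rw [Finset.sum_eq_single θ]
    · simp
    · intro η _ hη
      rw [if_neg hη.symm]
      simp
    · simp

end Pool.Agent.ACD8
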