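import Pool.Agent.Work.MP_76dc41_al.H8.Clifford

set_option autoImplicit false

open Representation LinearMap

noncomputable section

namespace Pool.Agent.ACD8

variable {G : Type} [Group G] [Fintype G] (N : Subgroup G) [N.Normal]

omit [Fintype G] in
theorem exists_tw [Finite G] (g : G) (θ : IrrC N) :
    ∃ B : (Fin (dg θ) → ℂ) →ₗ[ℂ] (Fin (dg θ) → ℂ), ∀ A : (Fin (dg θ) → ℂ) →ₗ[ℂ] (Fin (dg θ) → ℂ),
    (∀ n : N, A ∘ₗ md θ n = md θ (MulAut.conjNormal (H := N) g n) ∘ₗ A) → ∃ c : ℂ, A = c • B := by
  by_cases h : ∃ B : (Fin (dg θ) → ℂ) →ₗ[ℂ] (Fin (dg θ) → ℂ), B ≠ 0 ∧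
    ∀ n : N, B ∘ₗ md θ n = md θ (MulAut.conjNormal (H := N) g n) ∘ₗ B
  · obtain ⟨B, hB, hB'⟩ := h
    refine ⟨B, fun A hA => ?_⟩
    exact schur_scalar (md θ) (MonoidHom.comp (md θ) (MulAut.conjNormal (H := N) g).toMonoidHom)
      (md_irr _) (irr_comp _ (md_irr _) _ (MulAut.conjNormal (H := N) g).surjective) B A hB' hA hB
  · refine ⟨0, fun A hA => ⟨0, ?_⟩⟩
    push Not at h
    by_contra hA0
    obtain ⟨n, hn⟩ := h A (by simpa using hA0)
    exact hn (hA n)

/-- values of irreducible characters on the coset `g N` -/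
theorem coset_values (g : G) : ∃ b : IrrC N → (N → ℂ), ∀ χ : IrrC G, ∃ C : IrrC N → ℂ,
    (∀ θ, mu N χ θ = 0 → C θ = 0) ∧ ∀ n : N, χ.1 (g * n) = ∑ θ, C θ * b θ n := by
  classical
  choose B hB using exists_tw N g
  refine ⟨fun θ n => LinearMap.trace ℂ _ (B θ ∘ₗ md θ n), ?_⟩
  intro χ
  obtain ⟨ι, _, χ', i, q, r1, r2, r3, r4⟩ := ri_all _ _ (rs N (md χ)) rfl
  have h := ri_char _ χ' i q r1 r3 r4
  have hc := count_ip χ' _ h
  have hA : ∀ j, ∃ c : ℂ, q j ∘ₗ md χ g ∘ₗ i j = c • B (χ' j) := by
    intro j
    apply hB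
    intro n
    have e1 : md χ g ∘ₗ md χ (n : G) =
        md χ (MulAut.conjNormal (H := N) g n : N) ∘ₗ md χ g := by
      rw [MulAut.conjNormal_apply]
      show md χ g * md χ (n : G) = md χ (g * n * g⁻¹) * md χ g
      rw [← map_mul, ← map_mul, inv_mul_cancel_right]
    calc (q j ∘ₗ md χ g ∘ₗ i j) ∘ₗ md (χ' j) n
        = q j ∘ₗ md χ g ∘ₗ (i j ∘ₗ md (χ' j) n) := by
          simp only [LinearMap.comp_assoc]
      _ = q j ∘ₗ (md χ g ∘ₗ md χ (n : G)) ∘ₗ i j := by
          rw [r1]
          rfl
      _ = (q j ∘ₗ md χ (MulAut.conjNormal (H := N) g n : N)) ∘ₗ md χ g ∘ₗ i j := by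
          rw [e1]
          rfl
      _ = _ := by
          have e2 : q j ∘ₗ md χ (MulAut.conjNormal (H := N) g n : N) =
            md (χ' j) (MulAut.conjNormal (H := N) g n) ∘ₗ q j :=
              r2 j (MulAut.conjNormal (H := N) g n)
          rw [e2]
          rfl
  choose c hc' using hA
  refine ⟨fun θ => ∑ j ∈ Finset.univ.filter (fun j => χ' j = θ), c j, ?_, ?_⟩
  · intro θ hθ
    have h5 := hc θ
    have h6 : ip (rs N (md χ)).character θ.1 = mu N χ θ := by
      rw [← mu_ip, ← md_char χ]
      rfl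
    rw [h6, hθ] at h5
    have h7 : (Finset.univ.filter (fun j => χ' j = θ)).card = 0 := by exact_mod_cast h5.symm
    show ∑ j ∈ Finset.univ.filter (fun j => χ' j = θ), c j = 0
    rw [Finset.card_eq_zero.1 h7, Finset.sum_empty]
  · intro n
    have e0 : χ.1 (g * n) = LinearMap.trace ℂ _ (md χ (g * n)) := by
      rw [← md_char χ]
      rfl
    have e1 : md χ (g * n) = ∑ j, (md χ g ∘ₗ i j ∘ₗ md (χ' j) n) ∘ₗ q j := by
      calc md χ (g * n) = (md χ g ∘ₗ md χ (n : G)) ∘ₗ (∑ j, i j ∘ₗ q j) := by
            rw [r4, map_mul]; rfl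
        _ = _ := by
            refine LinearMap.ext fun x => ?_
            simp only [LinearMap.comp_apply, LinearMap.sum_apply, map_sum]
            refine Finset.sum_congr rfl fun j _ => ?_
            have := congrArg (fun f => f (q j x)) (r1 j n)
            simp only [LinearMap.comp_apply] at this
            rw [this]
            rfl
    rw [e0, e1, map_sum, ← Finset.sum_fiberwise Finset.univ χ']
    refine Finset.sum_congr rfl fun θ _ => ?_
    rw [Finset.sum_mul]
    refine Finset.sum_congr rfl fun j hj => ?_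
    have hj' := (Finset.mem_filter.1 hj).2
    subst hj'
    rw [LinearMap.trace_comp_comm']
    have e3 : q j ∘ₗ (md χ g ∘ₗ i j ∘ₗ md (χ' j) n) =
        c j • (B (χ' j) ∘ₗ md (χ' j) n) := by
      rw [← LinearMap.smul_comp, ← hc' j]
      simp only [LinearMap.comp_assoc]
    rw [e3, map_smul, smul_eq_mul]

open scoped Classical in
/-- the irreducible characters of `G` whose restriction to `N` contains exactly the
characters of the finite set `O` are at most `|O| * k(G/N)` many -/
theorem card_fiber_le (O : Finset (IrrC N)) :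
    (Finset.univ.filter (fun χ : IrrC G => Finset.univ.filter (fun θ => mu N χ θ ≠ 0) = O)).card ≤
      O.card * Nat.card (ConjClasses (G ⧸ N)) := by
  set F := Finset.univ.filter (fun χ : IrrC G =>
    Finset.univ.filter (fun θ => mu N χ θ ≠ 0) = O) with hF
  -- representatives
  have hrep : ∀ κ : ConjClasses (G ⧸ N), ∃ g : G, ConjClasses.mk (QuotientGroup.mk g : G ⧸ N) = κ := by
    intro κ
    obtain ⟨x, rfl⟩ := ConjClasses.mk_surjective κ
    obtain ⟨g, rfl⟩ := QuotientGroup.mk_surjective x
    exact ⟨g, rfl⟩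
  choose r hr using hrep
  choose b C hC hval using fun g : G => coset_values N g
  let L : (F → ℂ) →ₗ[ℂ] (O × ConjClasses (G ⧸ N) → ℂ) :=
    { toFun := fun a p => ∑ χ : F, a χ * C (r p.2) χ.1 p.1
      map_add' := by
        intro a a'
        ext p
        simp [add_mul, Finset.sum_add_distrib]
      map_smul' := by
        intro c a
        ext p
        simp [Finset.mul_sum, mul_assoc] }
  have hinj : Function.Injective L := by
    rw [injective_iff_map_eq_zero]
    intro a ha
    have hzero : ∀ x : G, ∑ χ : F, a χ * χ.1.1 x = 0 := by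
      intro x
      set κ := ConjClasses.mk (QuotientGroup.mk x : G ⧸ N) with hκ
      have h1 := hr κ
      rw [hκ, ConjClasses.mk_eq_mk_iff_isConj, isConj_iff] at h1
      obtain ⟨c, hc⟩ := h1
      obtain ⟨y, rfl⟩ := QuotientGroup.mk_surjective c
      have h2 : (QuotientGroup.mk (y * r κ * y⁻¹) : G ⧸ N) = QuotientGroup.mk x := hc
      have h3 : (QuotientGroup.mk (r κ) : G ⧸ N) = QuotientGroup.mk (y⁻¹ * x * y) := by
        have : (QuotientGroup.mk (y⁻¹ * x * y) : G ⧸ N) =
          (QuotientGroup.mk y)⁻¹ * QuotientGroup.mk x * QuotientGroup.mk y := rfl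
        rw [this, ← h2]
        show _ = (QuotientGroup.mk y : G ⧸ N)⁻¹ * (QuotientGroup.mk y * QuotientGroup.mk (r κ) *
          (QuotientGroup.mk y)⁻¹) * QuotientGroup.mk y
        group
      rw [QuotientGroup.eq] at h3
      set n : N := ⟨_, h3⟩ with hn
      have h4 : x = y * (r κ * n) * y⁻¹ := by
        rw [hn]
        group
      calc ∑ χ : F, a χ * χ.1.1 x = ∑ χ : F, a χ * ∑ θ, C (r κ) χ.1 θ * b (r κ) θ n := by
            refine Finset.sum_congr rfl fun χ _ => ?_
            rw [h4, char_conj', hval]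
        _ = ∑ θ, (∑ χ : F, a χ * C (r κ) χ.1 θ) * b (r κ) θ n := by
            simp only [Finset.mul_sum, Finset.sum_mul]
            rw [Finset.sum_comm]
            refine Finset.sum_congr rfl fun θ _ => Finset.sum_congr rfl fun χ _ => ?_
            ring
        _ = 0 := by
            refine Finset.sum_eq_zero fun θ _ => ?_
            by_cases hθ : θ ∈ O
            · have := congrFun ha (⟨θ, hθ⟩, κ)
              have h5 : ∑ χ : F, a χ * C (r κ) χ.1 θ = 0 := this
              rw [h5, zero_mul]
            · have h5 : ∑ χ : F, a χ * C (r κ) χ.1 θ = 0 := by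
                refine Finset.sum_eq_zero fun χ _ => ?_
                have h6 := (Finset.mem_filter.1 χ.2).2
                rw [hC, mul_zero]
                by_contra h7
                apply hθ
                rw [← h6]
                simp [h7]
              rw [h5, zero_mul]
    have hli := (Fintype.linearIndependent_iff.1
      (LinearIndependent.comp linIndep (fun χ : F => χ.1) Subtype.val_injective)) a (by
        ext x
        have := hzero x
        simpa using this)
    ext χ
    exact hli χ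
  have := LinearMap.finrank_le_finrank_of_injective hinj
  have h8 : Module.finrank ℂ (F → ℂ) = F.card := by simp
  have : Finite (ConjClasses (G ⧸ N)) := inferInstance
  have := Fintype.ofFinite (ConjClasses (G ⧸ N))
  have h9 : Module.finrank ℂ (O × ConjClasses (G ⧸ N) → ℂ) =
      O.card * Nat.card (ConjClasses (G ⧸ N)) := by
    rw [Module.finrank_fintype_fun_eq_card, Fintype.card_prod, Nat.card_eq_fintype_card]
    simp
  omega

end Pool.Agent.ACD8
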