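import Mathlib

/-!
# Definitions used in the statement
-/

set_option autoImplicit false

namespace Pool.Agent.RadAlt

/-- the irreducible complex characters of `G` -/
def Irr (G : Type) [Group G] : Set (G → ℂ) :=
  {χ | ∃ (n : ℕ) (ρ : Representation ℂ G (Fin n → ℂ)), ρ.IsIrreducible ∧ ρ.character = χ}

/-- the average character degree (the degree of `χ` is the number `χ 1`) -/
noncomputable def acd (G : Type) [Group G] : ℝ :=
  (∑ᶠ χ ∈ Irr G, (χ 1).re) / Nat.card (Irr G)

/-- the number of conjugacy classes -/
noncomputable def kcl (G : Type) [Group G] : ℕ := Nat.card (ConjClasses G)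

/-- `R` is the solvable radical of `G` -/
def IsSolRad {G : Type} [Group G] (R : Subgroup G) : Prop :=
  R.Normal ∧ Group.IsSolvable R ∧ ∀ N : Subgroup G, N.Normal → Group.IsSolvable N → N ≤ R

/-- `H` has no nontrivial solvable normal subgroup -/
def TrivRad (H : Type) [Group H] : Prop :=
  ∀ N : Subgroup H, N.Normal → Group.IsSolvable N → N = ⊥

/-- every simple subnormal subgroup of `H` (that is, every simple factor of the socle, if
`TrivRad H`) is an alternating group of degree at least `n₀` -/
def AltSocle (n₀ : ℕ) (H : Type) [Group H] : Prop :=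
  ∀ S : Subgroup H, S.IsSubnormal → IsSimpleGroup S →
    ∃ n, n₀ ≤ n ∧ Nonempty (S ≃* alternatingGroup (Fin n))

/-- `S` is an alternating group of degree at least `a`, or `PSL_n(F)` with `n ≥ b` and a finite
field `F` -/
def AltOrLin (a b : ℕ) (S : Type) [Group S] : Prop :=
  (∃ n, a ≤ n ∧ Nonempty (S ≃* alternatingGroup (Fin n))) ∨
  (∃ (n : ℕ) (F : Type) (_ : Field F) (_ : Finite F), b ≤ n ∧
    Nonempty (S ≃* Matrix.ProjectiveSpecialLinearGroup (Fin n) F))

/-- every simple subnormal subgroup of `H` is an alternating group of degree at least `a` or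
`PSL_n(q)` with `n ≥ b` -/
def AltLinSocle (a b : ℕ) (H : Type) [Group H] : Prop :=
  ∀ S : Subgroup H, S.IsSubnormal → IsSimpleGroup S → AltOrLin a b S

end Pool.Agent.RadAlt
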