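import Pool.Agent.Work.MP_76dc41_al.H8.Induct

set_option autoImplicit false

open MulAction
open scoped Pointwise

noncomputable section

namespace Pool.Agent.ACD8

/-- bound for the class numbers of all subgroups -/
def Pr (s t : ℕ) (A : Type) [Group A] (a b : ℕ) : Prop :=
  ∀ Z : Subgroup A, (a * kc Z) ^ s ≤ b * Z.index ^ t

variable {s t : ℕ}

theorem pr_congr {A B : Type} [Group A] [Group B] (e : A ≃* B) {a b : ℕ} (h : Pr s t A a b) :
    Pr s t B a b := by
  intro Z
  have h1 := h (Z.comap e.toMonoidHom)
  have e1 : (Z.comap e.toMonoidHom) ≃* Z := by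
    have e2 : (Z.comap e.toMonoidHom) ≃* (Z.comap e.toMonoidHom).map e.toMonoidHom :=
      (Z.comap e.toMonoidHom).equivMapOfInjective e.toMonoidHom e.injective
    have e3 : (Z.comap e.toMonoidHom).map e.toMonoidHom = Z :=
      Subgroup.map_comap_eq_self_of_surjective e.surjective Z
    rw [e3] at e2
    exact e2
  rw [kc_congr e1, Subgroup.index_comap_of_surjective Z e.surjective] at h1
  exact h1

theorem pr_triv {A : Type} [Group A] [Subsingleton A] : Pr s t A 1 1 := by
  intro Z
  have : Subsingleton Z := inferInstance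
  rw [kc_subsingleton, one_mul, one_pow, one_mul]
  have : Z.index ≠ 0 := Z.index_ne_zero_of_finite
  have : 1 ≤ Z.index := Nat.pos_of_ne_zero this
  exact Nat.one_le_pow _ _ this

/-- extensions -/
theorem pr_ext {A Q : Type} [Group A] [Group Q] [Finite A] (f : A →* Q) {a b a' b' : ℕ}
    (hf : Function.Surjective f) (h1 : Pr s t f.ker a b) (h2 : Pr s t Q a' b') : Pr s t A (a * a') (b * b') := by
  intro Z
  have := Finite.of_surjective f hf
  let g : Z →* Q := f.comp Z.subtype
  have h3 := kc_hom g
  -- the kernel of `g`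
  have e1 : g.ker ≃* (Z.subgroupOf f.ker) := by
    refine
      { toFun := fun z => ⟨⟨z.1.1, z.2⟩, z.1.2⟩
        invFun := fun z => ⟨⟨z.1.1, z.2⟩, z.1.2⟩
        left_inv := fun z => rfl
        right_inv := fun z => rfl
        map_mul' := fun x y => rfl }
  have h4 := h1 (Z.subgroupOf f.ker)
  have h5 := h2 g.range
  rw [← kc_congr e1] at h4
  -- indices
  have h6 : Z.index = (Z.subgroupOf f.ker).index * g.range.index := by
    have hA : Nat.card A = Nat.card f.ker * Nat.card Q := by
      have e2 : Nat.card f.range = Nat.card Q := by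
        rw [f.range_eq_top_of_surjective hf]
        exact Subgroup.card_top
      rw [← e2, ← Nat.card_congr (QuotientGroup.quotientKerEquivRange f).toEquiv, mul_comm]
      exact Subgroup.card_eq_card_quotient_mul_card_subgroup f.ker
    have hZ : Nat.card Z = Nat.card g.ker * Nat.card g.range := by
      rw [← Nat.card_congr (QuotientGroup.quotientKerEquivRange g).toEquiv, mul_comm]
      exact Subgroup.card_eq_card_quotient_mul_card_subgroup g.ker
    have k1 := Z.card_mul_index
    have k2 := (Z.subgroupOf f.ker).card_mul_index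
    have k3 := g.range.card_mul_index
    rw [← Nat.card_congr e1.toEquiv] at k2
    have hpos1 : 0 < Nat.card g.ker := Nat.card_pos
    have hpos2 : 0 < Nat.card g.range := Nat.card_pos
    rw [hA, ← k2, ← k3, hZ] at k1
    have k4 : (Nat.card g.ker * Nat.card g.range) * Z.index =
        (Nat.card g.ker * Nat.card g.range) * ((Z.subgroupOf f.ker).index * g.range.index) := by
      rw [k1]
      ring
    exact Nat.eq_of_mul_eq_mul_left (by positivity) k4
  rw [h6]
  calc (a * a' * kc Z) ^ s ≤ (a * a' * (kc g.ker * kc g.range)) ^ s := by gcongr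
    _ = (a * kc g.ker) ^ s * (a' * kc g.range) ^ s := by rw [← mul_pow]; ring
    _ ≤ (b * (Z.subgroupOf f.ker).index ^ t) * (b' * g.range.index ^ t) := by gcongr
    _ = _ := by rw [mul_pow]; ring

/-- passing to a larger group of given index -/
theorem pr_index {A : Type} [Group A] [Finite A] (L : Subgroup A) {a b : ℕ} (h : Pr s t L a b) :
    Pr s t A a (b * L.index ^ s) := by
  intro Z
  have h1 := h (Z.subgroupOf L)
  have h2 := kc_le_index (L.subgroupOf Z)
  have e1 : (L.subgroupOf Z) ≃* (Z.subgroupOf L) := by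
    refine
      { toFun := fun z => ⟨⟨z.1.1, z.2⟩, z.1.2⟩
        invFun := fun z => ⟨⟨z.1.1, z.2⟩, z.1.2⟩
        left_inv := fun z => rfl
        right_inv := fun z => rfl
        map_mul' := fun x y => rfl }
  rw [kc_congr e1] at h2
  have hidx : ∀ (U V : Subgroup A), (U.subgroupOf V).index ≤ U.index := by
    intro U V
    have := Subgroup.relIndex_le_of_le_right (H := U) (le_top : V ≤ ⊤)
      (by rw [Subgroup.relIndex_top_right]; exact U.index_ne_zero_of_finite)
    rw [Subgroup.relIndex_top_right] at this
    exact this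
  have h3 := hidx L Z
  have h4 := hidx Z L
  calc (a * kc Z) ^ s ≤ (a * ((L.subgroupOf Z).index * kc (Z.subgroupOf L))) ^ s := by gcongr
    _ = (L.subgroupOf Z).index ^ s * (a * kc (Z.subgroupOf L)) ^ s := by rw [← mul_pow]; ring
    _ ≤ L.index ^ s * (b * (Z.subgroupOf L).index ^ t) := by gcongr
    _ ≤ L.index ^ s * (b * Z.index ^ t) := by gcongr
    _ = _ := by ring

/-- permutation quotients -/
theorem pr_perm {A α : Type} [Group A] [Finite A] [Finite α] (f : A →* Equiv.Perm α) {a b : ℕ}
    (h : Pr s t f.ker a b) : Pr s t A a (b * (4 ^ Nat.card α) ^ s) := by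
  intro Z
  let g : Z →* Equiv.Perm α := f.comp Z.subtype
  have h3 := kc_hom g
  have e1 : g.ker ≃* (Z.subgroupOf f.ker) := by
    refine
      { toFun := fun z => ⟨⟨z.1.1, z.2⟩, z.1.2⟩
        invFun := fun z => ⟨⟨z.1.1, z.2⟩, z.1.2⟩
        left_inv := fun z => rfl
        right_inv := fun z => rfl
        map_mul' := fun x y => rfl }
  have h4 := h (Z.subgroupOf f.ker)
  rw [← kc_congr e1] at h4
  have h5 : kc g.range ≤ 4 ^ Nat.card α :=
    (kr_all _ α rfl _).trans (Nat.pow_le_pow_right (by norm_num) (by omega))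
  have h6 : (Z.subgroupOf f.ker).index ≤ Z.index := by
    have := Subgroup.relIndex_le_of_le_right (H := Z) (le_top : f.ker ≤ ⊤)
      (by rw [Subgroup.relIndex_top_right]; exact Z.index_ne_zero_of_finite)
    rw [Subgroup.relIndex_top_right] at this
    exact this
  calc (a * kc Z) ^ s ≤ (a * (kc g.ker * kc g.range)) ^ s := by gcongr
    _ = (a * kc g.ker) ^ s * kc g.range ^ s := by rw [← mul_pow]; ring
    _ ≤ (b * (Z.subgroupOf f.ker).index ^ t) * (4 ^ Nat.card α) ^ s := by gcongr
    _ ≤ (b * Z.index ^ t) * (4 ^ Nat.card α) ^ s := by gcongr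
    _ = _ := by ring

theorem pr_prod {A B : Type} [Group A] [Group B] [Finite A] [Finite B] {a b a' b' : ℕ}
    (h1 : Pr s t A a b) (h2 : Pr s t B a' b') : Pr s t (A × B) (a * a') (b * b') := by
  have e : A ≃* (MonoidHom.snd A B).ker := by
    refine
      { toFun := fun x => ⟨(x, 1), rfl⟩
        invFun := fun x => x.1.1
        left_inv := fun x => rfl
        right_inv := fun x => ?_
        map_mul' := fun x y => ?_ }
    · obtain ⟨⟨u, v⟩, hv⟩ := x
      have : v = 1 := hv
      subst this
      rfl
    · apply Subtype.ext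
      show (x * y, (1 : B)) = (x * y, 1 * 1)
      rw [one_mul]
  exact pr_ext (MonoidHom.snd A B) Prod.snd_surjective (pr_congr e h1) h2

theorem pr_pi (n : ℕ) : ∀ (S : Fin n → Type) [∀ i, Group (S i)] [∀ i, Finite (S i)] (a b : ℕ),
    (∀ i, Pr s t (S i) a b) → Pr s t (∀ i, S i) (a ^ n) (b ^ n) := by
  induction n with
  | zero =>
    intro S _ _ a b h
    rw [pow_zero, pow_zero]
    exact pr_triv
  | succ n ih =>
    intro S _ _ a b h
    have h1 := ih (fun i => S i.succ) a b (fun i => h i.succ)
    have h2 := pr_prod (h 0) h1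
    have e : (S 0 × ∀ i : Fin n, S i.succ) ≃* (∀ i, S i) :=
      { toFun := fun p => Fin.cons p.1 p.2
        invFun := fun f => (f 0, fun i => f i.succ)
        left_inv := fun p => by simp
        right_inv := fun f => by
          ext i
          refine Fin.cases ?_ (fun j => ?_) i
          · simp
          · simp
        map_mul' := fun p q => by
          ext i
          refine Fin.cases ?_ (fun j => ?_) i
          · simp
          · simp }
    have h3 := pr_congr e h2
    rw [pow_succ', pow_succ']
    exact h3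

theorem pr_pi' {ι : Type} [Finite ι] (S : ι → Type) [∀ i, Group (S i)] [∀ i, Finite (S i)]
    (a b : ℕ) (h : ∀ i, Pr s t (S i) a b) : Pr s t (∀ i, S i) (a ^ Nat.card ι) (b ^ Nat.card ι) := by
  let e := Finite.equivFin ι
  have h1 := pr_pi (Nat.card ι) (fun j => S (e.symm j)) a b (fun j => h _)
  have e2 : (∀ i, S i) ≃* (∀ j, S (e.symm j)) :=
    { Equiv.piCongrLeft' S e with map_mul' := fun _ _ => rfl }
  exact pr_congr e2.symm h1

section

variable {H : Type} [Group H] [Finite H]

/-- the minimal normal subgroup is the direct product of its simple factors -/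
theorem pi_equiv (hH : TrivRad H) (M T : Subgroup H) [M.Normal] (hT : Min M T)
    (hM : ∀ N : Subgroup H, N.Normal → N ≤ M → N ≠ ⊥ → N = M) :
    Nonempty ((∀ i : orbit (ConjAct H) T, (i : Subgroup H)) ≃* M) := by
  classical
  have := Fintype.ofFinite (orbit (ConjAct H) T)
  let S : orbit (ConjAct H) T → Subgroup H := fun i => i
  have hmin : ∀ i, Min M (S i) := fun i => min_orbit M T hT i
  have hcomm : Pairwise fun i j : orbit (ConjAct H) T => ∀ x y : H, x ∈ S i → y ∈ S j →
      Commute x y := by
    intro i j hij x y hx hy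
    exact min_comm M (S i) (S j) (hmin i) (hmin j) (fun e => hij (Subtype.ext e)) x hx y hy
  have hind : iSupIndep S := by
    intro i
    apply disj_of_central _ _ (min_simple M (S i) (hmin i) hM) (min_not_solv hH M (S i) (hmin i))
    intro s hs n hn
    have hle : (⨆ (j) (_ : j ≠ i), S j) ≤ Subgroup.centralizer (S i : Set H) := by
      refine iSup_le fun j => iSup_le fun hj => ?_
      intro y hy
      rw [Subgroup.mem_centralizer_iff]
      intro x hx
      exact hcomm hj.symm x y hx hy
    have := hle hn
    rw [Subgroup.mem_centralizer_iff] at this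
    exact this s hs
  have hinj := Subgroup.injective_noncommPiCoprod_of_iSupIndep (hcomm := hcomm) hind
  have hrange := Subgroup.noncommPiCoprod_range (hcomm := hcomm)
  have e1 : (∀ i, S i) ≃* (Subgroup.noncommPiCoprod hcomm).range := MonoidHom.ofInjective hinj
  have hr : (Subgroup.noncommPiCoprod hcomm).range = M := by
    rw [hrange]
    exact sup_orbit M T hT hM
  rw [hr] at e1
  exact ⟨e1⟩

theorem prod_equiv (hH : TrivRad H) (M : Subgroup H) [M.Normal] :
    Nonempty ((M × Subgroup.centralizer (M : Set H)) ≃*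
      (M ⊔ Subgroup.centralizer (M : Set H) : Subgroup H)) := by
  set C := Subgroup.centralizer (M : Set H) with hC
  have hCn : C.Normal := inferInstance
  have hcomm : ∀ (m : M) (c : C), Commute (M.subtype m) (C.subtype c) := by
    intro m c
    have : (c : H) ∈ Subgroup.centralizer (M : Set H) := c.2
    exact (Subgroup.mem_centralizer_iff.1 this) m m.2
  have hdis : Disjoint M C := by
    rw [disjoint_iff]
    apply hH
    · infer_instance
    · apply Group.isSolvable_of_comm
      rintro ⟨a, ha1, ha2⟩ ⟨b, hb1, hb2⟩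
      apply Subtype.ext
      show a * b = b * a
      have := hb2
      rw [hC] at this
      exact (Subgroup.mem_centralizer_iff.1 this) a ha1
  have hinj : Function.Injective (MonoidHom.noncommCoprod M.subtype C.subtype hcomm) := by
    rw [MonoidHom.noncommCoprod_injective]
    refine ⟨M.subtype_injective, C.subtype_injective, ?_⟩
    rw [Subgroup.range_subtype, Subgroup.range_subtype]
    exact hdis
  have e := MonoidHom.ofInjective hinj
  rw [MonoidHom.noncommCoprod_range, Subgroup.range_subtype, Subgroup.range_subtype] at e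
  exact ⟨e⟩

/-- one step: class numbers of all subgroups -/
theorem pr_step {r : ℕ} (hH : TrivRad H) (M T : Subgroup H) [M.Normal] (hT : Min M T)
    (hM : ∀ N : Subgroup H, N.Normal → N ≤ M → N ≠ ⊥ → N = M)
    (hloc : Pr s t T (4 * Nat.card (MulAut T)) (Nat.card T ^ (s + r)))
    (hC : Pr s t (Subgroup.centralizer (M : Set H)) 1
      (Nat.card (Subgroup.centralizer (M : Set H)) ^ r)) :
    Pr s t H 1 (Nat.card H ^ r) := by
  obtain ⟨hM1, -⟩ := card_kc_min hH M T hT hM
  obtain ⟨hL1, -⟩ := sup_centralizer hH M
  have hK1 := card_ker_le M T hT hM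
  obtain ⟨e1⟩ := pi_equiv hH M T hT hM
  obtain ⟨e2⟩ := prod_equiv hH M
  have h1 : Pr s t M ((4 * Nat.card (MulAut T)) ^ Nat.card (orbit (ConjAct H) T))
      ((Nat.card T ^ (s + r)) ^ Nat.card (orbit (ConjAct H) T)) := by
    apply pr_congr e1
    apply pr_pi'
    intro i
    obtain ⟨c, hc⟩ := i.2
    have : (i : Subgroup H) = c • T := hc.symm
    rw [this]
    exact pr_congr (Subgroup.equivSMul c T) hloc
  set m := Nat.card (orbit (ConjAct H) T) with hm
  set C := Subgroup.centralizer (M : Set H) with hCdef
  set K := (actH T).ker with hK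
  set L := M ⊔ C with hL
  set a := 4 * Nat.card (MulAut T) with ha
  have hLK : L ≤ K := sup_le (M_le_ker M T hT) (C_le_ker M T hT)
  have h2 : Pr s t L (a ^ m * 1) ((Nat.card T ^ (s + r)) ^ m * Nat.card C ^ r) :=
    pr_congr e2 (pr_prod h1 hC)
  have h3 : Pr s t K (a ^ m * 1)
      ((Nat.card T ^ (s + r)) ^ m * Nat.card C ^ r * (L.subgroupOf K).index ^ s) :=
    pr_index (L.subgroupOf K) (pr_congr (Subgroup.subgroupOfEquivOfLe hLK).symm h2)
  have h4 := pr_perm (actH T) h3
  have h5 : (L.subgroupOf K).index * Nat.card L = Nat.card K := by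
    rw [← Nat.card_congr (Subgroup.subgroupOfEquivOfLe hLK).toEquiv]
    exact Subgroup.index_mul_card _
  have hCpos : 0 < Nat.card C := Nat.card_pos
  set j := (L.subgroupOf K).index with hj
  have h6 : j * Nat.card T ^ m ≤ Nat.card (MulAut T) ^ m := by
    rw [hL1, hM1] at h5
    have h7 : (j * Nat.card T ^ m) * Nat.card C ≤ Nat.card (MulAut T) ^ m * Nat.card C := by
      calc (j * Nat.card T ^ m) * Nat.card C = j * (Nat.card T ^ m * Nat.card C) := by ring
        _ = Nat.card K := h5
        _ ≤ _ := by rw [mul_comm]; exact hK1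
    exact Nat.le_of_mul_le_mul_right h7 hCpos
  have hTpos : 0 < Nat.card T := Nat.card_pos
  have hApos : 0 < Nat.card (MulAut T) := Nat.card_pos
  have hle : Nat.card T ^ m * Nat.card C ≤ Nat.card H := by
    rw [← hM1, ← hL1]
    exact Nat.card_le_card_of_injective _ (Subgroup.subtype_injective _)
  intro Z
  have h7 := h4 Z
  have h8 : (kc Z ^ s) * ((a ^ m) ^ s * (Nat.card T ^ m) ^ s) ≤
      (Nat.card H ^ r * Z.index ^ t) * ((a ^ m) ^ s * (Nat.card T ^ m) ^ s) := by
    calc (kc Z ^ s) * ((a ^ m) ^ s * (Nat.card T ^ m) ^ s)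
        = (a ^ m * 1 * kc Z) ^ s * (Nat.card T ^ m) ^ s := by
          rw [mul_one, mul_pow (a ^ m) (kc Z) s]
          ring
      _ ≤ ((Nat.card T ^ (s + r)) ^ m * Nat.card C ^ r * j ^ s * (4 ^ m) ^ s * Z.index ^ t) *
          (Nat.card T ^ m) ^ s := by gcongr
      _ = (Nat.card T ^ (s + r)) ^ m * Nat.card C ^ r * (j * Nat.card T ^ m) ^ s * (4 ^ m) ^ s *
          Z.index ^ t := by
          rw [mul_pow j]
          ring
      _ ≤ (Nat.card T ^ (s + r)) ^ m * Nat.card C ^ r * (Nat.card (MulAut T) ^ m) ^ s *
          (4 ^ m) ^ s * Z.index ^ t := by gcongr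
      _ = (Nat.card T ^ m * Nat.card C) ^ r * Z.index ^ t *
          ((a ^ m) ^ s * (Nat.card T ^ m) ^ s) := by
          rw [ha, mul_pow 4 (Nat.card (MulAut T)) m, mul_pow (4 ^ m), mul_pow (Nat.card T ^ m),
            ← pow_mul (Nat.card T) (s + r) m, ← pow_mul (Nat.card T) m s,
            ← pow_mul (Nat.card T) m r]
          have : Nat.card T ^ ((s + r) * m) = Nat.card T ^ (m * s) * Nat.card T ^ (m * r) := by
            rw [← pow_add]
            congr 1
            ring
          rw [this]
          ring
      _ ≤ (Nat.card H ^ r * Z.index ^ t) * ((a ^ m) ^ s * (Nat.card T ^ m) ^ s) := by gcongr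
  have h9 : kc Z ^ s ≤ Nat.card H ^ r * Z.index ^ t :=
    Nat.le_of_mul_le_mul_right h8 (by positivity)
  rw [one_mul]
  exact h9

end

/-- **Class numbers of all subgroups of groups with trivial solvable radical.** -/
theorem phi_bound (s t r : ℕ) : ∀ (n : ℕ) (H : Type) [Group H] [Finite H], Nat.card H = n →
    TrivRad H → (∀ S : Subgroup H, S.IsSubnormal → IsSimpleGroup S →
      Pr s t S (4 * Nat.card (MulAut S)) (Nat.card S ^ (s + r))) → Pr s t H 1 (Nat.card H ^ r) := by
  intro n
  induction n using Nat.strong_induction_on with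
  | _ n ih =>
  intro H _ _ hn hH hS
  rcases subsingleton_or_nontrivial H with h | h
  · have : Nat.card H = 1 := by simp
    rw [this, one_pow]
    exact pr_triv
  obtain ⟨M, T, hMn, hT, hM⟩ := exists_min (H := H)
  have hsimple := min_simple M T hT hM
  have hcond := hS T (min_subnormal M T hT) hsimple
  obtain ⟨hL1, hL2⟩ := sup_centralizer hH M
  have hMne : M ≠ ⊥ := by
    intro e
    have := hT.le
    rw [e, le_bot_iff] at this
    exact hT.ne this
  have hMcard : 1 < Nat.card M := (Subgroup.one_lt_card_iff_ne_bot M).2 hMne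
  have hLle : Nat.card M * Nat.card (Subgroup.centralizer (M : Set H)) ≤ Nat.card H := by
    rw [← hL1]
    exact Nat.card_le_card_of_injective _ (Subgroup.subtype_injective _)
  have hClt : Nat.card (Subgroup.centralizer (M : Set H)) < n := by
    have : 0 < Nat.card (Subgroup.centralizer (M : Set H)) := Nat.card_pos
    nlinarith
  have hCn : (Subgroup.centralizer (M : Set H)).Normal := inferInstance
  have hCS : ∀ S : Subgroup (Subgroup.centralizer (M : Set H)), S.IsSubnormal →
      IsSimpleGroup S → Pr s t S (4 * Nat.card (MulAut S)) (Nat.card S ^ (s + r)) := by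
    intro S h1 h2
    have e : S ≃* S.map (Subgroup.centralizer (M : Set H)).subtype :=
      S.equivMapOfInjective _ (Subgroup.subtype_injective _)
    have h3 : (S.map (Subgroup.centralizer (M : Set H)).subtype).IsSubnormal :=
      h1.trans' (Subgroup.Normal.isSubnormal hCn)
    have h4 : IsSimpleGroup (S.map (Subgroup.centralizer (M : Set H)).subtype) :=
      e.symm.isSimpleGroup
    have h5 := hS _ h3 h4
    rw [Nat.card_congr e.toEquiv, Nat.card_congr (MulAut.congr e).toEquiv]
    exact pr_congr e.symm h5
  have hIH := ih _ hClt (Subgroup.centralizer (M : Set H)) rfl (trivRad_normal hH _) hCS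
  exact pr_step hH M T hT hM hcond hIH

end Pool.Agent.ACD8
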