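import Pool.Agent.Work.MP_76dc41_al.H8.Master
import Pool.Agent.Work.MP_76dc41_al.H8.Phi
import Pool.Agent.Work.MP_76dc41_al.H8.AutAlt

set_option autoImplicit false

noncomputable section

namespace Pool.Agent.ACD8

/-- `G/R` has no nontrivial solvable normal subgroup if `R` is the largest solvable normal
subgroup -/
theorem trivRad_quot {G : Type} [Group G] [Finite G] (R : Subgroup G) [R.Normal]
    (hR : Group.IsSolvable R) (hmax : ∀ N : Subgroup G, N.Normal → Group.IsSolvable N → N ≤ R) :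
    TrivRad (G ⧸ R) := by
  intro M hM hs
  have h1 : (M.comap (QuotientGroup.mk' R)).Normal := inferInstance
  have h2 : Group.IsSolvable (M.comap (QuotientGroup.mk' R)) := by
    set f : M.comap (QuotientGroup.mk' R) →* M := (QuotientGroup.mk' R).subgroupComap M with hf
    have hle : R ≤ M.comap (QuotientGroup.mk' R) := by
      intro x hx
      rw [Subgroup.mem_comap]
      have : (QuotientGroup.mk' R) x = 1 := by
        rw [QuotientGroup.mk'_apply, QuotientGroup.eq_one_iff]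
        exact hx
      rw [this]
      exact M.one_mem
    refine Group.isSolvable_of_ker_le_range (Subgroup.inclusion hle) f ?_
    intro x hx
    rw [MonoidHom.mem_ker] at hx
    have h3 : (QuotientGroup.mk' R) x.1 = 1 := by
      have := congrArg Subtype.val hx
      exact this
    rw [QuotientGroup.mk'_apply, QuotientGroup.eq_one_iff] at h3
    exact ⟨⟨x.1, h3⟩, by ext; rfl⟩
  have h3 := hmax _ h1 h2
  rw [eq_bot_iff]
  intro y hy
  obtain ⟨x, rfl⟩ := QuotientGroup.mk'_surjective R y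
  have h4 : x ∈ R := h3 hy
  rw [Subgroup.mem_bot, QuotientGroup.mk'_apply, QuotientGroup.eq_one_iff]
  exact h4

/-- **permutation quotients** -/
theorem perm_quot {G : Type} [Group G] [Fintype G] (N : Subgroup G) [N.Normal] {d : ℕ}
    (f : G ⧸ N →* Equiv.Perm (Fin d)) (hf : Function.Injective f) :
    (Nat.card (G ⧸ N) : ℝ) ≤ 16 ^ (d - 1) * acd G ^ 2 := by
  obtain ⟨X, h1, h2⟩ := master N
  have h3 : kc X ≤ 4 ^ (d - 1) := by
    have e := X.equivMapOfInjective f hf
    rw [kc_congr e]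
    exact kr_all d (Fin d) (by simp) _
  have h3R : (kc X : ℝ) ≤ 4 ^ (d - 1) := by exact_mod_cast h3
  have hpos : (1 : ℝ) ≤ X.index := by
    exact_mod_cast Nat.pos_of_ne_zero X.index_ne_zero_of_finite
  have hacd := acd_nonneg G
  calc (Nat.card (G ⧸ N) : ℝ) = (Nat.card (G ⧸ N) : ℝ) * 1 := by ring
    _ ≤ (Nat.card (G ⧸ N) : ℝ) * X.index := by gcongr
    _ ≤ acd G ^ 2 * (kc X : ℝ) ^ 2 := h2
    _ ≤ acd G ^ 2 * (4 ^ (d - 1)) ^ 2 := by gcongr
    _ = 16 ^ (d - 1) * acd G ^ 2 := by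
      rw [← pow_mul, mul_comm (d - 1) 2, pow_mul]
      norm_num
      ring

/-- the local condition on the simple subnormal subgroups of `H` -/
def Loc (s t r : ℕ) (H : Type) [Group H] : Prop :=
  ∀ S : Subgroup H, S.IsSubnormal → IsSimpleGroup S → ∀ Y : Subgroup S,
    (4 * Nat.card (MulAut S) * kc Y) ^ s ≤ Nat.card S ^ (s + r) * Y.index ^ t

/-- general inequality -/
theorem crit {G : Type} [Group G] [Fintype G] (N : Subgroup G) [N.Normal]
    (hN : TrivRad (G ⧸ N)) {s t r : ℕ} (hst : s ≤ 2 * t) (hS : Loc s t r (G ⧸ N)) :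
    (Nat.card (G ⧸ N) : ℝ) ^ s ≤ acd G ^ (s + 2 * t) * (Nat.card (G ⧸ N) : ℝ) ^ (2 * r) := by
  have h2 := phi_bound s t r _ (G ⧸ N) rfl hN hS
  obtain ⟨X, h3, h4⟩ := master N
  have h5 := h2 X
  rw [one_mul] at h5
  have h5R : (kc X : ℝ) ^ s ≤ (Nat.card (G ⧸ N) : ℝ) ^ r * (X.index : ℝ) ^ t := by
    exact_mod_cast h5
  have hpos : (0 : ℝ) < X.index := by
    exact_mod_cast Nat.pos_of_ne_zero X.index_ne_zero_of_finite
  have hacd := acd_nonneg G
  set i : ℝ := (X.index : ℝ) with hi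
  set h : ℝ := (Nat.card (G ⧸ N) : ℝ) with hh
  have hh0 : 0 ≤ h := by positivity
  have h6 : h ^ s * i ^ s ≤ (acd G ^ (s + 2 * t) * h ^ (2 * r)) * i ^ s := by
    calc h ^ s * i ^ s = (h * i) ^ s := by rw [mul_pow]
      _ ≤ (acd G ^ 2 * (kc X : ℝ) ^ 2) ^ s := by gcongr
      _ = acd G ^ (2 * s) * ((kc X : ℝ) ^ s) ^ 2 := by
        rw [mul_pow, ← pow_mul, ← pow_mul, ← pow_mul, mul_comm 2 s]
      _ ≤ acd G ^ (2 * s) * (h ^ r * i ^ t) ^ 2 := by gcongr
      _ = acd G ^ (2 * s) * h ^ (2 * r) * i ^ (2 * t - s) * i ^ s := by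
        rw [mul_assoc _ (i ^ (2 * t - s)), ← pow_add, Nat.sub_add_cancel hst, mul_pow,
          ← pow_mul, ← pow_mul, mul_comm r 2, mul_comm t 2]
        ring
      _ ≤ acd G ^ (2 * s) * h ^ (2 * r) * acd G ^ (2 * t - s) * i ^ s := by gcongr
      _ = (acd G ^ (s + 2 * t) * h ^ (2 * r)) * i ^ s := by
        have : s + 2 * t = 2 * s + (2 * t - s) := by omega
        rw [this, pow_add]
        ring
  exact le_of_mul_le_mul_right h6 (by positivity)

theorem acd_ge_one (G : Type) [Group G] [Fintype G] : 1 ≤ acd G := by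
  obtain ⟨X, h1, -⟩ := master (⊤ : Subgroup G)
  have hpos : (1 : ℝ) ≤ X.index := by
    exact_mod_cast Nat.pos_of_ne_zero X.index_ne_zero_of_finite
  exact hpos.trans h1

/-- **criterion** for the exponent `4` -/
theorem crit4 {G : Type} [Group G] [Fintype G] (N : Subgroup G) [N.Normal]
    (hN : TrivRad (G ⧸ N)) {s t r : ℕ} (hs : 0 < s) (hst : s ≤ 2 * t)
    (hr : 8 * r + 2 * t ≤ 3 * s) (hS : Loc s t r (G ⧸ N)) :
    (Nat.card (G ⧸ N) : ℝ) ≤ acd G ^ 4 := by
  have h1 := crit N hN hst hS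
  have ha := acd_ge_one G
  have hh : (1 : ℝ) ≤ (Nat.card (G ⧸ N) : ℝ) := by exact_mod_cast Nat.card_pos (α := G ⧸ N)
  set h : ℝ := (Nat.card (G ⧸ N) : ℝ)
  by_contra hcon
  push Not at hcon
  obtain ⟨u, hu⟩ : ∃ u, s = 2 * r + u := ⟨s - 2 * r, by omega⟩
  have h2 : h ^ u ≤ acd G ^ (s + 2 * t) := by
    have h3 : h ^ u * h ^ (2 * r) ≤ acd G ^ (s + 2 * t) * h ^ (2 * r) := by
      rw [← pow_add, add_comm u, ← hu]
      exact h1
    exact le_of_mul_le_mul_right h3 (by positivity)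
  have h4 : (acd G ^ 4) ^ u < h ^ u := by
    apply pow_lt_pow_left₀ hcon (by positivity)
    omega
  have h5 : acd G ^ (s + 2 * t) ≤ (acd G ^ 4) ^ u := by
    rw [← pow_mul]
    apply pow_le_pow_right₀ ha
    omega
  linarith

end Pool.Agent.ACD8
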