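import Pool.Agent.Work.MP_76dc41_al.H8.Fin1

set_option autoImplicit false

open Equiv Equiv.Perm

noncomputable section

namespace Pool.Agent.ACD8

/-- every simple subnormal subgroup of `H` is an alternating group of degree at least `n₀` -/
def AltSocle (n₀ : ℕ) (H : Type) [Group H] : Prop :=
  ∀ S : Subgroup H, S.IsSubnormal → IsSimpleGroup S →
    ∃ n, n₀ ≤ n ∧ Nonempty (S ≃* alternatingGroup (Fin n))

/-- order of the automorphism group of an alternating group -/
theorem alt_aut (n : ℕ) (hn : 3 ≤ n) : Nat.card (MulAut (alternatingGroup (Fin n))) ≤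
    n ^ 3 * kc (alternatingGroup (Fin n)) * Nat.card (alternatingGroup (Fin n)) := by
  obtain ⟨m, hm⟩ : ∃ m, n = m + 3 := ⟨n - 3, by omega⟩
  have e : Fin n ≃ Fin 2 ⊕ Fin (m + 1) := Fintype.equivOfCardEq (by simp; omega)
  have E := Equiv.altCongrHom e
  have hgen := alt_gen m
  set A := alternatingGroup (Fin 2 ⊕ Fin (m + 1)) with hA
  obtain ⟨x, y, hx, hxy⟩ := hgen
  rw [kc_congr E, Nat.card_congr (MulAut.congr E).toEquiv, Nat.card_congr E.toEquiv]
  have h1 := aut_bound A x y hxy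
  have h2 := cent_bound _ _ _ x hx
  have hcard : Fintype.card (Fin 2 ⊕ Fin (m + 1)) = n := by simp; omega
  rw [hcard] at h2
  have hApos : 0 < Nat.card A := Nat.card_pos
  have h4 : Nat.card (MulAut A) * Nat.card A ≤ (n ^ 3 * kc A * Nat.card A) * Nat.card A := by
    calc Nat.card (MulAut A) * Nat.card A
        ≤ Nat.card (MulAut A) * (n ^ 3 * Nat.card (Subgroup.centralizer {x})) := by gcongr
      _ = n ^ 3 * (Nat.card (MulAut A) * Nat.card (Subgroup.centralizer {x})) := by ring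
      _ ≤ n ^ 3 * (kc A * Nat.card A * Nat.card A) := by gcongr
      _ = _ := by ring
  exact Nat.le_of_mul_le_mul_right h4 hApos

theorem loc_alt {H : Type} [Group H] [Finite H] (h : AltSocle 160 H) : Loc 8 8 1 H := by
  intro S hS1 hS2 Y
  obtain ⟨n, hn, ⟨e⟩⟩ := h S hS1 hS2
  have h1 := alt_crit (α := Fin n) (by simpa using hn)
  rw [← kc_congr e, ← Nat.card_congr (MulAut.congr e).toEquiv, ← Nat.card_congr e.toEquiv] at h1
  have h2 := kc_sub Y
  calc (4 * Nat.card (MulAut S) * kc Y) ^ 8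
      ≤ (4 * Nat.card (MulAut S) * (Y.index * kc S)) ^ 8 := by gcongr
    _ = (4 * kc S * Nat.card (MulAut S)) ^ 8 * Y.index ^ 8 := by ring
    _ ≤ Nat.card S ^ 9 * Y.index ^ 8 := by gcongr

/-- subgroups of the alternating group have few classes -/
theorem kc_alt_sub (n : ℕ) (Y : Subgroup (alternatingGroup (Fin n))) : kc Y ≤ 4 ^ (n - 1) := by
  have e := Y.equivMapOfInjective (alternatingGroup (Fin n)).subtype (Subgroup.subtype_injective _)
  rw [kc_congr e]
  exact kr_all n (Fin n) (by simp) _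

theorem loc_alt_all (s : ℕ) : ∃ n₀ : ℕ, ∀ (H : Type) [Group H] [Finite H], AltSocle n₀ H →
    Loc s s 1 H ∧ Loc (2 * s) s 1 H := by
  -- the size condition
  have hlim := FloorSemiring.tendsto_pow_div_factorial_atTop ((2 * 128 ^ (2 * s) : ℕ) : ℝ)
  have hev : ∀ᶠ n : ℕ in Filter.atTop, (2 * 128 ^ (2 * s)) ^ n ≤ n.factorial := by
    have h1 := hlim.eventually (gt_mem_nhds (show (0 : ℝ) < 1 by norm_num))
    filter_upwards [h1] with n hn
    have hf : (0 : ℝ) < (n.factorial : ℝ) := by exact_mod_cast n.factorial_pos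
    rw [div_lt_one hf] at hn
    exact_mod_cast hn.le
  obtain ⟨n₁, hn₁⟩ := Filter.eventually_atTop.1 hev
  refine ⟨max n₁ 3, ?_⟩
  intro H _ _ hH
  have key : ∀ u, u ≤ 2 * s → Loc u 0 1 H := by
    intro u hu S hS1 hS2 Y
    obtain ⟨n, hn, ⟨e⟩⟩ := hH S hS1 hS2
    have hn1 : n₁ ≤ n := (le_max_left _ _).trans hn
    have hn3 : 3 ≤ n := (le_max_right _ _).trans hn
    have h1 := alt_aut n hn3
    have h2 := kc_alt_sub n ⊤
    have e1 : kc (⊤ : Subgroup (alternatingGroup (Fin n))) = kc (alternatingGroup (Fin n)) :=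
      kc_congr Subgroup.topEquiv
    rw [e1] at h2
    have h3 := kc_alt_sub n (Y.map e.toMonoidHom)
    rw [← kc_congr (Y.equivMapOfInjective e.toMonoidHom e.injective)] at h3
    rw [← Nat.card_congr (MulAut.congr e).toEquiv, ← Nat.card_congr e.toEquiv,
      ← kc_congr e] at h1
    rw [← kc_congr e] at h2
    have hcard : 2 * Nat.card S = n.factorial := by
      have : Nontrivial (Fin n) := Fin.nontrivial_iff_two_le.2 (by omega)
      have h4 : 2 * Nat.card (alternatingGroup (Fin n)) = Nat.card (Perm (Fin n)) :=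
        two_mul_nat_card_alternatingGroup
      rw [Nat.card_congr e.toEquiv, h4, Nat.card_perm, Nat.card_eq_fintype_card, Fintype.card_fin]
    have h5 := hn₁ n hn1
    have h6 : (128 ^ n) ^ u ≤ Nat.card S := by
      have h7 : 2 * (128 ^ n) ^ u ≤ 2 * Nat.card S := by
        rw [hcard]
        refine le_trans ?_ h5
        rw [mul_pow, ← pow_mul, ← pow_mul]
        have : 2 ≤ 2 ^ n := by
          calc 2 = 2 ^ 1 := by norm_num
            _ ≤ 2 ^ n := Nat.pow_le_pow_right (by norm_num) (by omega)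
        have h8 : 128 ^ (n * u) ≤ 128 ^ (2 * s * n) := by
          apply Nat.pow_le_pow_right (by norm_num)
          calc n * u ≤ n * (2 * s) := by gcongr
            _ = 2 * s * n := by ring
        exact Nat.mul_le_mul this h8
      omega
    have h9 : 4 * (n ^ 3 * 4 ^ (n - 1)) * 4 ^ (n - 1) ≤ 128 ^ n := by
      have hk : n ^ 3 ≤ 8 ^ n := by
        have : n ≤ 2 ^ n := Nat.lt_two_pow_self.le
        calc n ^ 3 ≤ (2 ^ n) ^ 3 := by gcongr
          _ = 8 ^ n := by rw [← pow_mul, mul_comm, pow_mul]; norm_num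
      obtain ⟨k, rfl⟩ : ∃ k, n = k + 1 := ⟨n - 1, by omega⟩
      rw [Nat.add_sub_cancel]
      calc 4 * ((k + 1) ^ 3 * 4 ^ k) * 4 ^ k = (k + 1) ^ 3 * (4 * 16 ^ k) := by
            have : (16 : ℕ) ^ k = 4 ^ k * 4 ^ k := by rw [← mul_pow]; norm_num
            rw [this]
            ring
        _ ≤ 8 ^ (k + 1) * (16 * 16 ^ k) := by gcongr; norm_num
        _ = 128 ^ (k + 1) := by
            rw [← pow_succ', ← mul_pow]; norm_num
    have h10 : Nat.card (MulAut S) ≤ n ^ 3 * 4 ^ (n - 1) * Nat.card S := h1.trans (by gcongr)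
    calc (4 * Nat.card (MulAut S) * kc Y) ^ u
        ≤ (4 * (n ^ 3 * 4 ^ (n - 1) * Nat.card S) * 4 ^ (n - 1)) ^ u := by gcongr
      _ = (4 * (n ^ 3 * 4 ^ (n - 1)) * 4 ^ (n - 1)) ^ u * Nat.card S ^ u := by
          rw [← mul_pow]
          ring
      _ ≤ (128 ^ n) ^ u * Nat.card S ^ u := by gcongr
      _ ≤ Nat.card S * Nat.card S ^ u := by gcongr
      _ = Nat.card S ^ (u + 1) * Y.index ^ 0 := by ring
  have hmono : ∀ (u t : ℕ), Loc u 0 1 H → Loc u t 1 H := by
    intro u t h S hS1 hS2 Y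
    refine (h S hS1 hS2 Y).trans ?_
    rw [pow_zero]
    have : 1 ≤ Y.index ^ t := Nat.one_le_pow _ _ (Nat.pos_of_ne_zero Y.index_ne_zero_of_finite)
    gcongr
  exact ⟨hmono s s (key s (by omega)), hmono (2 * s) s (key (2 * s) le_rfl)⟩

/-- the alternating groups of large degree satisfy the criterion for every exponent -/
theorem alt_crit_all (s : ℕ) : ∃ n₀ : ℕ, ∀ n, n₀ ≤ n →
    (4 * kc (alternatingGroup (Fin n)) * Nat.card (MulAut (alternatingGroup (Fin n)))) ^ s ≤
      Nat.card (alternatingGroup (Fin n)) ^ (s + 1) := by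
  have hlim := FloorSemiring.tendsto_pow_div_factorial_atTop ((2 * 128 ^ s : ℕ) : ℝ)
  have hev : ∀ᶠ n : ℕ in Filter.atTop, (2 * 128 ^ s) ^ n ≤ n.factorial := by
    have h1 := hlim.eventually (gt_mem_nhds (show (0 : ℝ) < 1 by norm_num))
    filter_upwards [h1] with n hn
    have hf : (0 : ℝ) < (n.factorial : ℝ) := by exact_mod_cast n.factorial_pos
    rw [div_lt_one hf] at hn
    exact_mod_cast hn.le
  obtain ⟨n₁, hn₁⟩ := Filter.eventually_atTop.1 hev
  refine ⟨max n₁ 3, ?_⟩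
  intro n hn
  have hn1 : n₁ ≤ n := (le_max_left _ _).trans hn
  have hn3 : 3 ≤ n := (le_max_right _ _).trans hn
  have h1 := alt_aut n hn3
  have h2 := kc_alt_sub n ⊤
  have e1 : kc (⊤ : Subgroup (alternatingGroup (Fin n))) = kc (alternatingGroup (Fin n)) :=
    kc_congr Subgroup.topEquiv
  rw [e1] at h2
  set A := alternatingGroup (Fin n) with hA
  have hcard : 2 * Nat.card A = n.factorial := by
    have : Nontrivial (Fin n) := Fin.nontrivial_iff_two_le.2 (by omega)
    have h4 : 2 * Nat.card (alternatingGroup (Fin n)) = Nat.card (Perm (Fin n)) :=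
      two_mul_nat_card_alternatingGroup
    rw [hA, h4, Nat.card_perm, Nat.card_eq_fintype_card, Fintype.card_fin]
  have h5 := hn₁ n hn1
  have h6 : (128 ^ n) ^ s ≤ Nat.card A := by
    have h7 : 2 * (128 ^ n) ^ s ≤ 2 * Nat.card A := by
      rw [hcard]
      refine le_trans ?_ h5
      rw [mul_pow, ← pow_mul, ← pow_mul, mul_comm n s]
      have : 2 ≤ 2 ^ n := by
        calc 2 = 2 ^ 1 := by norm_num
          _ ≤ 2 ^ n := Nat.pow_le_pow_right (by norm_num) (by omega)
      exact Nat.mul_le_mul_right _ this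
    omega
  have h9 : 4 * (n ^ 3 * 4 ^ (n - 1)) * 4 ^ (n - 1) ≤ 128 ^ n := by
    have hk : n ^ 3 ≤ 8 ^ n := by
      have : n ≤ 2 ^ n := Nat.lt_two_pow_self.le
      calc n ^ 3 ≤ (2 ^ n) ^ 3 := by gcongr
        _ = 8 ^ n := by rw [← pow_mul, mul_comm, pow_mul]; norm_num
    obtain ⟨k, rfl⟩ : ∃ k, n = k + 1 := ⟨n - 1, by omega⟩
    rw [Nat.add_sub_cancel]
    calc 4 * ((k + 1) ^ 3 * 4 ^ k) * 4 ^ k = (k + 1) ^ 3 * (4 * 16 ^ k) := by
          have : (16 : ℕ) ^ k = 4 ^ k * 4 ^ k := by rw [← mul_pow]; norm_num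
          rw [this]
          ring
      _ ≤ 8 ^ (k + 1) * (16 * 16 ^ k) := by gcongr; norm_num
      _ = 128 ^ (k + 1) := by
          rw [← pow_succ', ← mul_pow]; norm_num
  have h10 : Nat.card (MulAut A) ≤ n ^ 3 * 4 ^ (n - 1) * Nat.card A := h1.trans (by gcongr)
  calc (4 * kc A * Nat.card (MulAut A)) ^ s
      ≤ (4 * 4 ^ (n - 1) * (n ^ 3 * 4 ^ (n - 1) * Nat.card A)) ^ s := by gcongr
    _ = (4 * (n ^ 3 * 4 ^ (n - 1)) * 4 ^ (n - 1)) ^ s * Nat.card A ^ s := by
        rw [← mul_pow]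
        ring
    _ ≤ (128 ^ n) ^ s * Nat.card A ^ s := by gcongr
    _ ≤ Nat.card A * Nat.card A ^ s := by gcongr
    _ = Nat.card A ^ (s + 1) := by ring

/-- exponent close to `2` -/
theorem alt_eps (ε : ℝ) (hε : 0 < ε) : ∃ n₀ : ℕ, ∀ (G : Type) [Group G] [Fintype G]
    (N : Subgroup G) [N.Normal], TrivRad (G ⧸ N) → AltSocle n₀ (G ⧸ N) →
    (Nat.card (G ⧸ N) : ℝ) ≤ acd G ^ (2 + ε) := by
  obtain ⟨s, hs⟩ := exists_nat_gt (2 / ε + 1)
  have hs1 : (1 : ℝ) < s := by
    have : 0 < 2 / ε := by positivity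
    linarith
  obtain ⟨n₀, hn₀⟩ := loc_alt_all s
  refine ⟨n₀, ?_⟩
  intro G _ _ N _ hN hA
  obtain ⟨-, h1⟩ := hn₀ (G ⧸ N) hA
  have h2 := crit N hN (s := 2 * s) (t := s) (r := 1) le_rfl h1
  have ha := acd_ge_one G
  have hh : (1 : ℝ) ≤ (Nat.card (G ⧸ N) : ℝ) := by exact_mod_cast Nat.card_pos (α := G ⧸ N)
  set h : ℝ := (Nat.card (G ⧸ N) : ℝ)
  have hs1' : 1 < s := by exact_mod_cast hs1
  obtain ⟨k, rfl⟩ : ∃ k, s = k + 1 := ⟨s - 1, by omega⟩
  have hk : 0 < k := by omega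
  have h3 : h ^ (2 * k) ≤ acd G ^ (4 * (k + 1)) := by
    have h4 : h ^ (2 * k) * h ^ (2 * 1) ≤ acd G ^ (4 * (k + 1)) * h ^ (2 * 1) := by
      rw [← pow_add]
      have e1 : 2 * k + 2 * 1 = 2 * (k + 1) := by ring
      have e2 : 4 * (k + 1) = 2 * (k + 1) + 2 * (k + 1) := by ring
      rw [e1, e2]
      exact h2
    exact le_of_mul_le_mul_right h4 (by positivity)
  -- take roots
  have h5 : h ≤ acd G ^ ((4 * (k + 1) : ℝ) / (2 * k)) := by
    have hk' : (0 : ℝ) < 2 * k := by positivity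
    have h6 : (h ^ (2 * k)) ^ ((1 : ℝ) / (2 * k)) ≤ (acd G ^ (4 * (k + 1))) ^ ((1 : ℝ) / (2 * k)) := by
      apply Real.rpow_le_rpow (by positivity) h3 (by positivity)
    rw [← Real.rpow_natCast, ← Real.rpow_natCast, ← Real.rpow_mul (by linarith),
      ← Real.rpow_mul (by linarith)] at h6
    have e1 : (((2 * k : ℕ) : ℝ) * (1 / (2 * k))) = 1 := by
      push_cast
      field_simp
    have e2 : (((4 * (k + 1) : ℕ) : ℝ) * (1 / (2 * k))) = (4 * (k + 1) : ℝ) / (2 * k) := by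
      push_cast
      ring
    rw [e1, e2, Real.rpow_one] at h6
    exact h6
  refine h5.trans ?_
  apply Real.rpow_le_rpow_of_exponent_le ha
  have hk' : (0 : ℝ) < k := by positivity
  push_cast at hs
  have h7 : 2 / ε < k := by linarith
  have h8 : 2 < k * ε := by
    rw [div_lt_iff₀ hε] at h7
    exact h7
  rw [div_le_iff₀ (by positivity)]
  nlinarith

end Pool.Agent.ACD8
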