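import Pool.Agent.Work.MP_76dc41_al.H8.Fin2
import Pool.Agent.Work.MP_76dc41_al.H8.Defs

set_option autoImplicit false

noncomputable section

namespace Pool.Agent.RadAlt

theorem acd_eq (G : Type) [Group G] [Fintype G] : acd G = ACD8.acd G := by
  unfold acd ACD8.acd
  have h1 : (∑ᶠ χ ∈ Irr G, (χ 1).re) = ∑ χ : ACD8.IrrC G, ((ACD8.dg χ : ℕ) : ℝ) := by
    rw [← finsum_set_coe_eq_finsum_mem]
    refine (finsum_eq_sum_of_fintype (α := ACD8.IrrC G) (fun χ => (χ.1 1).re)).trans ?_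
    refine Finset.sum_congr rfl fun χ _ => ?_
    rw [ACD8.dg_eq]
    simp
  rw [h1]
  rfl

end Pool.Agent.RadAlt
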