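import Pool.Agent.Work.MP_76dc41_al.H8.PSL2

set_option autoImplicit false

open Matrix Matrix.SpecialLinearGroup

noncomputable section

namespace Pool.Agent.ACD8

/-- class number and order of `PSL_n(q)` -/
theorem psl_two (n : ℕ) (hn : 20 ≤ n) (F : Type) [Field F] [Finite F] :
    ∃ j : ℕ, n ^ 2 ≤ 7 * j + 17 * n + 8 ∧
      Nat.card F ^ (7 * j) * kc (ProjectiveSpecialLinearGroup (Fin n) F) ^ 8 ≤
        Nat.card (ProjectiveSpecialLinearGroup (Fin n) F) ∧
      kc (ProjectiveSpecialLinearGroup (Fin n) F) ^ 8 ≤ Nat.card F ^ (17 * n + 8) := by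
  classical
  have hq : 2 ≤ Nat.card F := Finite.one_lt_card
  set q := Nat.card F with hqd
  have hn2 : 17 * n + 2 ≤ n ^ 2 := by nlinarith
  obtain ⟨e, he⟩ : ∃ e, n ^ 2 = 17 * n + 2 + e := ⟨n ^ 2 - (17 * n + 2), by omega⟩
  have hj : 7 * (e / 7) ≤ e ∧ e < 7 * (e / 7) + 7 := by omega
  have h1 := psl_bound n (q ^ (e / 7)) (by omega) F (by
    rw [← pow_mul, ← pow_add]
    apply Nat.pow_le_pow_right (by omega)
    omega)
  rw [← pow_mul, mul_comm (e / 7) 7] at h1
  refine ⟨e / 7, by omega, h1, ?_⟩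
  have h2 : Nat.card (ProjectiveSpecialLinearGroup (Fin n) F) ≤ q ^ (n ^ 2) := by
    have h3 : Nat.card (ProjectiveSpecialLinearGroup (Fin n) F) ≤
        Nat.card (SpecialLinearGroup (Fin n) F) :=
      Nat.card_le_card_of_surjective _ (QuotientGroup.mk'_surjective
        (Subgroup.center (SpecialLinearGroup (Fin n) F)))
    have h4 : Nat.card (SpecialLinearGroup (Fin n) F) ≤ Nat.card (Matrix (Fin n) (Fin n) F) :=
      Nat.card_le_card_of_injective (fun A => (A : Matrix (Fin n) (Fin n) F))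
        Subtype.val_injective
    have h5 : Nat.card (Matrix (Fin n) (Fin n) F) = q ^ (n ^ 2) := by
      show Nat.card (Fin n → Fin n → F) = _
      rw [Nat.card_fun, Nat.card_fun, Nat.card_eq_fintype_card (α := Fin n), Fintype.card_fin,
        ← pow_mul, sq]
    omega
  have h6 : kc (ProjectiveSpecialLinearGroup (Fin n) F) ^ 8 * q ^ (7 * (e / 7)) ≤
      q ^ (17 * n + 8) * q ^ (7 * (e / 7)) := by
    rw [mul_comm, ← pow_add]
    refine (h1.trans h2).trans (Nat.pow_le_pow_right (by omega) ?_)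
    omega
  exact Nat.le_of_mul_le_mul_right h6 (by positivity)

theorem num_aux (A k q c d s : ℕ) (hs : 0 < s) (h2 : s ≤ q * c) (h3 : s ≤ q * d)
    (h4 : A * (c * d) ≤ (k * s) * (k * s) * s) : A ≤ k ^ 2 * (q * q) * s := by
  have h5 : A * (s * s) ≤ (k ^ 2 * (q * q) * s) * (s * s) := by
    calc A * (s * s) ≤ A * ((q * c) * (q * d)) := by gcongr
      _ = (q * q) * (A * (c * d)) := by ring
      _ ≤ (q * q) * ((k * s) * (k * s) * s) := by gcongr
      _ = _ := by ring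
  exact Nat.le_of_mul_le_mul_right h5 (by positivity)

/-- automorphisms of `PSL_n(q)` -/
theorem psl_aut (n : ℕ) (hn : 3 ≤ n) (F : Type) [Field F] [Finite F] :
    Nat.card (MulAut (ProjectiveSpecialLinearGroup (Fin n) F)) ≤
      kc (ProjectiveSpecialLinearGroup (Fin n) F) ^ 2 * Nat.card F ^ (4 * n) *
        Nat.card (ProjectiveSpecialLinearGroup (Fin n) F) := by
  obtain ⟨m, rfl⟩ : ∃ m, n = m + 3 := ⟨n - 3, by omega⟩
  obtain ⟨x, z, y, h1, h2, h3⟩ := psl_gen m F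
  have h4 := aut_bound3 _ x z y h1
  have hpos : 0 < Nat.card (ProjectiveSpecialLinearGroup (Fin (m + 3)) F) := Nat.card_pos
  have e : 4 * (m + 3) = 2 * (m + 3) + 2 * (m + 3) := by ring
  rw [e, pow_add]
  exact num_aux _ _ _ _ _ _ hpos h2 h3 h4

/-- `PSL_n(q)`, `n ≥ 84`, satisfies the criterion -/
theorem psl_crit (n : ℕ) (hn : 84 ≤ n) (F : Type) [Field F] [Finite F] :
    (4 * kc (ProjectiveSpecialLinearGroup (Fin n) F) *
      Nat.card (MulAut (ProjectiveSpecialLinearGroup (Fin n) F))) ^ 8 ≤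
      Nat.card (ProjectiveSpecialLinearGroup (Fin n) F) ^ 9 := by
  have hq : 2 ≤ Nat.card F := Finite.one_lt_card
  obtain ⟨j, h1, h2, h3⟩ := psl_two n (by omega) F
  have h4 := psl_aut n (by omega) F
  set S := ProjectiveSpecialLinearGroup (Fin n) F with hS
  set k := kc S with hk
  set q := Nat.card F with hqd
  have h5 : 66 * n + 32 ≤ 7 * j := by nlinarith
  have h6 : 4 ^ 8 * (k ^ 8) ^ 3 * q ^ (32 * n) ≤ Nat.card S := by
    calc 4 ^ 8 * (k ^ 8) ^ 3 * q ^ (32 * n) = (2 ^ 16 * q ^ (32 * n)) * ((k ^ 8) ^ 2) * k ^ 8 := by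
          norm_num
          ring
      _ ≤ (q ^ 16 * q ^ (32 * n)) * ((q ^ (17 * n + 8)) ^ 2) * k ^ 8 := by gcongr
      _ = q ^ (66 * n + 32) * k ^ 8 := by
          rw [← pow_mul, ← pow_add, ← pow_add]
          congr 2
          ring
      _ ≤ q ^ (7 * j) * k ^ 8 := by
          gcongr
          omega
      _ ≤ Nat.card S := h2
  calc (4 * k * Nat.card (MulAut S)) ^ 8 ≤ (4 * k * (k ^ 2 * q ^ (4 * n) * Nat.card S)) ^ 8 := by
        gcongr
    _ = 4 ^ 8 * (k ^ 8) ^ 3 * (q ^ (4 * n)) ^ 8 * Nat.card S ^ 8 := by ring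
    _ = (4 ^ 8 * (k ^ 8) ^ 3 * q ^ (32 * n)) * Nat.card S ^ 8 := by
        rw [← pow_mul q (4 * n) 8]
        have : 4 * n * 8 = 32 * n := by ring
        rw [this]
    _ ≤ Nat.card S * Nat.card S ^ 8 := by gcongr
    _ = Nat.card S ^ 9 := by ring

/-- large rank -/
theorem psl_crit_s (s n : ℕ) (hn : 18 * s + 26 ≤ n) (F : Type) [Field F] [Finite F] :
    (4 * kc (ProjectiveSpecialLinearGroup (Fin n) F) *
      Nat.card (MulAut (ProjectiveSpecialLinearGroup (Fin n) F))) ^ s ≤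
      Nat.card (ProjectiveSpecialLinearGroup (Fin n) F) ^ (s + 1) := by
  have hq : 2 ≤ Nat.card F := Finite.one_lt_card
  obtain ⟨j, h1, h2, h3⟩ := psl_two n (by omega) F
  have h4 := psl_aut n (by omega) F
  set S := ProjectiveSpecialLinearGroup (Fin n) F with hS
  have hkpos : 0 < kc S := kc_pos S
  set k := kc S with hk
  set q := Nat.card F with hqd
  have h5 : k ≤ q ^ (3 * n + 1) := by
    by_contra hcon
    push Not at hcon
    have h6 : (q ^ (3 * n + 1)) ^ 8 < k ^ 8 := Nat.pow_lt_pow_left hcon (by norm_num)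
    have h7 : q ^ (17 * n + 8) ≤ (q ^ (3 * n + 1)) ^ 8 := by
      rw [← pow_mul]
      apply Nat.pow_le_pow_right (by omega)
      omega
    omega
  have h8 : (13 * n + 5) * s ≤ 7 * j := by nlinarith
  have h9 : (q ^ (13 * n + 5)) ^ s ≤ Nat.card S := by
    rw [← pow_mul]
    calc q ^ ((13 * n + 5) * s) ≤ q ^ (7 * j) := Nat.pow_le_pow_right (by omega) h8
      _ ≤ q ^ (7 * j) * k ^ 8 := Nat.le_mul_of_pos_right _ (by positivity)
      _ ≤ _ := h2
  have h10 : 4 * k * (k ^ 2 * q ^ (4 * n)) ≤ q ^ (13 * n + 5) := by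
    calc 4 * k * (k ^ 2 * q ^ (4 * n)) = 2 ^ 2 * k ^ 3 * q ^ (4 * n) := by ring
      _ ≤ q ^ 2 * (q ^ (3 * n + 1)) ^ 3 * q ^ (4 * n) := by gcongr
      _ = q ^ (13 * n + 5) := by
          rw [← pow_mul, ← pow_add, ← pow_add]
          congr 1
          ring
  calc (4 * k * Nat.card (MulAut S)) ^ s ≤ (4 * k * (k ^ 2 * q ^ (4 * n) * Nat.card S)) ^ s := by
        gcongr
    _ = (4 * k * (k ^ 2 * q ^ (4 * n))) ^ s * Nat.card S ^ s := by
        rw [← mul_pow]
        ring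
    _ ≤ (q ^ (13 * n + 5)) ^ s * Nat.card S ^ s := by gcongr
    _ ≤ Nat.card S * Nat.card S ^ s := by gcongr
    _ = Nat.card S ^ (s + 1) := by ring

end Pool.Agent.ACD8
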