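import Pool.Agent.Work.MP_76dc41_al.H8.Fin3
import Pool.Agent.Work.MP_76dc41_al.H8.PSL3

set_option autoImplicit false

noncomputable section

namespace Pool.Agent.RadAlt

open ACD8

theorem loc_of_crit {s : ℕ} (S : Type) [Group S] [Finite S]
    (h : (4 * kc S * Nat.card (MulAut S)) ^ s ≤ Nat.card S ^ (s + 1)) (Y : Subgroup S) :
    (4 * Nat.card (MulAut S) * kc Y) ^ s ≤ Nat.card S ^ (s + 1) * Y.index ^ s := by
  have h2 := kc_sub Y
  calc (4 * Nat.card (MulAut S) * kc Y) ^ s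
      ≤ (4 * Nat.card (MulAut S) * (Y.index * kc S)) ^ s := by gcongr
    _ = (4 * kc S * Nat.card (MulAut S)) ^ s * Y.index ^ s := by
        rw [← mul_pow]
        ring
    _ ≤ Nat.card S ^ (s + 1) * Y.index ^ s := by gcongr

theorem crit_congr {s : ℕ} {S T : Type} [Group S] [Group T] (e : S ≃* T)
    (h : (4 * kc T * Nat.card (MulAut T)) ^ s ≤ Nat.card T ^ (s + 1)) :
    (4 * kc S * Nat.card (MulAut S)) ^ s ≤ Nat.card S ^ (s + 1) := by
  rw [kc_congr e, Nat.card_congr (MulAut.congr e).toEquiv, Nat.card_congr e.toEquiv]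
  exact h

theorem loc_altlin {H : Type} [Group H] [Finite H] (h : AltLinSocle 160 84 H) : Loc 8 8 1 H := by
  intro S hS1 hS2 Y
  apply loc_of_crit
  rcases h S hS1 hS2 with ⟨n, hn, ⟨e⟩⟩ | ⟨n, F, _, _, hn, ⟨e⟩⟩
  · exact crit_congr e (alt_crit (α := Fin n) (by simpa using hn))
  · exact crit_congr e (psl_crit n hn F)

theorem loc_altlin_all (s : ℕ) : ∃ n₀ : ℕ, ∀ (H : Type) [Group H] [Finite H],
    AltLinSocle n₀ n₀ H → Loc s s 1 H := by
  obtain ⟨n₁, h₁⟩ := alt_crit_all s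
  refine ⟨max n₁ (18 * s + 26), ?_⟩
  intro H _ _ h S hS1 hS2 Y
  apply loc_of_crit
  rcases h S hS1 hS2 with ⟨n, hn, ⟨e⟩⟩ | ⟨n, F, _, _, hn, ⟨e⟩⟩
  · exact crit_congr e (h₁ n ((le_max_left _ _).trans hn))
  · exact crit_congr e (psl_crit_s s n ((le_max_right _ _).trans hn) F)

/-- exponent close to `3` -/
theorem altlin_eps (ε : ℝ) (hε : 0 < ε) : ∃ n₀ : ℕ, ∀ (G : Type) [Group G] [Fintype G]
    (N : Subgroup G) [N.Normal], ACD8.TrivRad (G ⧸ N) → AltLinSocle n₀ n₀ (G ⧸ N) →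
    (Nat.card (G ⧸ N) : ℝ) ≤ ACD8.acd G ^ (3 + ε) := by
  obtain ⟨s, hs⟩ := exists_nat_gt (6 / ε + 2)
  have hs1 : (2 : ℝ) < s := by
    have : 0 < 6 / ε := by positivity
    linarith
  obtain ⟨n₀, hn₀⟩ := loc_altlin_all s
  refine ⟨n₀, ?_⟩
  intro G _ _ N _ hN hA
  have h2 := crit N hN (s := s) (t := s) (r := 1) (by omega) (hn₀ (G ⧸ N) hA)
  have ha := acd_ge_one G
  have hh : (1 : ℝ) ≤ (Nat.card (G ⧸ N) : ℝ) := by exact_mod_cast Nat.card_pos (α := G ⧸ N)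
  set h : ℝ := (Nat.card (G ⧸ N) : ℝ)
  have hs1' : 2 < s := by exact_mod_cast hs1
  obtain ⟨k, rfl⟩ : ∃ k, s = k + 2 := ⟨s - 2, by omega⟩
  have hk : 0 < k := by omega
  have h3 : h ^ k ≤ ACD8.acd G ^ (3 * (k + 2)) := by
    have h4 : h ^ k * h ^ (2 * 1) ≤ ACD8.acd G ^ (3 * (k + 2)) * h ^ (2 * 1) := by
      rw [← pow_add]
      have e2 : 3 * (k + 2) = (k + 2) + 2 * (k + 2) := by ring
      rw [e2, mul_one]
      exact h2
    exact le_of_mul_le_mul_right h4 (by positivity)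
  have h5 : h ≤ ACD8.acd G ^ ((3 * (k + 2) : ℝ) / k) := by
    have hk' : (0 : ℝ) < k := by positivity
    have h6 : (h ^ k) ^ ((1 : ℝ) / k) ≤ (ACD8.acd G ^ (3 * (k + 2))) ^ ((1 : ℝ) / k) := by
      apply Real.rpow_le_rpow (by positivity) h3 (by positivity)
    rw [← Real.rpow_natCast, ← Real.rpow_natCast, ← Real.rpow_mul (by linarith),
      ← Real.rpow_mul (by linarith)] at h6
    have e1 : ((k : ℝ) * (1 / k)) = 1 := by
      field_simp
    have e2 : (((3 * (k + 2) : ℕ) : ℝ) * (1 / k)) = (3 * (k + 2) : ℝ) / k := by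
      push_cast
      ring
    rw [e1, e2, Real.rpow_one] at h6
    exact h6
  refine h5.trans ?_
  apply Real.rpow_le_rpow_of_exponent_le ha
  have hk' : (0 : ℝ) < k := by positivity
  push_cast at hs
  have h7 : 6 / ε < k := by linarith
  have h8 : 6 < k * ε := by
    rw [div_lt_iff₀ hε] at h7
    exact h7
  rw [div_le_iff₀ (by positivity)]
  nlinarith

end Pool.Agent.RadAlt
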