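import Pool.Agent.Work.MP_76dc41_al.H8.Classes

set_option autoImplicit false

open Equiv Equiv.Perm

noncomputable section

namespace Pool.Agent.ACD8

section

variable {α : Type} [Fintype α] [DecidableEq α]

/-- the 3-cycle `a → b → c → a` -/
def ta (a b c : α) : Perm α := swap a b * swap b c

theorem ta_conj (σ : Perm α) (a b c : α) : σ * ta a b c * σ⁻¹ = ta (σ a) (σ b) (σ c) := by
  unfold ta
  rw [swap_apply_apply, swap_apply_apply]
  group

theorem ta_inv (a b c : α) : (ta a b c)⁻¹ = ta c b a := by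
  unfold ta
  rw [mul_inv_rev, swap_inv, swap_inv, swap_comm c b, swap_comm b a]

theorem ta_rot (a b c : α) (hab : a ≠ b) (hac : a ≠ c) : ta a b c = ta b c a := by
  unfold ta
  have h : swap b c * swap c a * (swap b c)⁻¹ = swap b a := by
    rw [← swap_apply_apply, swap_apply_right, swap_apply_of_ne_of_ne hab hac]
  have h2 : swap b c * swap c a = swap b a * swap b c := by
    rw [← h, inv_mul_cancel_right]
  rw [h2, swap_comm b a]

theorem ta_gen (Q : Subgroup (Perm α)) (p q : α) (hpq : p ≠ q)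
    (h : ∀ i, i ≠ p → i ≠ q → ta p q i ∈ Q) :
    ∀ a b c : α, a ≠ b → a ≠ c → b ≠ c → ta a b c ∈ Q := by
  have hconj : ∀ σ ∈ Q, ∀ a b c : α, ta a b c ∈ Q → ta (σ a) (σ b) (σ c) ∈ Q := by
    intro σ hσ a b c h1
    rw [← ta_conj]
    exact Q.mul_mem (Q.mul_mem hσ h1) (Q.inv_mem hσ)
  have hinv : ∀ a b c : α, ta a b c ∈ Q → ta c b a ∈ Q := by
    intro a b c h1
    rw [← ta_inv]
    exact Q.inv_mem h1
  have hrot : ∀ a b c : α, a ≠ b → a ≠ c → (ta a b c ∈ Q ↔ ta b c a ∈ Q) := by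
    intro a b c h1 h2
    rw [ta_rot a b c h1 h2]
  -- evaluation of `ta p q i`
  have e1 : ∀ i, i ≠ p → i ≠ q → ta p q i p = q := by
    intro i h1 h2
    show swap p q (swap q i p) = q
    rw [swap_apply_of_ne_of_ne hpq h1.symm, swap_apply_left]
  have e2 : ∀ i, i ≠ p → i ≠ q → ta p q i q = i := by
    intro i h1 h2
    show swap p q (swap q i q) = i
    rw [swap_apply_left, swap_apply_of_ne_of_ne h1 h2]
  have e3 : ∀ i, i ≠ p → i ≠ q → ta p q i i = p := by
    intro i h1 h2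
    show swap p q (swap q i i) = p
    rw [swap_apply_right, swap_apply_right]
  have e4 : ∀ i j, i ≠ p → i ≠ q → j ≠ p → j ≠ q → i ≠ j → ta p q i j = j := by
    intro i j h1 h2 h3 h4 h5
    show swap p q (swap q i j) = j
    rw [swap_apply_of_ne_of_ne h4 h5.symm, swap_apply_of_ne_of_ne h3 h4]
  have f1 : ∀ i, i ≠ p → i ≠ q → (ta p q i)⁻¹ p = i := by
    intro i h1 h2
    rw [Perm.inv_eq_iff_eq, e3 i h1 h2]
  have f2 : ∀ i, i ≠ p → i ≠ q → (ta p q i)⁻¹ q = p := by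
    intro i h1 h2
    rw [Perm.inv_eq_iff_eq, e1 i h1 h2]
  have f4 : ∀ i j, i ≠ p → i ≠ q → j ≠ p → j ≠ q → i ≠ j → (ta p q i)⁻¹ j = j := by
    intro i j h1 h2 h3 h4 h5
    rw [Perm.inv_eq_iff_eq, e4 i j h1 h2 h3 h4 h5]
  -- step 1
  have s1 : ∀ i j, i ≠ p → i ≠ q → j ≠ p → j ≠ q → i ≠ j → ta q i j ∈ Q := by
    intro i j h1 h2 h3 h4 h5
    have := hconj _ (h i h1 h2) _ _ _ (h j h3 h4)
    rwa [e1 i h1 h2, e2 i h1 h2, e4 i j h1 h2 h3 h4 h5] at this
  -- step 2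
  have s2 : ∀ i j, i ≠ p → i ≠ q → j ≠ p → j ≠ q → i ≠ j → ta p i j ∈ Q := by
    intro i j h1 h2 h3 h4 h5
    have := hconj _ (Q.inv_mem (h j h3 h4)) _ _ _ (h i h1 h2)
    rw [f1 j h3 h4, f2 j h3 h4, f4 j i h3 h4 h1 h2 h5.symm] at this
    rwa [hrot j p i h3 h5.symm] at this
  -- step 3
  have s3 : ∀ i j k, i ≠ p → i ≠ q → j ≠ p → j ≠ q → k ≠ p → k ≠ q → i ≠ j → i ≠ k → j ≠ k →
      ta i j k ∈ Q := by
    intro i j k h1 h2 h3 h4 h5 h6 h7 h8 h9
    have := hconj _ (Q.inv_mem (h i h1 h2)) _ _ _ (s2 j k h3 h4 h5 h6 h9)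
    rwa [f1 i h1 h2, f4 i j h1 h2 h3 h4 h7, f4 i k h1 h2 h5 h6 h8] at this
  -- with `p` in first position
  have hp : ∀ b c, p ≠ b → p ≠ c → b ≠ c → ta p b c ∈ Q := by
    intro b c h1 h2 h3
    by_cases hb : b = q
    · subst hb
      exact h c h2.symm h3.symm
    by_cases hc : c = q
    · subst hc
      have h4 := h b h1.symm h3
      have h5 := hinv _ _ _ h4
      rwa [hrot b c p h3 h1.symm, hrot c p b h2.symm h3.symm] at h5
    exact s2 b c h1.symm hb h2.symm hc h3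
  have hq : ∀ b c, q ≠ b → q ≠ c → b ≠ c → b ≠ p → c ≠ p → ta q b c ∈ Q := by
    intro b c h1 h2 h3 h4 h5
    exact s1 b c h4 h1.symm h5 h2.symm h3
  intro a b c hab hac hbc
  by_cases ha : a = p
  · subst ha
    exact hp b c hab hac hbc
  by_cases hb : b = p
  · subst hb
    rw [hrot a b c hab hac]
    exact hp c a hbc hab.symm hac.symm
  by_cases hc : c = p
  · subst hc
    rw [hrot a b c hab hac, hrot b c a hbc hab.symm]
    exact hp a b hac.symm hbc.symm hab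
  by_cases ha' : a = q
  · subst ha'
    exact hq b c hab hac hbc hb hc
  by_cases hb' : b = q
  · subst hb'
    rw [hrot a b c hab hac]
    exact hq c a hbc hab.symm hac.symm hc ha
  by_cases hc' : c = q
  · subst hc'
    rw [hrot a b c hab hac, hrot b c a hbc hab.symm]
    exact hq a b hac.symm hbc.symm hab ha hb
  exact s3 a b c ha ha' hb hb' hc hc' hab hac hbc

/-- a subgroup containing all `ta p q i` contains the alternating group -/
theorem alt_le (Q : Subgroup (Perm α)) (p q : α) (hpq : p ≠ q)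
    (h : ∀ i, i ≠ p → i ≠ q → ta p q i ∈ Q) : alternatingGroup α ≤ Q := by
  have h1 := ta_gen Q p q hpq h
  rw [← closure_three_cycles_eq_alternating, Subgroup.closure_le]
  intro σ hσ
  have h2 : σ.IsThreeCycle := hσ
  have h3 : σ.support.Nonempty := by
    rw [← Finset.card_pos, h2.card_support]
    norm_num
  obtain ⟨a, ha⟩ := h3
  have h4 := h2.eq_swap_mul_swap_iff_mem_support.2 ha
  have h5 := h2.nodup_iff_mem_support.2 ha
  simp only [List.nodup_cons, List.mem_cons, List.not_mem_nil, or_false, not_or,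
    not_false_eq_true, List.nodup_nil, and_true] at h5
  rw [h4]
  exact h1 a (σ a) (σ (σ a)) h5.1.1 h5.1.2 h5.2

end

/-- the alternating group on `Fin 2 ⊕ Fin (m+1)` is generated by a 3-cycle and one more element -/
theorem alt_gen (m : ℕ) : ∃ x y : alternatingGroup (Fin 2 ⊕ Fin (m + 1)),
    (x : Perm (Fin 2 ⊕ Fin (m + 1))) = ta (Sum.inl 0) (Sum.inl 1) (Sum.inr 0) ∧
    Subgroup.closure {x, y} = ⊤ := by
  set s : Perm (Fin 2) := if Even m then 1 else swap 0 1 with hs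
  set Y : Perm (Fin 2 ⊕ Fin (m + 1)) := Perm.sumCongr s (finRotate (m + 1)) with hY
  have hYalt : Y ∈ alternatingGroup (Fin 2 ⊕ Fin (m + 1)) := by
    rw [mem_alternatingGroup, hY, sign_sumCongr, sign_finRotate, hs]
    by_cases hm : Even m
    · rw [if_pos hm, Perm.sign_one, one_mul]
      simp [hm.neg_one_pow]
    · rw [if_neg hm, sign_swap (by decide)]
      rw [Nat.not_even_iff_odd] at hm
      simp [hm.neg_one_pow]
  have hXalt : ta (Sum.inl 0) (Sum.inl 1) (Sum.inr 0) ∈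
      alternatingGroup (Fin 2 ⊕ Fin (m + 1)) := by
    rw [mem_alternatingGroup]
    unfold ta
    rw [Perm.sign_mul, sign_swap (by simp), sign_swap (by simp)]
    rfl
  refine ⟨⟨_, hXalt⟩, ⟨Y, hYalt⟩, rfl, ?_⟩
  set X : alternatingGroup (Fin 2 ⊕ Fin (m + 1)) := ⟨_, hXalt⟩ with hX
  set Y' : alternatingGroup (Fin 2 ⊕ Fin (m + 1)) := ⟨Y, hYalt⟩ with hY'
  have hYinr : ∀ j : ℕ, ∀ hj : j < m + 1, (Y ^ j) (Sum.inr 0) = Sum.inr ⟨j, hj⟩ := by
    intro j
    induction j with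
    | zero => intro _; rfl
    | succ j ih =>
      intro hj
      rw [pow_succ', Perm.mul_apply, ih (by omega), hY, Perm.sumCongr_apply]
      show Sum.inr (finRotate (m + 1) ⟨j, _⟩) = _
      congr 1
      rw [finRotate_apply]
      apply Fin.ext
      rw [Fin.val_add_one_of_lt]
      rw [Fin.lt_def]
      simp
      omega
  have hYinl : ∀ j : ℕ, ((Y ^ j) (Sum.inl 0) = Sum.inl 0 ∧ (Y ^ j) (Sum.inl 1) = Sum.inl 1) ∨
      ((Y ^ j) (Sum.inl 0) = Sum.inl 1 ∧ (Y ^ j) (Sum.inl 1) = Sum.inl 0) := by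
    intro j
    have hs' : (s 0 = 0 ∧ s 1 = 1) ∨ (s 0 = 1 ∧ s 1 = 0) := by
      rw [hs]
      by_cases hm : Even m
      · left; rw [if_pos hm]; exact ⟨rfl, rfl⟩
      · right; rw [if_neg hm]; exact ⟨by decide, by decide⟩
    have hY0 : Y (Sum.inl 0) = Sum.inl (s 0) := rfl
    have hY1 : Y (Sum.inl 1) = Sum.inl (s 1) := rfl
    induction j with
    | zero => left; exact ⟨rfl, rfl⟩
    | succ j ih =>
      rw [pow_succ', Perm.mul_apply, Perm.mul_apply]
      rcases ih with ⟨h1, h2⟩ | ⟨h1, h2⟩ <;> rcases hs' with ⟨h3, h4⟩ | ⟨h3, h4⟩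
      · left; rw [h1, h2, hY0, hY1, h3, h4]; exact ⟨rfl, rfl⟩
      · right; rw [h1, h2, hY0, hY1, h3, h4]; exact ⟨rfl, rfl⟩
      · right; rw [h1, h2, hY0, hY1, h3, h4]; exact ⟨rfl, rfl⟩
      · left; rw [h1, h2, hY0, hY1, h3, h4]; exact ⟨rfl, rfl⟩
  set Q := (Subgroup.closure {X, Y'}).map (alternatingGroup (Fin 2 ⊕ Fin (m + 1))).subtype with hQ
  have hXQ : (X : Perm (Fin 2 ⊕ Fin (m + 1))) ∈ Q :=
    ⟨X, Subgroup.subset_closure (by simp), rfl⟩
  have hYQ : Y ∈ Q := ⟨Y', Subgroup.subset_closure (by simp), rfl⟩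
  have key : alternatingGroup (Fin 2 ⊕ Fin (m + 1)) ≤ Q := by
    apply alt_le Q (Sum.inl 0) (Sum.inl 1) (by simp)
    intro i h1 h2
    rcases i with i | i
    · exfalso
      fin_cases i
      · exact h1 rfl
      · exact h2 rfl
    · have h3 : Y ^ (i : ℕ) * (X : Perm (Fin 2 ⊕ Fin (m + 1))) * (Y ^ (i : ℕ))⁻¹ ∈ Q :=
        Q.mul_mem (Q.mul_mem (Q.pow_mem hYQ _) hXQ) (Q.inv_mem (Q.pow_mem hYQ _))
      have h4 : (X : Perm (Fin 2 ⊕ Fin (m + 1))) = ta (Sum.inl 0) (Sum.inl 1) (Sum.inr 0) := rfl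
      rw [h4, ta_conj, hYinr i i.2] at h3
      rcases hYinl i with ⟨h5, h6⟩ | ⟨h5, h6⟩
      · rw [h5, h6] at h3
        exact h3
      · rw [h5, h6] at h3
        have h7 := Q.inv_mem h3
        rw [ta_inv, ta_rot _ _ _ (by simp) (by simp)] at h7
        exact h7
  rw [eq_top_iff]
  intro g _
  obtain ⟨g', hg', e⟩ := key g.2
  have : g' = g := Subtype.ext e
  rw [← this]
  exact hg'

end Pool.Agent.ACD8
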