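import Pool.Agent.Work.MP_76dc41_al.H8.Step

set_option autoImplicit false

open MulAction
open scoped Pointwise

noncomputable section

namespace Pool.Agent.ACD8

section

variable {H : Type} [Group H] [Finite H]

theorem sup_centralizer (hH : TrivRad H) (M : Subgroup H) [M.Normal] :
    Nat.card (M ⊔ Subgroup.centralizer (M : Set H) : Subgroup H) =
      Nat.card M * Nat.card (Subgroup.centralizer (M : Set H)) ∧
    kc (M ⊔ Subgroup.centralizer (M : Set H) : Subgroup H) =
      kc M * kc (Subgroup.centralizer (M : Set H)) := by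
  set C := Subgroup.centralizer (M : Set H) with hC
  have hCn : C.Normal := inferInstance
  have hcomm : ∀ (m : M) (c : C), Commute (M.subtype m) (C.subtype c) := by
    intro m c
    have : (c : H) ∈ Subgroup.centralizer (M : Set H) := c.2
    exact (Subgroup.mem_centralizer_iff.1 this) m m.2
  have hdis : Disjoint M C := by
    rw [disjoint_iff]
    apply hH
    · infer_instance
    · apply Group.isSolvable_of_comm
      rintro ⟨a, ha1, ha2⟩ ⟨b, hb1, hb2⟩
      apply Subtype.ext
      show a * b = b * a
      have := hb2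
      rw [hC] at this
      exact (Subgroup.mem_centralizer_iff.1 this) a ha1
  have hinj : Function.Injective (MonoidHom.noncommCoprod M.subtype C.subtype hcomm) := by
    rw [MonoidHom.noncommCoprod_injective]
    refine ⟨M.subtype_injective, C.subtype_injective, ?_⟩
    rw [Subgroup.range_subtype, Subgroup.range_subtype]
    exact hdis
  have e := MonoidHom.ofInjective hinj
  rw [MonoidHom.noncommCoprod_range, Subgroup.range_subtype, Subgroup.range_subtype] at e
  constructor
  · rw [← Nat.card_congr e.toEquiv, Nat.card_prod]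
  · rw [← kc_congr e, kc_prod]

theorem step_ineq (hH : TrivRad H) (M T : Subgroup H) [M.Normal] (hT : Min M T)
    (hM : ∀ N : Subgroup H, N.Normal → N ≤ M → N ≠ ⊥ → N = M) :
    kc H * Nat.card T ^ Nat.card (orbit (ConjAct H) T) ≤
      (4 * kc T * Nat.card (MulAut T)) ^ Nat.card (orbit (ConjAct H) T) *
        kc (Subgroup.centralizer (M : Set H)) := by
  obtain ⟨hM1, hM2⟩ := card_kc_min hH M T hT hM
  obtain ⟨hL1, hL2⟩ := sup_centralizer hH M
  have hK1 := card_ker_le M T hT hM
  set m := Nat.card (orbit (ConjAct H) T) with hm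
  set C := Subgroup.centralizer (M : Set H) with hC
  set K := (actH T).ker with hK
  set L := M ⊔ C with hL
  have hLK : L ≤ K := sup_le (M_le_ker M T hT) (C_le_ker M T hT)
  have h1 : kc H ≤ kc K * 4 ^ m := by
    have h2 := kc_hom (actH T)
    have h3 : kc (actH T).range ≤ 4 ^ (m - 1) := kr_all m (orbit (ConjAct H) T) rfl _
    calc kc H ≤ kc K * kc (actH T).range := h2
      _ ≤ kc K * 4 ^ (m - 1) := by gcongr
      _ ≤ kc K * 4 ^ m := by
          gcongr
          · norm_num
          · omega
  have h2 : kc K ≤ (L.subgroupOf K).index * kc L := by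
    have h3 := kc_le_index (L.subgroupOf K)
    rwa [kc_congr (Subgroup.subgroupOfEquivOfLe hLK)] at h3
  have h3 : (L.subgroupOf K).index * Nat.card L = Nat.card K := by
    rw [← Nat.card_congr (Subgroup.subgroupOfEquivOfLe hLK).toEquiv]
    exact Subgroup.index_mul_card _
  have hCpos : 0 < Nat.card C := Nat.card_pos
  have h4 : (L.subgroupOf K).index * Nat.card T ^ m ≤ Nat.card (MulAut T) ^ m := by
    rw [hL1, hM1] at h3
    have h5 : ((L.subgroupOf K).index * Nat.card T ^ m) * Nat.card C ≤
        Nat.card (MulAut T) ^ m * Nat.card C := by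
      calc ((L.subgroupOf K).index * Nat.card T ^ m) * Nat.card C
          = (L.subgroupOf K).index * (Nat.card T ^ m * Nat.card C) := by ring
        _ = Nat.card K := h3
        _ ≤ _ := by rw [mul_comm]; exact hK1
    exact Nat.le_of_mul_le_mul_right h5 hCpos
  calc kc H * Nat.card T ^ m ≤ (kc K * 4 ^ m) * Nat.card T ^ m := by gcongr
    _ ≤ (((L.subgroupOf K).index * kc L) * 4 ^ m) * Nat.card T ^ m := by gcongr
    _ = ((L.subgroupOf K).index * Nat.card T ^ m) * (4 ^ m * kc T ^ m * kc C) := by
        rw [hL2, hM2]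
        ring
    _ ≤ Nat.card (MulAut T) ^ m * (4 ^ m * kc T ^ m * kc C) := by gcongr
    _ = _ := by
        rw [mul_pow, mul_pow]
        ring

end

/-- **Class numbers of groups with trivial solvable radical.** -/
theorem class_bound : ∀ (n : ℕ) (H : Type) [Group H] [Finite H], Nat.card H = n → TrivRad H →
    (∀ S : Subgroup H, S.IsSubnormal → IsSimpleGroup S →
      (4 * kc S * Nat.card (MulAut S)) ^ 8 ≤ Nat.card S ^ 9) → kc H ^ 8 ≤ Nat.card H := by
  intro n
  induction n using Nat.strong_induction_on with
  | _ n ih =>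
  intro H _ _ hn hH hS
  rcases subsingleton_or_nontrivial H with h | h
  · rw [kc_subsingleton]
    simpa using Nat.card_pos (α := H)
  obtain ⟨M, T, hMn, hT, hM⟩ := exists_min (H := H)
  have hsimple := min_simple M T hT hM
  have hcond := hS T (min_subnormal M T hT) hsimple
  have hstep := step_ineq hH M T hT hM
  obtain ⟨hM1, hM2⟩ := card_kc_min hH M T hT hM
  obtain ⟨hL1, hL2⟩ := sup_centralizer hH M
  set m := Nat.card (orbit (ConjAct H) T) with hm
  set C := Subgroup.centralizer (M : Set H) with hC
  have hCn : C.Normal := inferInstance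
  have hMne : M ≠ ⊥ := by
    intro e
    have := hT.le
    rw [e, le_bot_iff] at this
    exact hT.ne this
  have hMcard : 1 < Nat.card M := by
    have := (Subgroup.one_lt_card_iff_ne_bot M).2 hMne
    exact this
  have hLle : Nat.card M * Nat.card C ≤ Nat.card H := by
    rw [← hL1]
    exact Nat.card_le_card_of_injective _ (Subgroup.subtype_injective _)
  have hClt : Nat.card C < n := by
    have : 0 < Nat.card C := Nat.card_pos
    nlinarith
  have hCS : ∀ S : Subgroup C, S.IsSubnormal → IsSimpleGroup S →
      (4 * kc S * Nat.card (MulAut S)) ^ 8 ≤ Nat.card S ^ 9 := by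
    intro S h1 h2
    have e : S ≃* S.map C.subtype := S.equivMapOfInjective C.subtype C.subtype_injective
    have h3 : (S.map C.subtype).IsSubnormal := h1.trans' (Subgroup.Normal.isSubnormal hCn)
    have h4 : IsSimpleGroup (S.map C.subtype) := e.symm.isSimpleGroup
    have h5 := hS _ h3 h4
    rw [kc_congr e, Nat.card_congr e.toEquiv, Nat.card_congr (MulAut.congr e).toEquiv]
    exact h5
  have hIH := ih _ hClt C rfl (trivRad_normal hH C) hCS
  have hTpos : 0 < Nat.card T := Nat.card_pos
  have key : kc H ^ 8 * (Nat.card T ^ m) ^ 8 ≤ (Nat.card T ^ m * Nat.card C) * (Nat.card T ^ m) ^ 8 := by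
    calc kc H ^ 8 * (Nat.card T ^ m) ^ 8 = (kc H * Nat.card T ^ m) ^ 8 := by rw [mul_pow]
      _ ≤ ((4 * kc T * Nat.card (MulAut T)) ^ m * kc C) ^ 8 := by gcongr
      _ = ((4 * kc T * Nat.card (MulAut T)) ^ 8) ^ m * kc C ^ 8 := by
          rw [mul_pow, ← pow_mul, ← pow_mul, mul_comm m 8]
      _ ≤ (Nat.card T ^ 9) ^ m * Nat.card C := by gcongr
      _ = (Nat.card T ^ m * Nat.card C) * (Nat.card T ^ m) ^ 8 := by ring
  have h9 : kc H ^ 8 ≤ Nat.card T ^ m * Nat.card C :=
    Nat.le_of_mul_le_mul_right key (by positivity)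
  calc kc H ^ 8 ≤ Nat.card T ^ m * Nat.card C := h9
    _ = Nat.card M * Nat.card C := by rw [hM1]
    _ ≤ Nat.card H := hLle

end Pool.Agent.ACD8
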