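import Pool.Agent.Work.MP_76dc41_al.H8.Bochert

set_option autoImplicit false

open Equiv Equiv.Perm MulAction

noncomputable section

namespace Pool.Agent.ACD8

/-- the bound `4^(n-1)` for all permutation groups of degree `n` -/
def KRb (n : ℕ) : Prop := ∀ (α : Type) [Finite α], Nat.card α = n → ∀ Q : Subgroup (Perm α),
  kc Q ≤ 4 ^ (n - 1)

theorem kc_hom {G H : Type} [Group G] [Group H] [Finite G] (f : G →* H) :
    kc G ≤ kc f.ker * kc f.range := by
  have h1 := kc_quot f.ker
  rw [kc_congr (QuotientGroup.quotientKerEquivRange f)] at h1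
  exact h1

theorem kc_of_injective {G H : Type} [Group G] [Group H] (f : G →* H)
    (hf : Function.Injective f) : kc G = kc f.range :=
  kc_congr (MonoidHom.ofInjective hf)

theorem kc_subsingleton {G : Type} [Group G] [Subsingleton G] : kc G = 1 := by
  unfold kc
  have : Unique (ConjClasses G) :=
    { default := 1, uniq := fun a => by
        obtain ⟨x, rfl⟩ := ConjClasses.mk_surjective a
        rw [Subsingleton.elim x 1]
        rfl }
  exact Nat.card_unique

/-- groups preserving every part of a partition into small parts -/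
theorem kr_parts (n : ℕ) (hn : ∀ m < n, KRb m) : ∀ (k : ℕ) (I : Type) [Finite I],
    Nat.card I = k → ∀ (α : Type) [Finite α] (G : Type) [Group G] [Finite G]
    (f : G →* Perm α) (_ : Function.Injective f) (c : α → I) (_ : Function.Surjective c)
    (_ : ∀ g x, c (f g x) = c x) (_ : ∀ i, Nat.card {x // c x = i} < n),
    kc G ≤ 4 ^ (Nat.card α - Nat.card I) := by
  intro k
  induction k with
  | zero =>
    intro I _ hI α _ G _ _ f hf c hc hinv hfib
    have hIe : IsEmpty I := by
      rcases Nat.card_eq_zero.1 hI with h | h
      · exact h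
      · exact absurd h (not_infinite_iff_finite.2 inferInstance)
    have hα : IsEmpty α := ⟨fun x => hIe.elim (c x)⟩
    have : Subsingleton G := by
      refine ⟨fun a b => hf ?_⟩
      ext x
      exact hα.elim x
    rw [kc_subsingleton]
    exact Nat.one_le_pow _ _ (by norm_num)
  | succ k ih =>
    intro I _ hI α _ G _ _ f hf c hc hinv hfib
    classical
    have hIne : Nonempty I := by
      rw [← Finite.card_pos_iff]
      omega
    obtain ⟨i⟩ := hIne
    -- action on the fibre of `i`
    let g : G →* Perm {x // c x = i} :=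
      { toFun := fun a => (f a).subtypePerm (fun x => by rw [hinv])
        map_one' := by ext x; simp
        map_mul' := fun a b => by ext x; simp; try rfl }
    have h1 := kc_hom g
    have h2 : kc g.range ≤ 4 ^ (Nat.card {x // c x = i} - 1) :=
      hn _ (hfib i) _ rfl _
    -- the kernel acts on the complement
    let h : g.ker →* Perm {x // c x ≠ i} :=
      { toFun := fun a => (f a).subtypePerm (fun x => by rw [hinv])
        map_one' := by ext x; simp
        map_mul' := fun a b => by ext x; simp; try rfl }
    have hh : Function.Injective h := by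
      rw [injective_iff_map_eq_one]
      intro a ha
      apply Subtype.ext
      apply hf
      rw [OneMemClass.coe_one, map_one]
      ext x
      by_cases hx : c x = i
      · have ha2 : g a = 1 := a.2
        have := congrArg (fun σ => ((σ ⟨x, hx⟩ : {x // c x = i}) : α)) ha2
        simpa [g] using this
      · have := congrArg (fun σ => ((σ ⟨x, hx⟩ : {x // c x ≠ i}) : α)) ha
        simpa [h] using this
    have hcardI : Nat.card {j : I // j ≠ i} = k := by
      have := Fintype.ofFinite I
      rw [Nat.card_eq_fintype_card, Fintype.card_subtype_compl, ← Nat.card_eq_fintype_card, hI]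
      simp
    let c' : {x // c x ≠ i} → {j : I // j ≠ i} := fun x => ⟨c x, x.2⟩
    have hc' : Function.Surjective c' := by
      rintro ⟨j, hj⟩
      obtain ⟨x, hx⟩ := hc j
      exact ⟨⟨x, by rw [hx]; exact hj⟩, Subtype.ext hx⟩
    have hfib' : ∀ j, Nat.card {x // c' x = j} < n := by
      intro j
      refine lt_of_le_of_lt ?_ (hfib j)
      apply Nat.card_le_card_of_injective
        (fun x : {x // c' x = j} => (⟨x.1.1, congrArg Subtype.val x.2⟩ : {x // c x = j.1}))
      intro x y hxy
      apply Subtype.ext
      apply Subtype.ext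
      have h9 := congrArg Subtype.val hxy
      exact h9
    have h3 := ih {j : I // j ≠ i} hcardI {x // c x ≠ i} g.ker h hh c' hc'
      (fun a x => Subtype.ext (hinv a x.1)) hfib'
    have hfibpos : 0 < Nat.card {x // c x = i} := by
      obtain ⟨x, hx⟩ := hc i
      have : Nonempty {x // c x = i} := ⟨⟨x, hx⟩⟩
      exact Nat.card_pos
    have hsum : Nat.card {x // c x = i} + Nat.card {x // c x ≠ i} = Nat.card α := by
      have := Fintype.ofFinite α
      rw [Nat.card_eq_fintype_card, Nat.card_eq_fintype_card, Nat.card_eq_fintype_card]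
      have h8 := Fintype.card_subtype_compl (fun x => c x = i)
      have h9 := Fintype.card_subtype_le (fun x => c x = i)
      rw [h8]
      omega
    have hle : Nat.card {j : I // j ≠ i} ≤ Nat.card {x // c x ≠ i} :=
      Nat.card_le_card_of_surjective c' hc'
    calc kc G ≤ kc g.ker * kc g.range := h1
      _ ≤ 4 ^ (Nat.card {x // c x ≠ i} - Nat.card {j : I // j ≠ i}) *
          4 ^ (Nat.card {x // c x = i} - 1) := by gcongr
      _ = 4 ^ (Nat.card α - Nat.card I) := by
          rw [← pow_add]
          congr 1
          omega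

/-- the transitive imprimitive case -/
theorem kr_imprim (n : ℕ) (hn : ∀ m < n, KRb m) (α : Type) [Finite α] (hα : Nat.card α = n)
    (Q : Subgroup (Perm α)) [IsPretransitive Q α] (a : α) (L : Subgroup Q)
    (hL1 : stabilizer Q a < L) (hL2 : L ≠ ⊤) : kc Q ≤ 4 ^ (n - 1) := by
  classical
  have hg : ∀ x : α, ∃ g : Q, g • a = x := fun x => exists_smul_eq Q a x
  choose γ hγ using hg
  let c : α → Q ⧸ L := fun x => QuotientGroup.mk (γ x)
  have hcq : ∀ (q : Q) (x : α), c (q • x) = q • c x := by
    intro q x
    show (QuotientGroup.mk (γ (q • x)) : Q ⧸ L) = QuotientGroup.mk (q * γ x)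
    rw [eq_comm, QuotientGroup.eq]
    apply hL1.le
    rw [mem_stabilizer_iff, mul_smul, hγ, inv_smul_eq_iff, mul_smul, hγ]
  have hc : Function.Surjective c := by
    intro r
    obtain ⟨q, rfl⟩ := QuotientGroup.mk_surjective r
    refine ⟨q • a, ?_⟩
    show (QuotientGroup.mk (γ (q • a)) : Q ⧸ L) = QuotientGroup.mk q
    rw [eq_comm, QuotientGroup.eq]
    apply hL1.le
    rw [mem_stabilizer_iff, mul_smul, hγ, inv_smul_eq_iff]
  let h : Q →* Perm (Q ⧸ L) := MulAction.toPermHom Q (Q ⧸ L)
  have hindex : 1 < Nat.card (Q ⧸ L) := by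
    have h1 : L.index ≠ 1 := fun e => hL2 (Subgroup.index_eq_one.1 e)
    have h2 : L.index ≠ 0 := L.index_ne_zero_of_finite
    have : Nat.card (Q ⧸ L) = L.index := rfl
    omega
  have hI : Nat.card (Q ⧸ L) < n := by
    have h1 : Nat.card (Q ⧸ L) * L.relIndex ⊤ ≠ 0 := by
      have : 0 < L.relIndex ⊤ := by
        rw [Subgroup.relIndex_top_right]
        exact Nat.pos_of_ne_zero L.index_ne_zero_of_finite
      positivity
    have h2 : Nat.card (Q ⧸ L) = L.index := rfl
    have h3 : (stabilizer Q a).index = n := by
      rw [index_stabilizer, orbit_eq_univ]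
      rw [Set.ncard_univ, hα]
    have h4 := Subgroup.relIndex_mul_index hL1.le
    have h5 : (stabilizer Q a).relIndex L ≠ 1 := by
      intro e
      rw [Subgroup.relIndex_eq_one] at e
      exact absurd hL1 (not_lt_of_ge e)
    have h6 : (stabilizer Q a).relIndex L ≠ 0 := by
      intro e
      rw [e, zero_mul] at h4
      exact (stabilizer Q a).index_ne_zero_of_finite h4.symm
    have h7 : 2 ≤ (stabilizer Q a).relIndex L := by omega
    have h8 : 0 < L.index := Nat.pos_of_ne_zero L.index_ne_zero_of_finite
    rw [h2, ← h3, ← h4]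
    nlinarith
  have h1 := kc_hom h
  have h2 : kc h.range ≤ 4 ^ (Nat.card (Q ⧸ L) - 1) := hn _ hI _ rfl _
  let f : h.ker →* Perm α := (Q.subtype).comp h.ker.subtype
  have hf : Function.Injective f := by
    intro x y hxy
    apply Subtype.ext
    apply Subtype.ext
    exact hxy
  have hinv : ∀ (g : h.ker) (x : α), c (f g x) = c x := by
    intro g x
    have e1 : c ((g : Q) • x) = (g : Q) • c x := hcq _ _
    have e2 : h g = 1 := g.2
    have e3 : (g : Q) • c x = c x := by
      have := congrArg (fun σ => σ (c x)) e2
      exact this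
    rw [e3] at e1
    exact e1
  have hfib : ∀ i, Nat.card {x // c x = i} < n := by
    intro i
    obtain ⟨j, hj⟩ : ∃ j : Q ⧸ L, j ≠ i := by
      by_contra hc'
      push Not at hc'
      have : Subsingleton (Q ⧸ L) := ⟨fun u v => by rw [hc' u, hc' v]⟩
      have := Finite.card_le_one_iff_subsingleton.2 this
      omega
    obtain ⟨x, hx⟩ := hc j
    rw [← hα]
    apply Finite.card_subtype_lt (x := x)
    rw [hx]
    exact hj
  have h3 := kr_parts n hn _ (Q ⧸ L) rfl α h.ker f hf c hc hinv hfib
  have hle : Nat.card (Q ⧸ L) ≤ Nat.card α := Nat.card_le_card_of_surjective c hc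
  calc kc Q ≤ kc h.ker * kc h.range := h1
    _ ≤ 4 ^ (Nat.card α - Nat.card (Q ⧸ L)) * 4 ^ (Nat.card (Q ⧸ L) - 1) := by gcongr
    _ = 4 ^ (n - 1) := by
        rw [← pow_add]
        congr 1
        omega

/-- the intransitive case -/
theorem kr_intrans (n : ℕ) (hn : ∀ m < n, KRb m) (α : Type) [Finite α] (hα : Nat.card α = n)
    [Nonempty α] (Q : Subgroup (Perm α)) (hQ : ¬ IsPretransitive Q α) : kc Q ≤ 4 ^ (n - 1) := by
  classical
  let c : α → orbitRel.Quotient Q α := Quotient.mk (orbitRel Q α)
  have hc : Function.Surjective c := Quotient.mk_surjective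
  have hinv : ∀ (g : Q) (x : α), c (Q.subtype g x) = c x := by
    intro g x
    apply Quotient.sound
    exact ⟨g, rfl⟩
  have hfib : ∀ i, Nat.card {x // c x = i} < n := by
    intro i
    rw [← hα]
    have : ∃ x, c x ≠ i := by
      by_contra hcon
      push Not at hcon
      apply hQ
      refine ⟨fun x y => ?_⟩
      have : c y = c x := by rw [hcon x, hcon y]
      exact Quotient.exact this
    obtain ⟨x, hx⟩ := this
    exact Finite.card_subtype_lt (x := x) hx
  have h3 := kr_parts n hn _ (orbitRel.Quotient Q α) rfl α Q Q.subtype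
    (Subgroup.subtype_injective Q) c hc hinv hfib
  have hpos : 0 < Nat.card (orbitRel.Quotient Q α) := by
    have : Nonempty (orbitRel.Quotient Q α) := ⟨c (Classical.arbitrary α)⟩
    exact Nat.card_pos
  refine h3.trans ?_
  apply Nat.pow_le_pow_right (by norm_num)
  omega

open scoped Pointwise in
/-- the primitive case -/
theorem kr_prim (n : ℕ) (hn : ∀ m < n, KRb m) (α : Type) [Fintype α] [DecidableEq α]
    (hα : Nat.card α = n) (Q : Subgroup (Perm α)) (hQ : IsPreprimitive Q α) :
    kc Q ≤ 4 ^ (n - 1) := by
  classical
  have hα' : Fintype.card α = n := by rw [← Nat.card_eq_fintype_card, hα]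
  rcases Nat.lt_or_ge n 2 with h2 | h2
  · have : Subsingleton α := by
      rw [← Fintype.card_le_one_iff_subsingleton]
      omega
    have : Subsingleton Q := ⟨fun a b => by
      apply Subtype.ext
      ext x
      exact Subsingleton.elim _ _⟩
    rw [kc_subsingleton]
    exact Nat.one_le_pow _ _ (by norm_num)
  by_cases hA : alternatingGroup α ≤ Q
  · have h1 := kc_sub Q
    have h3 := kc_perm α
    have : Nontrivial α := by
      rw [← Fintype.one_lt_card_iff_nontrivial]
      omega
    have h4 : Q.index ≤ 2 := by
      have := Subgroup.index_dvd_of_le hA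
      rw [alternatingGroup.index_eq_two] at this
      exact Nat.le_of_dvd (by norm_num) this
    rw [hα'] at h3
    calc kc Q ≤ Q.index * kc (Perm α) := h1
      _ ≤ 2 * 2 ^ (n - 1) := by gcongr
      _ ≤ 4 ^ (n - 1) := by
          obtain ⟨m, rfl⟩ : ∃ m, n = m + 2 := ⟨n - 2, by omega⟩
          have e1 : m + 2 - 1 = m + 1 := by omega
          rw [e1, show (4 : ℕ) = 2 ^ 2 by norm_num, ← pow_mul, ← pow_succ']
          apply Nat.pow_le_pow_right (by norm_num)
          omega
  · obtain ⟨A, hA1, hA2⟩ := bochert Q hQ hA
    rw [hα'] at hA1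
    by_cases hA0 : A.card = 0
    · rw [Finset.card_eq_zero] at hA0
      subst hA0
      have : Subsingleton Q := ⟨fun a b => by
        apply Subtype.ext
        rw [hA2 a a.2 (by simp), hA2 b b.2 (by simp)]⟩
      rw [kc_subsingleton]
      exact Nat.one_le_pow _ _ (by norm_num)
    set H := stabilizer Q A with hH
    have h1 := kc_le_index H
    have h3 : H.index ≤ 2 ^ n := by
      rw [hH, index_stabilizer]
      calc (orbit Q A).ncard ≤ Nat.card (Finset α) := by
            rw [← Set.ncard_univ]
            exact Set.ncard_le_ncard (Set.subset_univ _) (Set.toFinite _)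
        _ = 2 ^ n := by rw [Nat.card_eq_fintype_card, Fintype.card_finset, hα']
    have hmem : ∀ (g : H) (x : α), ((g : Q) : Perm α) x ∈ A ↔ x ∈ A := by
      intro g x
      have e1 : (g : Q) • A = A := g.2
      constructor
      · intro hx
        rw [← e1, Finset.mem_smul_finset] at hx
        obtain ⟨y, hy, hyx⟩ := hx
        have : y = x := ((g : Q) : Perm α).injective hyx
        rw [← this]
        exact hy
      · intro hx
        rw [← e1]
        exact Finset.smul_mem_smul_finset hx
    let f : H →* Perm {x // x ∈ A} :=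
      { toFun := fun g => ((g : Q) : Perm α).subtypePerm (fun x => hmem g x)
        map_one' := by ext x; simp
        map_mul' := fun a b => by ext x; simp; try rfl }
    have hf : Function.Injective f := by
      rw [injective_iff_map_eq_one]
      intro g hg
      apply Subtype.ext
      apply Subtype.ext
      apply hA2 _ (g : Q).2
      intro z hz
      have := congrArg (fun σ => ((σ ⟨z, hz⟩ : {x // x ∈ A}) : α)) hg
      simpa [f] using this
    have h4 : kc H ≤ 4 ^ (A.card - 1) := by
      rw [kc_of_injective f hf]
      have hlt : A.card < n := by omega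
      exact hn _ hlt {x // x ∈ A} (by simp) _
    calc kc Q ≤ H.index * kc H := h1
      _ ≤ 2 ^ n * 4 ^ (A.card - 1) := by gcongr
      _ ≤ 4 ^ (n - 1) := by
          rw [show (4 : ℕ) = 2 ^ 2 by norm_num, ← pow_mul, ← pow_mul, ← pow_add]
          apply Nat.pow_le_pow_right (by norm_num)
          omega

/-- every permutation group of degree `n` has at most `4^(n-1)` conjugacy classes -/
theorem kr_all : ∀ n, KRb n := by
  intro n
  induction n using Nat.strong_induction_on with
  | _ n hn =>
  intro α _ hα Q
  classical
  have := Fintype.ofFinite α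
  rcases isEmpty_or_nonempty α with he | hne
  · have : Subsingleton Q := ⟨fun a b => by
      apply Subtype.ext
      ext x
      exact he.elim x⟩
    rw [kc_subsingleton]
    exact Nat.one_le_pow _ _ (by norm_num)
  by_cases ht : IsPretransitive Q α
  · rcases Nat.lt_or_ge n 2 with h2 | h2
    · have : Subsingleton α := by
        rw [← Fintype.card_le_one_iff_subsingleton, ← Nat.card_eq_fintype_card]
        omega
      have : Subsingleton Q := ⟨fun a b => by
        apply Subtype.ext
        ext x
        exact Subsingleton.elim _ _⟩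
      rw [kc_subsingleton]
      exact Nat.one_le_pow _ _ (by norm_num)
    have hnt : Nontrivial α := by
      rw [← Fintype.one_lt_card_iff_nontrivial, ← Nat.card_eq_fintype_card]
      omega
    by_cases hp : IsPreprimitive Q α
    · exact kr_prim n hn α hα Q hp
    · obtain ⟨a⟩ := hne
      rw [← isCoatom_stabilizer_iff_preprimitive (G := Q) a] at hp
      have hne2 : stabilizer Q a ≠ ⊤ := by
        intro e
        obtain ⟨b, hb⟩ := exists_ne a
        obtain ⟨g, hg⟩ := exists_smul_eq Q a b
        have : g ∈ stabilizer Q a := by rw [e]; trivial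
        rw [mem_stabilizer_iff, hg] at this
        exact hb this
      unfold IsCoatom at hp
      push Not at hp
      obtain ⟨L, hL1, hL2⟩ := hp hne2
      exact kr_imprim n hn α hα Q a L hL1 hL2
  · exact kr_intrans n hn α hα Q ht

/-- version for group actions given by an injective homomorphism -/
theorem kr_inj {G : Type} [Group G] [Finite G] (α : Type) [Finite α] (f : G →* Perm α)
    (hf : Function.Injective f) : kc G ≤ 4 ^ (Nat.card α - 1) := by
  rw [kc_of_injective f hf]
  exact kr_all _ α rfl _

end Pool.Agent.ACD8
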