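import Pool.Agent.Work.MP_76dc41_al.H8.Coset

set_option autoImplicit false

open Representation LinearMap

noncomputable section

namespace Pool.Agent.ACD8

section

variable {G : Type} [Group G] [Fintype G]

theorem dg_pos (χ : IrrC G) : 0 < dg χ := by
  have := ((irr_iff (md χ)).1 (md_irr χ)).1
  by_contra h
  have h0 : dg χ = 0 := by omega
  obtain ⟨w, hw⟩ := exists_ne (0 : Fin (dg χ) → ℂ)
  apply hw
  ext x
  exact absurd x.2 (by omega)

variable (N : Subgroup G) [N.Normal]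

theorem dg_cj (g : G) (θ : IrrC N) : dg (cj N g θ) = dg θ := by
  have h1 := dg_eq (cj N g θ)
  have h2 := dg_eq θ
  have h3 : (cj N g θ).1 1 = θ.1 1 := by
    show θ.1 (MulAut.conjNormal g 1) = θ.1 1
    rw [map_one]
  rw [h1, h2] at h3
  exact_mod_cast h3

open scoped Classical in
/-- set of constituents of the restriction -/
def cst (χ : IrrC G) : Finset (IrrC N) := Finset.univ.filter (fun θ => mu N χ θ ≠ 0)

theorem mem_cst (χ : IrrC G) (θ : IrrC N) : θ ∈ cst N χ ↔ mu N χ θ ≠ 0 := by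
  classical
  simp [cst]

theorem cst_nonempty (χ : IrrC G) : (cst N χ).Nonempty := by
  classical
  by_contra h
  rw [Finset.not_nonempty_iff_eq_empty] at h
  have h1 := mu_degree N χ
  have h2 : ∑ θ, mu N χ θ * dg θ = 0 := by
    refine Finset.sum_eq_zero fun θ _ => ?_
    have : θ ∉ cst N χ := by rw [h]; simp
    rw [mem_cst] at this
    push Not at this
    rw [this, zero_mul]
  have := dg_pos χ
  omega

/-- two irreducible characters with a common constituent have the same constituents -/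
theorem cst_eq (χ χ' : IrrC G) (θ : IrrC N) (h1 : θ ∈ cst N χ) (h2 : θ ∈ cst N χ') :
    cst N χ = cst N χ' := by
  rw [mem_cst] at h1 h2
  ext η
  rw [mem_cst, mem_cst]
  constructor
  · intro h
    obtain ⟨g, rfl⟩ := clifford_conn N χ θ η h1 h
    rw [mu_cj]
    exact h2
  · intro h
    obtain ⟨g, rfl⟩ := clifford_conn N χ' θ η h2 h
    rw [mu_cj]
    exact h1

theorem mu_const (χ : IrrC G) (θ η : IrrC N) (h1 : θ ∈ cst N χ) (h2 : η ∈ cst N χ) :
    mu N χ η = mu N χ θ ∧ dg η = dg θ := by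
  rw [mem_cst] at h1 h2
  obtain ⟨g, rfl⟩ := clifford_conn N χ θ η h1 h2
  exact ⟨mu_cj N χ θ g, dg_cj N g θ⟩

theorem dg_formula (χ : IrrC G) (θ : IrrC N) (h : θ ∈ cst N χ) :
    dg χ = (cst N χ).card * (mu N χ θ * dg θ) := by
  classical
  have h1 : ∑ θ, mu N χ θ * dg θ = ∑ θ ∈ cst N χ, mu N χ θ * dg θ := by
    symm
    apply Finset.sum_subset (Finset.subset_univ _)
    intro η _ hη
    rw [mem_cst] at hη
    push Not at hη
    rw [hη, zero_mul]
  rw [mu_degree N χ, h1, Finset.sum_congr rfl (g := fun _ => mu N χ θ * dg θ)]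
  · simp
  · intro η hη
    obtain ⟨a, b⟩ := mu_const N χ θ η h hη
    rw [a, b]

open scoped Classical in
/-- irreducible characters with given set of constituents -/
def fib (O : Finset (IrrC N)) : Finset (IrrC G) := Finset.univ.filter (fun χ => cst N χ = O)

theorem mem_fib (O : Finset (IrrC N)) (χ : IrrC G) : χ ∈ fib N O ↔ cst N χ = O := by
  classical
  simp [fib]

theorem fib_sq (χ₀ : IrrC G) (θ : IrrC N) (h : θ ∈ cst N χ₀) :
    (∑ χ ∈ fib N (cst N χ₀), dg χ ^ 2) * Nat.card N =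
      Nat.card G * ((cst N χ₀).card * dg θ ^ 2) := by
  classical
  have h1 : ∑ χ ∈ fib N (cst N χ₀), dg χ ^ 2 =
      (cst N χ₀).card * dg θ * ∑ χ : IrrC G, dg χ * mu N χ θ := by
    rw [Finset.mul_sum]
    have : ∑ χ : IrrC G, (cst N χ₀).card * dg θ * (dg χ * mu N χ θ) =
        ∑ χ ∈ fib N (cst N χ₀), (cst N χ₀).card * dg θ * (dg χ * mu N χ θ) := by
      symm
      apply Finset.sum_subset (Finset.subset_univ _)
      intro χ _ hχ
      rw [mem_fib] at hχ
      have h2 : mu N χ θ = 0 := by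
        by_contra h3
        exact hχ (cst_eq N χ χ₀ θ ((mem_cst N χ θ).2 h3) h)
      rw [h2]
      ring
    rw [this]
    refine Finset.sum_congr rfl fun χ hχ => ?_
    rw [mem_fib] at hχ
    have h2 : θ ∈ cst N χ := by rw [hχ]; exact h
    have h3 := dg_formula N χ θ h2
    rw [hχ] at h3
    calc dg χ ^ 2 = dg χ * dg χ := by ring
      _ = dg χ * ((cst N χ₀).card * (mu N χ θ * dg θ)) := by rw [← h3]
      _ = _ := by ring
  rw [h1, mul_assoc, mu_sum]
  ring

/-- the basic inequality on a block -/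
theorem fib_ineq (χ₀ : IrrC G) :
    (Nat.card (G ⧸ N)) * (fib N (cst N χ₀)).card ^ 3 ≤
      (∑ χ ∈ fib N (cst N χ₀), dg χ) ^ 3 * Nat.card (ConjClasses (G ⧸ N)) ^ 2 := by
  classical
  set F := fib N (cst N χ₀) with hF
  set t := (cst N χ₀).card with ht
  set T := ∑ χ ∈ F, dg χ with hT
  set k := Nat.card (ConjClasses (G ⧸ N)) with hk
  obtain ⟨θ, hθ⟩ := cst_nonempty N χ₀
  -- (i)
  have h1 : t * F.card ≤ T := by
    rw [hT, mul_comm, ← smul_eq_mul]
    apply Finset.card_nsmul_le_sum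
    intro χ hχ
    rw [hF, mem_fib] at hχ
    have h2 : θ ∈ cst N χ := by rw [hχ]; exact hθ
    have h3 := dg_formula N χ θ h2
    rw [hχ] at h3
    rw [h3]
    have h4 := dg_pos θ
    have h5 : 0 < mu N χ θ := Nat.pos_of_ne_zero ((mem_cst N χ θ).1 h2)
    exact Nat.le_mul_of_pos_right _ (Nat.mul_pos h5 h4)
  -- (ii)
  have h2 : Nat.card (G ⧸ N) * t ≤ T ^ 2 := by
    have h3 := fib_sq N χ₀ θ hθ
    have h4 : ∑ χ ∈ F, dg χ ^ 2 ≤ T ^ 2 := by
      rw [hT]
      exact Finset.sum_sq_le_sq_sum_of_nonneg (fun _ _ => Nat.zero_le _)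
    have h5 : Nat.card G = Nat.card (G ⧸ N) * Nat.card N := Subgroup.card_eq_card_quotient_mul_card_subgroup N
    rw [h5] at h3
    have h6 : 0 < Nat.card N := Nat.card_pos
    have h7 : ∑ χ ∈ F, dg χ ^ 2 = Nat.card (G ⧸ N) * (t * dg θ ^ 2) := by
      apply Nat.eq_of_mul_eq_mul_right h6
      rw [h3]
      ring
    rw [← h7.symm] at h4
    have h8 : 1 ≤ dg θ ^ 2 := Nat.one_le_pow _ _ (dg_pos θ)
    calc Nat.card (G ⧸ N) * t = Nat.card (G ⧸ N) * (t * 1) := by ring
      _ ≤ Nat.card (G ⧸ N) * (t * dg θ ^ 2) := by gcongr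
      _ = ∑ χ ∈ F, dg χ ^ 2 := h7.symm
      _ ≤ T ^ 2 := by
        rw [hT]
        exact Finset.sum_sq_le_sq_sum_of_nonneg (fun _ _ => Nat.zero_le _)
  -- (iii)
  have h3 : F.card ≤ t * k := by
    have := card_fiber_le N (cst N χ₀)
    have h4 : F = Finset.univ.filter (fun χ : IrrC G =>
        Finset.univ.filter (fun θ => mu N χ θ ≠ 0) = cst N χ₀) := by
      ext χ
      rw [hF, mem_fib]
      simp [cst]
    rw [h4]
    exact this
  calc Nat.card (G ⧸ N) * F.card ^ 3 = Nat.card (G ⧸ N) * F.card * F.card ^ 2 := by ring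
    _ ≤ Nat.card (G ⧸ N) * F.card * (t * k) ^ 2 := by gcongr
    _ = (t * F.card) * (Nat.card (G ⧸ N) * t) * k ^ 2 := by ring
    _ ≤ T * T ^ 2 * k ^ 2 := by gcongr
    _ = T ^ 3 * k ^ 2 := by ring

end

/-- average degree of the irreducible complex characters -/
def acd (G : Type) [Group G] [Fintype G] : ℝ := (∑ χ : IrrC G, (dg χ : ℝ)) / (Nat.card (IrrC G) : ℝ)

theorem irr_nonempty (G : Type) [Group G] [Fintype G] : 0 < Nat.card (IrrC G) := by
  have h := sum_sq (G := G)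
  have h1 : 0 < Nat.card G := Nat.card_pos
  by_contra h2
  have h3 : Nat.card (IrrC G) = 0 := by omega
  have h4 : IsEmpty (IrrC G) := by
    rw [Nat.card_eq_fintype_card, Fintype.card_eq_zero_iff] at h3
    exact h3
  rw [Finset.univ_eq_empty, Finset.sum_empty] at h
  omega

/-- **Theorem.** `|G/N| ≤ acd(G)^3 k(G/N)^2` for every normal subgroup `N` -/
theorem main (G : Type) [Group G] [Fintype G] (N : Subgroup G) [N.Normal] :
    (Nat.card (G ⧸ N) : ℝ) ≤ acd G ^ 3 * (Nat.card (ConjClasses (G ⧸ N)) : ℝ) ^ 2 := by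
  classical
  set k := Nat.card (ConjClasses (G ⧸ N)) with hk
  have hkpos : 0 < (k : ℝ) := by
    have : 0 < k := Nat.card_pos
    exact_mod_cast this
  set c : ℝ := (Nat.card (G ⧸ N) : ℝ) with hc
  have hcpos : 0 ≤ c := by positivity
  set l : ℝ := (c / k ^ 2) ^ ((1 : ℝ) / 3) with hl
  have hlnn : 0 ≤ l := by positivity
  have hl3 : l ^ 3 = c / k ^ 2 := by
    rw [hl, ← Real.rpow_natCast, ← Real.rpow_mul (by positivity)]
    norm_num
  have hF : ∀ χ₀ : IrrC G, l * ((fib N (cst N χ₀)).card : ℝ) ≤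
      ∑ χ ∈ fib N (cst N χ₀), (dg χ : ℝ) := by
    intro χ₀
    have h1 := fib_ineq N χ₀
    have h2 : c * ((fib N (cst N χ₀)).card : ℝ) ^ 3 ≤
        (∑ χ ∈ fib N (cst N χ₀), (dg χ : ℝ)) ^ 3 * (k : ℝ) ^ 2 := by
      rw [hc, hk]
      exact_mod_cast h1
    have h3 : (l * ((fib N (cst N χ₀)).card : ℝ)) ^ 3 ≤
        (∑ χ ∈ fib N (cst N χ₀), (dg χ : ℝ)) ^ 3 := by
      rw [mul_pow, hl3, div_mul_eq_mul_div, div_le_iff₀ (by positivity)]
      exact h2
    exact le_of_pow_le_pow_left₀ (by norm_num) (by positivity) h3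
  have hsum : l * (Nat.card (IrrC G) : ℝ) ≤ ∑ χ : IrrC G, (dg χ : ℝ) := by
    have e1 : (∑ χ : IrrC G, (dg χ : ℝ)) =
        ∑ O : Finset (IrrC N), ∑ χ ∈ fib N O, (dg χ : ℝ) := by
      rw [← Finset.sum_fiberwise Finset.univ (fun χ => cst N χ)]
      rfl
    have e2 : (Nat.card (IrrC G) : ℝ) = ∑ O : Finset (IrrC N), ((fib N O).card : ℝ) := by
      have : (Nat.card (IrrC G) : ℝ) = ∑ χ : IrrC G, (1 : ℝ) := by
        simp [Nat.card_eq_fintype_card]
      rw [this, ← Finset.sum_fiberwise Finset.univ (fun χ => cst N χ)]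
      refine Finset.sum_congr rfl fun O _ => ?_
      simp [fib]
    rw [e1, e2, Finset.mul_sum]
    refine Finset.sum_le_sum fun O _ => ?_
    by_cases hO : (fib N O).Nonempty
    · obtain ⟨χ₀, hχ⟩ := hO
      rw [mem_fib] at hχ
      rw [← hχ]
      exact hF χ₀
    · rw [Finset.not_nonempty_iff_eq_empty] at hO
      rw [hO]
      simp
  have hacd : l ≤ acd G := by
    unfold acd
    rw [le_div_iff₀ (by exact_mod_cast irr_nonempty G)]
    exact hsum
  calc c = l ^ 3 * (k : ℝ) ^ 2 := by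
        rw [hl3]
        field_simp
    _ ≤ acd G ^ 3 * (k : ℝ) ^ 2 := by gcongr

end Pool.Agent.ACD8
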