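import Pool.Agent.Work.MP_76dc41_al.H8.Stab
import Pool.Agent.Work.MP_76dc41_al.H8.Induct

set_option autoImplicit false

open Representation LinearMap

noncomputable section

namespace Pool.Agent.ACD8

variable {G : Type} [Group G] [Fintype G] (N : Subgroup G) [N.Normal]

/-- the three inequalities on a block -/
theorem block (χ₀ : IrrC G) : ∃ X : Subgroup (G ⧸ N),
    X.index * (fib N (cst N χ₀)).card ≤ ∑ χ ∈ fib N (cst N χ₀), dg χ ∧
    Nat.card (G ⧸ N) * X.index ≤ (∑ χ ∈ fib N (cst N χ₀), dg χ) ^ 2 ∧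
    (fib N (cst N χ₀)).card ≤ kc X := by
  classical
  obtain ⟨θ, hθ⟩ := cst_nonempty N χ₀
  refine ⟨stq N θ, ?_, ?_, card_fib_le_stab N χ₀ θ hθ⟩
  · rw [← card_cst_eq N χ₀ θ hθ, mul_comm, ← smul_eq_mul]
    apply Finset.card_nsmul_le_sum
    intro χ hχ
    rw [mem_fib] at hχ
    have h2 : θ ∈ cst N χ := by rw [hχ]; exact hθ
    have h3 := dg_formula N χ θ h2
    rw [hχ] at h3
    rw [h3]
    have h4 := dg_pos θ
    have h5 : 0 < mu N χ θ := Nat.pos_of_ne_zero ((mem_cst N χ θ).1 h2)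
    exact Nat.le_mul_of_pos_right _ (Nat.mul_pos h5 h4)
  · rw [← card_cst_eq N χ₀ θ hθ]
    set t := (cst N χ₀).card with ht
    have h3 := fib_sq N χ₀ θ hθ
    have h5 : Nat.card G = Nat.card (G ⧸ N) * Nat.card N :=
      Subgroup.card_eq_card_quotient_mul_card_subgroup N
    rw [h5] at h3
    have h6 : 0 < Nat.card N := Nat.card_pos
    have h7 : ∑ χ ∈ fib N (cst N χ₀), dg χ ^ 2 = Nat.card (G ⧸ N) * (t * dg θ ^ 2) := by
      apply Nat.eq_of_mul_eq_mul_right h6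
      rw [h3]
      ring
    have h8 : 1 ≤ dg θ ^ 2 := Nat.one_le_pow _ _ (dg_pos θ)
    calc Nat.card (G ⧸ N) * t = Nat.card (G ⧸ N) * (t * 1) := by ring
      _ ≤ Nat.card (G ⧸ N) * (t * dg θ ^ 2) := by gcongr
      _ = ∑ χ ∈ fib N (cst N χ₀), dg χ ^ 2 := h7.symm
      _ ≤ (∑ χ ∈ fib N (cst N χ₀), dg χ) ^ 2 :=
        Finset.sum_sq_le_sq_sum_of_nonneg (fun _ _ => Nat.zero_le _)

/-- some block has at most the average degree -/
theorem exists_block : ∃ χ₀ : IrrC G, ((∑ χ ∈ fib N (cst N χ₀), dg χ : ℕ) : ℝ) ≤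
    acd G * ((fib N (cst N χ₀)).card : ℝ) := by
  classical
  by_contra hcon
  push Not at hcon
  have hne : Nonempty (IrrC G) := by
    have := irr_nonempty G
    exact (Nat.card_pos_iff.1 this).1
  have e1 : (∑ χ : IrrC G, (dg χ : ℝ)) =
      ∑ O : Finset (IrrC N), ((∑ χ ∈ fib N O, dg χ : ℕ) : ℝ) := by
    rw [← Finset.sum_fiberwise Finset.univ (fun χ => cst N χ)]
    push_cast
    rfl
  have e2 : (Nat.card (IrrC G) : ℝ) = ∑ O : Finset (IrrC N), ((fib N O).card : ℝ) := by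
    have : (Nat.card (IrrC G) : ℝ) = ∑ χ : IrrC G, (1 : ℝ) := by
      simp [Nat.card_eq_fintype_card]
    rw [this, ← Finset.sum_fiberwise Finset.univ (fun χ => cst N χ)]
    refine Finset.sum_congr rfl fun O _ => ?_
    simp [fib]
  have h1 : acd G * (Nat.card (IrrC G) : ℝ) < ∑ χ : IrrC G, (dg χ : ℝ) := by
    rw [e1, e2, Finset.mul_sum]
    apply Finset.sum_lt_sum
    · intro O _
      by_cases hO : (fib N O).Nonempty
      · obtain ⟨χ₀, hχ⟩ := hO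
        rw [mem_fib] at hχ
        rw [← hχ]
        exact (hcon χ₀).le
      · rw [Finset.not_nonempty_iff_eq_empty] at hO
        rw [hO]
        simp
    · obtain ⟨χ₀⟩ := hne
      exact ⟨cst N χ₀, Finset.mem_univ _, hcon χ₀⟩
  have h2 : acd G * (Nat.card (IrrC G) : ℝ) = ∑ χ : IrrC G, (dg χ : ℝ) := by
    unfold acd
    have : (Nat.card (IrrC G) : ℝ) ≠ 0 := by
      have := irr_nonempty G
      exact_mod_cast this.ne'
    field_simp
  rw [h2] at h1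
  exact lt_irrefl _ h1

theorem fib_card_pos (χ₀ : IrrC G) : 0 < (fib N (cst N χ₀)).card :=
  Finset.card_pos.2 ⟨χ₀, (mem_fib N _ _).2 rfl⟩

/-- **Master theorem** -/
theorem master : ∃ X : Subgroup (G ⧸ N), (X.index : ℝ) ≤ acd G ∧
    (Nat.card (G ⧸ N) : ℝ) * X.index ≤ acd G ^ 2 * (kc X : ℝ) ^ 2 := by
  obtain ⟨χ₀, h⟩ := exists_block N
  obtain ⟨X, h1, h2, h3⟩ := block N χ₀
  have hpos := fib_card_pos N χ₀
  set c := (fib N (cst N χ₀)).card with hc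
  set T := ∑ χ ∈ fib N (cst N χ₀), dg χ with hT
  have hcR : (0 : ℝ) < c := by exact_mod_cast hpos
  have h1R : (X.index : ℝ) * c ≤ T := by exact_mod_cast h1
  have h2R : (Nat.card (G ⧸ N) : ℝ) * X.index ≤ (T : ℝ) ^ 2 := by exact_mod_cast h2
  have h3R : (c : ℝ) ≤ kc X := by exact_mod_cast h3
  have hacd : 0 ≤ acd G := by
    unfold acd
    positivity
  refine ⟨X, ?_, ?_⟩
  · have : (X.index : ℝ) * c ≤ acd G * c := h1R.trans h
    exact le_of_mul_le_mul_right this hcR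
  · calc (Nat.card (G ⧸ N) : ℝ) * X.index ≤ (T : ℝ) ^ 2 := h2R
      _ ≤ (acd G * c) ^ 2 := by gcongr
      _ ≤ (acd G * kc X) ^ 2 := by gcongr
      _ = acd G ^ 2 * (kc X : ℝ) ^ 2 := by ring

theorem acd_nonneg (G : Type) [Group G] [Fintype G] : 0 ≤ acd G := by
  unfold acd
  positivity

/-- `|G/N| ≤ acd(G)^3 k(G/N)^2` -/
theorem main' : (Nat.card (G ⧸ N) : ℝ) ≤ acd G ^ 3 * (kc (G ⧸ N) : ℝ) ^ 2 := by
  obtain ⟨X, h1, h2⟩ := master N
  have h3 := kc_sub X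
  have h3R : (kc X : ℝ) ≤ X.index * kc (G ⧸ N) := by exact_mod_cast h3
  have hpos : (0 : ℝ) < X.index := by
    exact_mod_cast Nat.pos_of_ne_zero X.index_ne_zero_of_finite
  have hacd := acd_nonneg G
  have h4 : (Nat.card (G ⧸ N) : ℝ) * X.index ≤
      (acd G ^ 3 * (kc (G ⧸ N) : ℝ) ^ 2) * X.index := by
    calc (Nat.card (G ⧸ N) : ℝ) * X.index ≤ acd G ^ 2 * (kc X : ℝ) ^ 2 := h2
      _ ≤ acd G ^ 2 * (X.index * kc (G ⧸ N)) ^ 2 := by gcongr
      _ = acd G ^ 2 * X.index * (kc (G ⧸ N) : ℝ) ^ 2 * X.index := by ring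
      _ ≤ acd G ^ 2 * acd G * (kc (G ⧸ N) : ℝ) ^ 2 * X.index := by gcongr
      _ = _ := by ring
  exact le_of_mul_le_mul_right h4 hpos

/-- criterion with class numbers of subgroups -/
theorem four_of_phi (h : ∀ X : Subgroup (G ⧸ N), kc X ^ 4 ≤ X.index ^ 2 * Nat.card (G ⧸ N)) :
    (Nat.card (G ⧸ N) : ℝ) ≤ acd G ^ 4 := by
  obtain ⟨X, h1, h2⟩ := master N
  have h3 : (kc X : ℝ) ^ 4 ≤ (X.index : ℝ) ^ 2 * Nat.card (G ⧸ N) := by exact_mod_cast h X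
  have hpos : (0 : ℝ) < X.index := by
    exact_mod_cast Nat.pos_of_ne_zero X.index_ne_zero_of_finite
  have hc : (0 : ℝ) < Nat.card (G ⧸ N) := by exact_mod_cast Nat.card_pos
  have h4 : (Nat.card (G ⧸ N) : ℝ) * ((Nat.card (G ⧸ N) : ℝ) * X.index ^ 2) ≤
      acd G ^ 4 * ((Nat.card (G ⧸ N) : ℝ) * X.index ^ 2) := by
    calc (Nat.card (G ⧸ N) : ℝ) * ((Nat.card (G ⧸ N) : ℝ) * X.index ^ 2)
        = ((Nat.card (G ⧸ N) : ℝ) * X.index) ^ 2 := by ring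
      _ ≤ (acd G ^ 2 * (kc X : ℝ) ^ 2) ^ 2 := by gcongr
      _ = acd G ^ 4 * (kc X : ℝ) ^ 4 := by ring
      _ ≤ acd G ^ 4 * ((X.index : ℝ) ^ 2 * Nat.card (G ⧸ N)) := by gcongr
      _ = _ := by ring
  exact le_of_mul_le_mul_right h4 (by positivity)

/-- criterion with the class number of the quotient -/
theorem four_of_kc (h : kc (G ⧸ N) ^ 8 ≤ Nat.card (G ⧸ N)) :
    (Nat.card (G ⧸ N) : ℝ) ≤ acd G ^ 4 := by
  have h1 := main' N
  have h2 : (kc (G ⧸ N) : ℝ) ^ 8 ≤ Nat.card (G ⧸ N) := by exact_mod_cast h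
  have hc : (0 : ℝ) < Nat.card (G ⧸ N) := by exact_mod_cast Nat.card_pos
  have hacd := acd_nonneg G
  set c : ℝ := (Nat.card (G ⧸ N) : ℝ) with hcdef
  have h3 : c ^ 3 * c ≤ (acd G ^ 4) ^ 3 * c := by
    calc c ^ 3 * c = c ^ 4 := by ring
      _ ≤ (acd G ^ 3 * (kc (G ⧸ N) : ℝ) ^ 2) ^ 4 := by gcongr
      _ = (acd G ^ 4) ^ 3 * (kc (G ⧸ N) : ℝ) ^ 8 := by ring
      _ ≤ (acd G ^ 4) ^ 3 * c := by gcongr
  have h4 : c ^ 3 ≤ (acd G ^ 4) ^ 3 := le_of_mul_le_mul_right h3 hc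
  exact le_of_pow_le_pow_left₀ (by norm_num) (by positivity) h4

end Pool.Agent.ACD8
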