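import Pool.Agent.Work.MP_76dc41_al.H8.SLgen
import Pool.Agent.Work.MP_76dc41_al.H8.Fin2
import Pool.Agent.Work.MP_76dc41_al.GLf

set_option autoImplicit false

open Matrix Matrix.SpecialLinearGroup

noncomputable section

namespace Pool.Agent.ACD8

open scoped Classical in
/-- elements whose centraliser has the order `c` -/
def Zc (S : Type) [Group S] [Fintype S] (c : ℕ) : Finset S :=
  Finset.univ.filter (fun z : S => Nat.card (Subgroup.centralizer {z}) = c)

theorem Zc_card (S : Type) [Group S] [Fintype S] (c : ℕ) : (Zc S c).card * c ≤ kc S * Nat.card S := by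
  classical
  have hcent : ∀ z : S, Nat.card (Subgroup.centralizer {z}) =
      (Finset.univ.filter (fun w : S => z * w = w * z)).card := by
    intro z
    rw [Nat.card_eq_fintype_card, Fintype.card_subtype]
    congr 1
    ext w
    simp [Subgroup.mem_centralizer_iff]
  rw [← comm_count S]
  calc (Zc S c).card * c = ∑ z ∈ Zc S c, c := by rw [Finset.sum_const, smul_eq_mul]
    _ = ∑ z ∈ Zc S c, (Finset.univ.filter (fun w : S => z * w = w * z)).card := by
        refine Finset.sum_congr rfl fun z hz => ?_
        rw [← hcent z]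
        exact (Finset.mem_filter.1 hz).2.symm
    _ ≤ _ := Finset.sum_le_sum_of_subset (Finset.subset_univ _)

theorem Zc_mem (S : Type) [Group S] [Fintype S] (x : S) (φ : MulAut S) :
    φ x ∈ Zc S (Nat.card (Subgroup.centralizer {x})) := by
  classical
  rw [Zc, Finset.mem_filter]
  refine ⟨Finset.mem_univ _, ?_⟩
  symm
  apply Nat.card_congr
  refine
    { toFun := fun w => ⟨φ w, ?_⟩
      invFun := fun w => ⟨φ.symm w, ?_⟩
      left_inv := fun w => Subtype.ext (φ.symm_apply_apply _)
      right_inv := fun w => Subtype.ext (φ.apply_symm_apply _) }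
  · rw [Subgroup.mem_centralizer_iff]
    rintro v hv
    rw [Set.mem_singleton_iff] at hv
    have := (Subgroup.mem_centralizer_iff.1 w.2) x rfl
    rw [hv, ← map_mul, ← map_mul, this]
  · rw [Subgroup.mem_centralizer_iff]
    rintro v hv
    rw [Set.mem_singleton_iff] at hv
    have := (Subgroup.mem_centralizer_iff.1 w.2) (φ x) rfl
    rw [hv]
    apply φ.injective
    rw [map_mul, map_mul]
    show φ x * φ (φ.symm w) = φ (φ.symm w) * φ x
    rw [φ.apply_symm_apply]
    exact this

/-- automorphisms of a group with three generators -/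
theorem aut_bound3 (S : Type) [Group S] [Finite S] (x z y : S)
    (h : Subgroup.closure {x, z, y} = ⊤) :
    Nat.card (MulAut S) * (Nat.card (Subgroup.centralizer {x}) *
      Nat.card (Subgroup.centralizer {z})) ≤
      (kc S * Nat.card S) * (kc S * Nat.card S) * Nat.card S := by
  classical
  have := Fintype.ofFinite S
  set c := Nat.card (Subgroup.centralizer {x}) with hc
  set d := Nat.card (Subgroup.centralizer {z}) with hd
  have h2 : Nat.card (MulAut S) ≤ (Zc S c).card * (Zc S d).card * Nat.card S := by
    have e : Nat.card (Zc S c × Zc S d × S) = (Zc S c).card * (Zc S d).card * Nat.card S := by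
      rw [Nat.card_prod, Nat.card_prod]
      simp [mul_assoc]
    rw [← e]
    apply Nat.card_le_card_of_injective
      (fun φ : MulAut S => ((⟨φ x, Zc_mem S x φ⟩ : Zc S c), (⟨φ z, Zc_mem S z φ⟩ : Zc S d), φ y))
    intro φ ψ hφψ
    have e1 : φ x = ψ x := congrArg (fun p : Zc S c × Zc S d × S => (p.1 : S)) hφψ
    have e2 : φ z = ψ z := congrArg (fun p : Zc S c × Zc S d × S => (p.2.1 : S)) hφψ
    have e3 : φ y = ψ y := congrArg (fun p : Zc S c × Zc S d × S => p.2.2) hφψ
    have e4 : φ.toMonoidHom = ψ.toMonoidHom := by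
      apply MonoidHom.eq_of_eqOn_dense h
      rintro w hw
      rcases hw with hw | hw | hw
      · rw [hw]; exact e1
      · rw [hw]; exact e2
      · rw [Set.mem_singleton_iff.1 hw]; exact e3
    ext w
    exact congrArg (fun f => f w) e4
  have h3 := Zc_card S c
  have h4 := Zc_card S d
  calc Nat.card (MulAut S) * (c * d) ≤ ((Zc S c).card * (Zc S d).card * Nat.card S) * (c * d) := by
        gcongr
    _ = ((Zc S c).card * c) * ((Zc S d).card * d) * Nat.card S := by ring
    _ ≤ (kc S * Nat.card S) * (kc S * Nat.card S) * Nat.card S := by gcongr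

/-- few conjugates, large centraliser -/
theorem card_le_cent (S : Type) [Group S] [Finite S] (x : S) (P : Type) [Finite P] (f : S → P)
    (hf : ∀ g h, f g = f h → g * x * g⁻¹ = h * x * h⁻¹) :
    Nat.card S ≤ Nat.card P * Nat.card (Subgroup.centralizer {x}) := by
  rw [Subgroup.card_eq_card_quotient_mul_card_subgroup (Subgroup.centralizer {x})]
  apply Nat.mul_le_mul_right
  apply Nat.card_le_card_of_injective (fun q : S ⧸ Subgroup.centralizer {x} => f q.out)
  intro q r hqr
  have h1 := hf _ _ hqr
  rw [← q.out_eq', ← r.out_eq']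
  show (QuotientGroup.mk q.out : S ⧸ Subgroup.centralizer {x}) = QuotientGroup.mk r.out
  rw [QuotientGroup.eq, Subgroup.mem_centralizer_iff]
  intro v hv
  rw [Set.mem_singleton_iff] at hv
  rw [hv]
  have h2 : x = q.out⁻¹ * (r.out * x * r.out⁻¹) * q.out := by
    rw [← h1]; group
  calc x * (q.out⁻¹ * r.out) = (q.out⁻¹ * (r.out * x * r.out⁻¹) * q.out) * (q.out⁻¹ * r.out) := by
        rw [← h2]
    _ = q.out⁻¹ * r.out * x := by group

section

variable {ι F : Type} [Fintype ι] [DecidableEq ι] [Field F] [Finite F]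

/-- centralisers of transvections in `PSL` -/
theorem psl_cent {i j : ι} (hij : i ≠ j) (a : F) :
    Nat.card (ProjectiveSpecialLinearGroup ι F) ≤ Nat.card F ^ (2 * Fintype.card ι) *
      Nat.card (Subgroup.centralizer
        {(QuotientGroup.mk (transvection hij a) : ProjectiveSpecialLinearGroup ι F)}) := by
  have hP : Nat.card ((ι → F) × (ι → F)) = Nat.card F ^ (2 * Fintype.card ι) := by
    rw [Nat.card_prod, Nat.card_fun, Nat.card_eq_fintype_card (α := ι), two_mul, pow_add]
  rw [← hP]
  have : Finite (SpecialLinearGroup ι F) := inferInstance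
  apply card_le_cent _ _ ((ι → F) × (ι → F))
    (fun g => ((fun k => (g.out : Matrix ι ι F) k i), (fun l => ((g.out)⁻¹ : SpecialLinearGroup ι F) j l)))
  intro g h hgh
  have e1 : (fun k => (g.out : Matrix ι ι F) k i) = (fun k => (h.out : Matrix ι ι F) k i) :=
    congrArg Prod.fst hgh
  have e2 : (fun l => ((g.out)⁻¹ : SpecialLinearGroup ι F) j l) =
    (fun l => ((h.out)⁻¹ : SpecialLinearGroup ι F) j l) := congrArg Prod.snd hgh
  have key : ∀ (u : SpecialLinearGroup ι F) (k l : ι),
      (u * transvection hij a * u⁻¹ : SpecialLinearGroup ι F) k l =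
      (1 : Matrix ι ι F) k l + u k i * a * (u⁻¹ : SpecialLinearGroup ι F) j l := by
    intro u k l
    have h1 : (u * transvection hij a * u⁻¹ : SpecialLinearGroup ι F) =
      ((u : Matrix ι ι F) * (1 + single i j a) * ((u⁻¹ : SpecialLinearGroup ι F) : Matrix ι ι F)) := by
      rw [coe_mul, coe_mul, transvection_coe]
    have h2 : (u : Matrix ι ι F) * ((u⁻¹ : SpecialLinearGroup ι F) : Matrix ι ι F) = 1 := by
      rw [← coe_mul, mul_inv_cancel, coe_one]
    have h3 : ((u : Matrix ι ι F) * (1 + single i j a) *
        ((u⁻¹ : SpecialLinearGroup ι F) : Matrix ι ι F)) =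
        1 + (u : Matrix ι ι F) * single i j a * ((u⁻¹ : SpecialLinearGroup ι F) : Matrix ι ι F) := by
      rw [mul_add, add_mul, mul_one, h2]
    have h4 := congrFun (congrFun (h1.trans h3) k) l
    refine h4.trans ?_
    rw [Matrix.add_apply]
    congr 1
    rw [Matrix.mul_apply]
    rw [Finset.sum_eq_single j]
    · simp
    · intro b _ hb
      rw [Matrix.mul_single_apply_of_ne _ _ _ _ _ hb, zero_mul]
    · intro h; exact absurd (Finset.mem_univ _) h
  have e3 : (g.out * transvection hij a * (g.out)⁻¹ : SpecialLinearGroup ι F) =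
      h.out * transvection hij a * (h.out)⁻¹ := by
    ext k l
    rw [key, key]
    have h1 : (g.out : Matrix ι ι F) k i = (h.out : Matrix ι ι F) k i := congrFun e1 k
    have h2 : ((g.out)⁻¹ : SpecialLinearGroup ι F) j l =
      ((h.out)⁻¹ : SpecialLinearGroup ι F) j l := congrFun e2 l
    rw [h1, h2]
  have h5 : ∀ u : ProjectiveSpecialLinearGroup ι F,
      u * (QuotientGroup.mk (transvection hij a) : ProjectiveSpecialLinearGroup ι F) * u⁻¹ =
      QuotientGroup.mk (u.out * transvection hij a * (u.out)⁻¹) := by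
    intro u
    conv_lhs => rw [← u.out_eq']
    rfl
  rw [h5, h5, e3]

end

end Pool.Agent.ACD8
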