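import Pool.Agent.Work.MP_76dc41_al.H8.PSL

set_option autoImplicit false

open Matrix Matrix.SpecialLinearGroup

noncomputable section

namespace Pool.Agent.ACD8

/-- `PSL` is generated by the images of two transvections and a monomial matrix -/
theorem psl_gen (m : ℕ) (F : Type) [Field F] [Finite F] :
    ∃ x z y : ProjectiveSpecialLinearGroup (Fin (m + 3)) F, Subgroup.closure {x, z, y} = ⊤ ∧
      Nat.card (ProjectiveSpecialLinearGroup (Fin (m + 3)) F) ≤
        Nat.card F ^ (2 * (m + 3)) * Nat.card (Subgroup.centralizer {x}) ∧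
      Nat.card (ProjectiveSpecialLinearGroup (Fin (m + 3)) F) ≤
        Nat.card F ^ (2 * (m + 3)) * Nat.card (Subgroup.centralizer {z}) := by
  have h01 : (0 : Fin (m + 3)) ≠ 1 := by
    intro h
    have := congrArg Fin.val h
    simp at this
  obtain ⟨g, hg⟩ := IsCyclic.exists_monoid_generator (α := Fˣ)
  have hω : ∀ a : F, a ≠ 0 → ∃ k : ℕ, a = (g : F) ^ k := by
    intro a ha
    obtain ⟨k, hk⟩ := hg (Units.mk0 a ha)
    refine ⟨k, ?_⟩
    have := congrArg Units.val hk
    simp at this
    exact this.symm
  refine ⟨QuotientGroup.mk (transvection h01 1), QuotientGroup.mk (transvection h01 (g : F)),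
    QuotientGroup.mk (wm (finRotate (m + 3)) 0), ?_, ?_, ?_⟩
  · set Q := Subgroup.closure {(QuotientGroup.mk (transvection h01 1) :
        ProjectiveSpecialLinearGroup (Fin (m + 3)) F), QuotientGroup.mk (transvection h01 (g : F)),
        QuotientGroup.mk (wm (finRotate (m + 3)) 0)} with hQ
    have h1 := sl_gen (g : F) hω (Q.comap (QuotientGroup.mk'
      (Subgroup.center (SpecialLinearGroup (Fin (m + 3)) F)))) h01
      (by
        rw [Subgroup.mem_comap]
        exact Subgroup.subset_closure (Or.inl rfl))
      (by
        rw [Subgroup.mem_comap]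
        exact Subgroup.subset_closure (Or.inr (Or.inl rfl)))
      (by
        rw [Subgroup.mem_comap]
        exact Subgroup.subset_closure (Or.inr (Or.inr rfl)))
    rw [eq_top_iff]
    intro u _
    obtain ⟨v, rfl⟩ := QuotientGroup.mk'_surjective
      (Subgroup.center (SpecialLinearGroup (Fin (m + 3)) F)) u
    have : v ∈ Q.comap (QuotientGroup.mk'
      (Subgroup.center (SpecialLinearGroup (Fin (m + 3)) F))) := by rw [h1]; trivial
    exact this
  · have := psl_cent (F := F) h01 1
    rw [Fintype.card_fin] at this
    exact this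
  · have := psl_cent (F := F) h01 (g : F)
    rw [Fintype.card_fin] at this
    exact this

/-- `PSL` as a section of `GL` -/
theorem psl_bound (n c : ℕ) (hn : 1 ≤ n) (F : Type) [Field F] [Finite F]
    (h : c ^ 7 * Nat.card F ^ (17 * n + 2) ≤ Nat.card F ^ (n ^ 2)) :
    c ^ 7 * kc (ProjectiveSpecialLinearGroup (Fin n) F) ^ 8 ≤
      Nat.card (ProjectiveSpecialLinearGroup (Fin n) F) := by
  classical
  have hq : 2 ≤ Nat.card F := Finite.one_lt_card
  have hu : Nat.card Fˣ < Nat.card F := by
    rw [Nat.card_units]
    omega
  set f : SpecialLinearGroup (Fin n) F →* GeneralLinearGroup (Fin n) F := toGL with hf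
  have hfi : Function.Injective f := toGL_injective
  set K := f.range with hK
  set e : SpecialLinearGroup (Fin n) F ≃* K := MonoidHom.ofInjective hfi with he
  set Z : Subgroup K := (Subgroup.center (SpecialLinearGroup (Fin n) F)).map e.toMonoidHom with hZ
  have hZn : Z.Normal := Subgroup.Normal.map inferInstance _ e.surjective
  -- the index
  have hidx : K.index < Nat.card F := by
    refine lt_of_le_of_lt ?_ hu
    have h1 : (GeneralLinearGroup.det : GeneralLinearGroup (Fin n) F →* Fˣ).ker ≤ K := by
      intro A hA
      rw [MonoidHom.mem_ker] at hA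
      have h2 : (A : Matrix (Fin n) (Fin n) F).det = 1 := by
        have := congrArg Units.val hA
        simpa using this
      refine ⟨⟨A, h2⟩, ?_⟩
      ext i j
      rfl
    have h2 : K.index ≤ (GeneralLinearGroup.det : GeneralLinearGroup (Fin n) F →* Fˣ).ker.index :=
      Nat.le_of_dvd (Nat.pos_of_ne_zero Subgroup.index_ne_zero_of_finite)
        (Subgroup.index_dvd_of_le h1)
    rw [Subgroup.index_ker] at h2
    exact h2.trans (Nat.card_le_card_of_injective _ (Subgroup.subtype_injective _))
  have hZc : Nat.card Z < Nat.card F := by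
    refine lt_of_le_of_lt ?_ hu
    have e1 : Nat.card Z = Nat.card (Subgroup.center (SpecialLinearGroup (Fin n) F)) :=
      Nat.card_congr ((Subgroup.center (SpecialLinearGroup (Fin n) F)).equivMapOfInjective
        e.toMonoidHom e.injective).toEquiv.symm
    rw [e1]
    have hex : ∀ A : Subgroup.center (SpecialLinearGroup (Fin n) F), ∃ r : Fˣ,
        scalar (Fin n) (r : F) = (A : SpecialLinearGroup (Fin n) F) := by
      intro A
      obtain ⟨r, hr1, hr2⟩ := mem_center_iff.1 A.2
      have : r ≠ 0 := by
        rintro rfl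
        rw [Fintype.card_fin, zero_pow (by omega)] at hr1
        exact zero_ne_one hr1
      exact ⟨Units.mk0 r this, hr2⟩
    choose r hr using hex
    apply Nat.card_le_card_of_injective r
    intro A B hAB
    apply Subtype.ext
    apply Subtype.ext
    rw [← hr, ← hr, hAB]
  have hmain := RadIndex.gl_bound n c F K hidx Z hZc h
  have E : ProjectiveSpecialLinearGroup (Fin n) F ≃* K ⧸ Z :=
    QuotientGroup.congr _ _ e rfl
  rw [kc_congr E, Nat.card_congr E.toEquiv]
  exact hmain

end Pool.Agent.ACD8
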