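import Pool.Agent.Work.MP_76dc41_al.H8.Base

set_option autoImplicit false

open Representation LinearMap

noncomputable section

namespace Pool.Agent.ACD8

variable {G : Type} [Group G]

/-- resolution of the identity through irreducible models -/
def RI {V : Type} [AddCommGroup V] [Module ℂ V] (ρ : Representation ℂ G V) : Prop :=
  ∃ (ι : Type) (_ : Fintype ι) (χ : ι → IrrC G) (i : ∀ j, (Fin (dg (χ j)) → ℂ) →ₗ[ℂ] V)
    (q : ∀ j, V →ₗ[ℂ] (Fin (dg (χ j)) → ℂ)),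
    (∀ j g, i j ∘ₗ md (χ j) g = ρ g ∘ₗ i j) ∧ (∀ j g, q j ∘ₗ ρ g = md (χ j) g ∘ₗ q j) ∧
    (∀ j, q j ∘ₗ i j = LinearMap.id) ∧ ∑ j, i j ∘ₗ q j = LinearMap.id

theorem ri_irr [Fintype G] {V : Type} [AddCommGroup V] [Module ℂ V] [FiniteDimensional ℂ V]
    (ρ : Representation ℂ G V) (h : ρ.IsIrreducible) : RI ρ := by
  obtain ⟨φ⟩ := iso_md ρ h
  refine ⟨Unit, inferInstance, fun _ => ⟨ρ.character, mem_irrC ρ h⟩,
    fun _ => φ.symm.toLinearMap, fun _ => φ.toLinearMap, ?_, ?_, ?_, ?_⟩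
  · intro _ g
    exact φ.symm.isIntertwining' g
  · intro _ g
    exact φ.isIntertwining' g
  · intro _
    ext x
    simp
  · simp
    ext x
    simp

theorem ri_split {V S T : Type} [AddCommGroup V] [Module ℂ V] [AddCommGroup S] [Module ℂ S]
    [AddCommGroup T] [Module ℂ T]
    (ρ : Representation ℂ G V) (σ : Representation ℂ G S) (τ : Representation ℂ G T)
    (a : S →ₗ[ℂ] V) (b : V →ₗ[ℂ] S) (c : T →ₗ[ℂ] V) (d : V →ₗ[ℂ] T)
    (ha : ∀ g, a ∘ₗ σ g = ρ g ∘ₗ a) (hb : ∀ g, b ∘ₗ ρ g = σ g ∘ₗ b)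
    (hc : ∀ g, c ∘ₗ τ g = ρ g ∘ₗ c) (hd : ∀ g, d ∘ₗ ρ g = τ g ∘ₗ d)
    (hba : b ∘ₗ a = LinearMap.id) (hdc : d ∘ₗ c = LinearMap.id)
    (hs : a ∘ₗ b + c ∘ₗ d = LinearMap.id) (h1 : RI σ) (h2 : RI τ) : RI ρ := by
  obtain ⟨ι, _, χ, i, q, r1, r2, r3, r4⟩ := h1
  obtain ⟨κ, _, ψ, i', q', s1, s2, s3, s4⟩ := h2
  refine ⟨ι ⊕ κ, inferInstance, Sum.elim χ ψ,
    fun j => match j with
      | Sum.inl j => a ∘ₗ i j
      | Sum.inr j => c ∘ₗ i' j,
    fun j => match j with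
      | Sum.inl j => q j ∘ₗ b
      | Sum.inr j => q' j ∘ₗ d, ?_, ?_, ?_, ?_⟩
  · rintro (j | j) g
    · show (a ∘ₗ i j) ∘ₗ md (χ j) g = ρ g ∘ₗ (a ∘ₗ i j)
      rw [LinearMap.comp_assoc, r1, ← LinearMap.comp_assoc, ha, LinearMap.comp_assoc]
    · show (c ∘ₗ i' j) ∘ₗ md (ψ j) g = ρ g ∘ₗ (c ∘ₗ i' j)
      rw [LinearMap.comp_assoc, s1, ← LinearMap.comp_assoc, hc, LinearMap.comp_assoc]
  · rintro (j | j) g
    · show (q j ∘ₗ b) ∘ₗ ρ g = md (χ j) g ∘ₗ (q j ∘ₗ b)
      rw [LinearMap.comp_assoc, hb, ← LinearMap.comp_assoc, r2, LinearMap.comp_assoc]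
    · show (q' j ∘ₗ d) ∘ₗ ρ g = md (ψ j) g ∘ₗ (q' j ∘ₗ d)
      rw [LinearMap.comp_assoc, hd, ← LinearMap.comp_assoc, s2, LinearMap.comp_assoc]
  · rintro (j | j)
    · show (q j ∘ₗ b) ∘ₗ (a ∘ₗ i j) = LinearMap.id
      rw [LinearMap.comp_assoc, ← LinearMap.comp_assoc (i j) a b, hba, LinearMap.id_comp, r3]
    · show (q' j ∘ₗ d) ∘ₗ (c ∘ₗ i' j) = LinearMap.id
      rw [LinearMap.comp_assoc, ← LinearMap.comp_assoc (i' j) c d, hdc, LinearMap.id_comp, s3]
  · rw [Fintype.sum_sum_type]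
    show ∑ j, (a ∘ₗ i j) ∘ₗ (q j ∘ₗ b) + ∑ j, (c ∘ₗ i' j) ∘ₗ (q' j ∘ₗ d) = LinearMap.id
    rw [← hs]
    congr 1
    · calc ∑ j, (a ∘ₗ i j) ∘ₗ (q j ∘ₗ b) = a ∘ₗ (∑ j, i j ∘ₗ q j) ∘ₗ b := by
            ext x
            simp
        _ = a ∘ₗ b := by rw [r4]; rfl
    · calc ∑ j, (c ∘ₗ i' j) ∘ₗ (q' j ∘ₗ d) = c ∘ₗ (∑ j, i' j ∘ₗ q' j) ∘ₗ d := by
            ext x
            simp
        _ = c ∘ₗ d := by rw [s4]; rfl

theorem ri_all [Fintype G] : ∀ (n : ℕ) (V : Type) [AddCommGroup V] [Module ℂ V] [FiniteDimensional ℂ V]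
    (ρ : Representation ℂ G V), Module.finrank ℂ V = n → RI ρ := by
  intro n
  induction n using Nat.strong_induction_on with
  | _ n ih =>
  intro V _ _ _ ρ hn
  by_cases hirr : ρ.IsIrreducible
  · exact ri_irr ρ hirr
  rcases subsingleton_or_nontrivial V with hV | hV
  · refine ⟨Empty, inferInstance, fun j => j.elim, fun j => j.elim, fun j => j.elim,
      fun j => j.elim, fun j => j.elim, fun j => j.elim, ?_⟩
    ext x
    exact Subsingleton.elim _ _
  rw [irr_iff] at hirr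
  push Not at hirr
  obtain ⟨S, hS, hS1, hS2⟩ := hirr hV
  have : NeZero (Nat.card G : ℂ) := ⟨by
    rw [Nat.card_eq_fintype_card]; exact_mod_cast Fintype.card_ne_zero⟩
  have hsemi : IsSemisimpleRepresentation ρ := inferInstance
  let S' : Subrepresentation ρ := ⟨S, fun g v hv => hS g v hv⟩
  obtain ⟨T', hT⟩ := hsemi.exists_isCompl S'
  have hcompl : IsCompl S T'.toSubmodule := by
    constructor
    · rw [disjoint_iff]
      have := congrArg Subrepresentation.toSubmodule (disjoint_iff.1 hT.disjoint)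
      exact this
    · rw [codisjoint_iff]
      have := congrArg Subrepresentation.toSubmodule (codisjoint_iff.1 hT.codisjoint)
      exact this
  set T := T'.toSubmodule with hTdef
  have hTinv : ∀ g, ∀ v ∈ T, ρ g v ∈ T := fun g v hv => T'.apply_mem_toSubmodule g hv
  have hadd := Submodule.finrank_add_eq_of_isCompl hcompl
  have hS0 : Module.finrank ℂ S ≠ 0 := by
    intro h0
    exact hS1 (Submodule.finrank_eq_zero.1 h0)
  have hT0 : Module.finrank ℂ T ≠ 0 := by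
    intro h0
    have : T = ⊥ := Submodule.finrank_eq_zero.1 h0
    rw [this] at hcompl
    exact hS2 (eq_top_of_isCompl_bot hcompl)
  have hSlt : Module.finrank ℂ S < n := by omega
  have hTlt : Module.finrank ℂ T < n := by omega
  have key : ∀ (A B : Submodule ℂ V) (hAB : IsCompl A B), (∀ g, ∀ v ∈ A, ρ g v ∈ A) →
      (∀ g, ∀ v ∈ B, ρ g v ∈ B) → ∀ g v, (A.projectionOnto B hAB (ρ g v) : V) =
        ρ g (A.projectionOnto B hAB v : V) := by
    intro A B hAB hA hB g v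
    have h1 := Submodule.projection_add_projection_eq_self hAB v
    rw [← Submodule.coe_projectionOnto_apply, ← Submodule.coe_projectionOnto_apply] at h1
    have h2 : ρ g v = ρ g (A.projectionOnto B hAB v : V) +
        ρ g (B.projectionOnto A hAB.symm v : V) := by
      rw [← map_add, h1]
    rw [h2, map_add, Submodule.projectionOnto_apply_of_mem_left hAB (hA g _ (Subtype.mem _)),
      (Submodule.projectionOnto_apply_eq_zero_iff hAB).2 (hB g _ (Subtype.mem _)), add_zero]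
  refine ri_split ρ (Subrepresentation.toRepresentation S') (Subrepresentation.toRepresentation T')
    S.subtype (S.projectionOnto T hcompl) T.subtype (T.projectionOnto S hcompl.symm)
    ?_ ?_ ?_ ?_ ?_ ?_ ?_ (ih _ hSlt S _ rfl) (ih _ hTlt T _ rfl)
  · intro g
    rfl
  · intro g
    ext v
    exact key S T hcompl hS hTinv g v
  · intro g
    rfl
  · intro g
    ext v
    exact key T S hcompl.symm hTinv hS g v
  · exact Submodule.projectionOnto_comp_subtype hcompl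
  · exact Submodule.projectionOnto_comp_subtype hcompl.symm
  · exact Submodule.projection_add_projection_eq_id hcompl

end Pool.Agent.ACD8
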