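import Mathlib

set_option autoImplicit false

open Matrix Matrix.SpecialLinearGroup

noncomputable section

namespace Pool.Agent.ACD8

section

variable {ι F : Type} [Fintype ι] [DecidableEq ι] [Field F]

/-- commutator relation -/
theorem sl_comm {i j k : ι} (hij : i ≠ j) (hjk : j ≠ k) (hik : i ≠ k) (a b : F) :
    transvection hij a * transvection hjk b * (transvection hij a)⁻¹ * (transvection hjk b)⁻¹ =
      transvection hik (a * b) := by
  have h : transvection hij a * transvection hjk b =
      transvection hik (a * b) * (transvection hjk b * transvection hij a) := by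
    apply Subtype.ext
    rw [coe_mul, coe_mul, coe_mul, transvection_coe, transvection_coe, transvection_coe]
    simp only [mul_add, add_mul, mul_one, one_mul, single_mul_single_same,
      single_mul_single_of_ne _ _ _ _ hij.symm, single_mul_single_of_ne _ _ _ _ hjk.symm,
      single_mul_single_of_ne _ _ _ _ hik.symm, mul_zero, add_zero, zero_add]
    abel
  rw [h]
  group

theorem mt_apply {i j : ι} (M : Matrix ι ι F) (c : F) (k l : ι) :
    (M * Matrix.transvection i j c) k l = M k l + if l = j then M k i * c else 0 := by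
  rw [Matrix.transvection, mul_add, mul_one, Matrix.add_apply]
  congr 1
  by_cases h : l = j
  · subst h
    simp
  · simp [h]

/-- diagonal elements in terms of transvections -/
theorem sl_diag {i j : ι} (hij : i ≠ j) (c : F) (hc : c ≠ 0) :
    diag2n hij c hc = transvection hij c * transvection hij.symm (-c⁻¹) * transvection hij c *
      transvection hij (-1) * transvection hij.symm 1 * transvection hij (-1) := by
  apply Subtype.ext
  ext k l
  have e : ∀ {i j : ι} (h : i ≠ j) (a : F), ((transvection h a : SpecialLinearGroup ι F) :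
    Matrix ι ι F) = Matrix.transvection i j a := fun _ _ => rfl
  rw [coe_mul, coe_mul, coe_mul, coe_mul, coe_mul, diag2n_coe]
  simp only [e, mt_apply]
  have e1 : ∀ (a b : ι), Matrix.transvection i j c a b = (if a = b then 1 else 0) +
      if b = j then (if a = i then c else 0) else 0 := by
    intro a b
    have := mt_apply (i := i) (j := j) (1 : Matrix ι ι F) c a b
    rw [one_mul] at this
    rw [this, Matrix.one_apply, Matrix.one_apply]
    congr 1
    split_ifs <;> simp
  simp only [e1, if_neg hij, if_neg hij.symm, if_true]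
  rw [diagonal_apply]
  have hji := hij.symm
  by_cases hlj : l = j
  · subst hlj
    by_cases hki : k = i
    · subst hki
      simp [hij, hij.symm]
      field_simp
      try ring
    · by_cases hkl : k = l
      · subst hkl
        simp [hij, hij.symm]
        try field_simp
        try ring
      · simp [hij, hij.symm, hki, hkl]
  · by_cases hli : l = i
    · subst hli
      by_cases hkl : k = l
      · subst hkl
        simp [hij, hij.symm]
        try field_simp
        try ring
      · by_cases hkj : k = j
        · subst hkj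
          simp [hij, hij.symm]
          try field_simp
          try ring
        · simp [hij, hij.symm, hkl, hkj]
    · by_cases hkl : k = l
      · subst hkl
        simp [hlj, hli]
      · simp [hlj, hli, hkl]

theorem tm_apply {i j : ι} (M : Matrix ι ι F) (c : F) (k l : ι) :
    (Matrix.transvection i j c * M) k l = M k l + if k = i then c * M j l else 0 := by
  rw [Matrix.transvection, add_mul, one_mul, Matrix.add_apply]
  congr 1
  by_cases h : k = i
  · subst h
    simp
  · simp [h]

/-- sign vector -/
def sv (σ : Equiv.Perm ι) (i₀ : ι) (j : ι) : F := if j = i₀ then ((Equiv.Perm.sign σ : ℤ) : F) else 1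

theorem sv_sq (σ : Equiv.Perm ι) (i₀ : ι) (j : ι) : (sv σ i₀ j : F) * sv σ i₀ j = 1 := by
  unfold sv
  split_ifs
  · rcases Int.units_eq_one_or (Equiv.Perm.sign σ) with h | h <;> simp [h]
  · simp

theorem sv_pm (σ : Equiv.Perm ι) (i₀ : ι) (j : ι) : (sv σ i₀ j : F) = 1 ∨ (sv σ i₀ j : F) = -1 := by
  unfold sv
  split_ifs
  · rcases Int.units_eq_one_or (Equiv.Perm.sign σ) with h | h <;> simp [h]
  · simp

/-- signed permutation matrix of determinant 1 -/
def wm (σ : Equiv.Perm ι) (i₀ : ι) : SpecialLinearGroup ι F :=
  ⟨(diagonal (sv σ i₀)).submatrix σ.symm id, by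
    rw [Matrix.det_permute, det_diagonal]
    have : (∏ i, (sv σ i₀ i : F)) = ((Equiv.Perm.sign σ : ℤ) : F) := by
      unfold sv
      rw [Finset.prod_ite_eq' Finset.univ i₀]
      simp
    rw [this, Equiv.Perm.sign_symm]
    rcases Int.units_eq_one_or (Equiv.Perm.sign σ) with h | h <;> simp [h]⟩

theorem wm_apply (σ : Equiv.Perm ι) (i₀ : ι) (k l : ι) :
    (wm (F := F) σ i₀ : Matrix ι ι F) k l = if k = σ l then sv σ i₀ l else 0 := by
  show (diagonal (sv σ i₀)) (σ.symm k) l = _
  rw [diagonal_apply]
  by_cases h : k = σ l
  · subst h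
    simp
  · have : σ.symm k ≠ l := fun h' => h (by rw [← h']; simp)
    simp [h, this]

theorem wm_conj (σ : Equiv.Perm ι) (i₀ : ι) {i j : ι} (hij : i ≠ j) (a : F) :
    wm σ i₀ * transvection hij a * (wm σ i₀)⁻¹ =
      transvection (σ.injective.ne hij) (sv σ i₀ i * sv σ i₀ j * a) := by
  rw [mul_inv_eq_iff_eq_mul]
  apply Subtype.ext
  ext k l
  have e : ∀ {i j : ι} (h : i ≠ j) (a : F), ((transvection h a : SpecialLinearGroup ι F) :
    Matrix ι ι F) = Matrix.transvection i j a := fun _ _ => rfl
  rw [coe_mul, coe_mul, e, e, mt_apply, tm_apply, wm_apply, wm_apply, wm_apply]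
  congr 1
  by_cases hl : l = j
  · subst hl
    have hsq := sv_sq (F := F) σ i₀ l
    by_cases hk : k = σ i
    · subst hk
      simp only [if_true]
      calc sv σ i₀ i * a = sv σ i₀ i * (sv σ i₀ l * sv σ i₀ l) * a := by rw [hsq, mul_one]
        _ = _ := by ring
    · simp [hk]
  · have : σ j ≠ σ l := fun h => hl (σ.injective h).symm
    simp [hl, this]

end

section

variable {m : ℕ} {F : Type} [Field F]

/-- generation by two transvections and a monomial matrix -/
theorem sl_gen (ω : F) (hω : ∀ a : F, a ≠ 0 → ∃ k : ℕ, a = ω ^ k)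
    (Q : Subgroup (SpecialLinearGroup (Fin (m + 3)) F))
    (h01 : (0 : Fin (m + 3)) ≠ 1)
    (hx : transvection h01 (1 : F) ∈ Q) (hz : transvection h01 ω ∈ Q)
    (hw : wm (finRotate (m + 3)) 0 ∈ Q) : Q = ⊤ := by
  set σ := finRotate (m + 3) with hσ
  have hσa : ∀ i : Fin (m + 3), σ i = i + 1 := fun i => finRotate_succ_apply i
  -- closure properties
  have hneg : ∀ {i j : Fin (m + 3)} (hij : i ≠ j) (a : F), transvection hij a ∈ Q →
      transvection hij (-a) ∈ Q := by
    intro i j hij a h
    rw [← transvection_inv]
    exact Q.inv_mem h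
  have hconj : ∀ {i j : Fin (m + 3)} (hij : i ≠ j) (a : F), transvection hij a ∈ Q →
      ∀ (h' : σ i ≠ σ j), transvection h' a ∈ Q := by
    intro i j hij a h h'
    have h1 := Q.mul_mem (Q.mul_mem hw h) (Q.inv_mem hw)
    rw [wm_conj] at h1
    rcases sv_pm (F := F) σ 0 i with h2 | h2 <;> rcases sv_pm (F := F) σ 0 j with h3 | h3
    · rw [h2, h3] at h1
      simpa using h1
    · rw [h2, h3] at h1
      have := hneg _ _ h1
      simpa using this
    · rw [h2, h3] at h1
      have := hneg _ _ h1
      simpa using this
    · rw [h2, h3] at h1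
      simpa using h1
  have hcomm : ∀ {i j k : Fin (m + 3)} (hij : i ≠ j) (hjk : j ≠ k) (hik : i ≠ k) (a b : F),
      transvection hij a ∈ Q → transvection hjk b ∈ Q → transvection hik (a * b) ∈ Q := by
    intro i j k hij hjk hik a b h1 h2
    rw [← sl_comm hij hjk hik]
    exact Q.mul_mem (Q.mul_mem (Q.mul_mem h1 h2) (Q.inv_mem h1)) (Q.inv_mem h2)
  -- neighbours
  have hnb : ∀ (a : F), transvection h01 a ∈ Q → ∀ (k : ℕ) (hk : k < m + 3)
      (h : (⟨k, hk⟩ : Fin (m + 3)) ≠ ⟨k, hk⟩ + 1), transvection h a ∈ Q := by
    intro a ha k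
    induction k with
    | zero =>
      intro hk h
      have e1 : (⟨0, hk⟩ : Fin (m + 3)) = 0 := rfl
      have e2 : (⟨0, hk⟩ : Fin (m + 3)) + 1 = 1 := by rw [e1, zero_add]
      have : transvection h a = transvection h01 a := by
        apply Subtype.ext
        show Matrix.transvection _ _ a = Matrix.transvection _ _ a
        rw [e2, e1]
      rw [this]
      exact ha
    | succ k ih =>
      intro hk h
      have hk' : k < m + 3 := by omega
      have e1 : (⟨k, hk'⟩ : Fin (m + 3)) + 1 = ⟨k + 1, hk⟩ := by
        ext
        rw [Fin.val_add, Fin.val_one]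
        exact Nat.mod_eq_of_lt hk
      have hne : (⟨k, hk'⟩ : Fin (m + 3)) ≠ ⟨k, hk'⟩ + 1 := by
        rw [e1]
        intro h'
        have := congrArg Fin.val h'
        simp at this
      have h1 := ih hk' hne
      have h2 := hconj hne a h1 (by rw [hσa, hσa, e1]; exact h)
      have : transvection h a = transvection (show σ ⟨k, hk'⟩ ≠ σ (⟨k, hk'⟩ + 1) by
          rw [hσa, hσa, e1]; exact h) a := by
        apply Subtype.ext
        show Matrix.transvection _ _ a = Matrix.transvection _ _ a
        rw [hσa, hσa, e1]
      rw [this]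
      exact h2
  have hne1 : ∀ i : Fin (m + 3), i ≠ i + 1 := by
    intro i h
    have : (0 : Fin (m + 3)) = 1 := by
      have := congrArg (fun x => x - i) h
      simpa using this
    exact h01 this
  have hnb' : ∀ (a : F), transvection h01 a ∈ Q → ∀ (i : Fin (m + 3)),
      transvection (hne1 i) a ∈ Q := fun a ha i => hnb a ha i.1 i.2 _
  have tcongr : ∀ {i j i' j' : Fin (m + 3)} (h : i ≠ j) (h' : i' ≠ j') (a : F), i = i' → j = j' →
      (transvection h a : SpecialLinearGroup (Fin (m + 3)) F) = transvection h' a := by
    intro i j i' j' h h' a e1 e2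
    subst e1 e2
    rfl
  -- all pairs with coefficient one
  have hone : ∀ (k : ℕ) (hk : k < m + 2), ∀ (i j : Fin (m + 3)) (hij : i ≠ j),
      j = i + (⟨k, by omega⟩ : Fin (m + 3)) + 1 → transvection hij (1 : F) ∈ Q := by
    intro k
    induction k with
    | zero =>
      intro _ i j hij hj
      have e1 : (⟨0, by omega⟩ : Fin (m + 3)) = 0 := rfl
      rw [e1, add_zero] at hj
      rw [tcongr hij (hne1 i) 1 rfl hj]
      exact hnb' 1 hx i
    | succ k ih =>
      intro hk i j hij hj
      set i' : Fin (m + 3) := i + (⟨k, by omega⟩ : Fin (m + 3)) + 1 with hi'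
      have e1 : (⟨k + 1, by omega⟩ : Fin (m + 3)) = ⟨k, by omega⟩ + 1 := by
        ext
        rw [Fin.val_add, Fin.val_one]
        exact (Nat.mod_eq_of_lt (by simp; omega)).symm
      have hj' : j = i' + 1 := by
        rw [hj, e1, hi', ← add_assoc]
      have hii' : i ≠ i' := by
        intro h
        have h1 : (⟨k, by omega⟩ : Fin (m + 3)) + 1 = 0 := by
          have := congrArg (fun x => x - i) h
          simp [hi', add_assoc] at this
          exact this.symm
        rw [← e1] at h1
        have := congrArg Fin.val h1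
        simp at this
      have h1 := ih (by omega) i i' hii' rfl
      have h2 := hnb' 1 hx i'
      have h3 := hcomm hii' (hne1 i') (by rw [← hj']; exact hij) 1 1 h1 h2
      rw [mul_one] at h3
      rw [tcongr hij (by rw [← hj']; exact hij) 1 rfl hj']
      exact h3
  have hone' : ∀ (i j : Fin (m + 3)) (hij : i ≠ j), transvection hij (1 : F) ∈ Q := by
    intro i j hij
    have hd : j - i - 1 + 1 = j - i := sub_add_cancel _ _
    set d : Fin (m + 3) := j - i - 1 with hdd
    have hlt : d.1 < m + 2 := by
      by_contra hcon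
      have h1 : d.1 = m + 2 := by have := d.2; omega
      have h2 : d + 1 = 0 := by
        ext
        rw [Fin.val_add, Fin.val_one, h1]
        simp
      rw [hd] at h2
      exact hij (sub_eq_zero.1 h2).symm
    exact hone d.1 hlt i j hij (by
      have : (⟨d.1, by omega⟩ : Fin (m + 3)) = d := rfl
      rw [this, hdd, add_assoc, sub_add_cancel, add_comm i, sub_add_cancel])
  -- the generator
  have hom : ∀ (i j : Fin (m + 3)) (hij : i ≠ j), transvection hij ω ∈ Q := by
    intro i j hij
    by_cases h : j = i + 1
    · rw [tcongr hij (hne1 i) ω rfl h]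
      exact hnb' ω hz i
    · have h1 := hcomm (hne1 i) (Ne.symm h) hij ω 1 (hnb' ω hz i) (hone' _ _ (Ne.symm h))
      rw [mul_one] at h1
      exact h1
  -- all coefficients
  have hthird : ∀ i j : Fin (m + 3), ∃ k, i ≠ k ∧ k ≠ j := by
    intro i j
    by_contra hcon
    push Not at hcon
    have hsub : (Finset.univ : Finset (Fin (m + 3))) ⊆ {i, j} := by
      intro k _
      rw [Finset.mem_insert, Finset.mem_singleton]
      by_cases h : k = i
      · exact Or.inl h
      · exact Or.inr (hcon k (Ne.symm h))
    have h1 := Finset.card_le_card hsub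
    have h2 := Finset.card_le_two (a := i) (b := j)
    rw [Finset.card_univ, Fintype.card_fin] at h1
    omega
  have hpow : ∀ (k : ℕ) (i j : Fin (m + 3)) (hij : i ≠ j), transvection hij (ω ^ k) ∈ Q := by
    intro k
    induction k with
    | zero =>
      intro i j hij
      rw [pow_zero]
      exact hone' i j hij
    | succ k ih =>
      intro i j hij
      obtain ⟨l, h1, h2⟩ := hthird i j
      rw [pow_succ]
      exact hcomm h1 h2 hij _ _ (ih i l h1) (hom l j h2)
  have hall : ∀ (i j : Fin (m + 3)) (hij : i ≠ j) (a : F), transvection hij a ∈ Q := by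
    intro i j hij a
    by_cases ha : a = 0
    · subst ha
      rw [transvection_coeff_zero]
      exact Q.one_mem
    · obtain ⟨k, rfl⟩ := hω a ha
      exact hpow k i j hij
  rw [eq_top_iff]
  intro M _
  refine diagonal_transvection_induction' (fun M => M ∈ Q) M ?_ ?_ ?_
  · intro i j hij c hc
    rw [sl_diag hij c hc]
    exact Q.mul_mem (Q.mul_mem (Q.mul_mem (Q.mul_mem (Q.mul_mem (hall _ _ _ _) (hall _ _ _ _))
      (hall _ _ _ _)) (hall _ _ _ _)) (hall _ _ _ _)) (hall _ _ _ _)
  · exact hall
  · exact fun A B hA hB => Q.mul_mem hA hB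

end

end Pool.Agent.ACD8
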