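import Pool.Agent.Work.MP_76dc41_al.H8.Chars

set_option autoImplicit false

open Representation LinearMap

noncomputable section

namespace Pool.Agent.ACD8

variable {G : Type} [Group G]

/-- Schur: a nonzero intertwiner of irreducible representations gives equal characters -/
theorem schur_char {V W : Type} [AddCommGroup V] [Module ℂ V]
    [AddCommGroup W] [Module ℂ W] (σ : Representation ℂ G V) (τ : Representation ℂ G W)
    (h1 : σ.IsIrreducible) (h2 : τ.IsIrreducible) (A : V →ₗ[ℂ] W)
    (hA : ∀ g, A ∘ₗ σ g = τ g ∘ₗ A) (hne : A ≠ 0) : σ.character = τ.character := by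
  have := h1
  have := h2
  let f : IntertwiningMap σ τ := ⟨A, hA⟩
  rcases IsIrreducible.bijective_or_eq_zero f with h | h
  · exact char_iso (f.ofBijective h)
  · exfalso
    apply hne
    have := congrArg (fun f => f.toLinearMap) h
    exact this

/-- Schur: intertwiners are unique up to scalars -/
theorem schur_scalar {V W : Type} [AddCommGroup V] [Module ℂ V] [FiniteDimensional ℂ V]
    [AddCommGroup W] [Module ℂ W] (σ : Representation ℂ G V) (τ : Representation ℂ G W)
    (h1 : σ.IsIrreducible) (h2 : τ.IsIrreducible) (A B : V →ₗ[ℂ] W)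
    (hA : ∀ g, A ∘ₗ σ g = τ g ∘ₗ A) (hB : ∀ g, B ∘ₗ σ g = τ g ∘ₗ B) (hne : A ≠ 0) :
    ∃ c : ℂ, B = c • A := by
  have := h1
  have := h2
  let f : IntertwiningMap σ τ := ⟨A, hA⟩
  rcases IsIrreducible.bijective_or_eq_zero f with h | h
  · let e : Equiv σ τ := f.ofBijective h
    let u : IntertwiningMap σ σ := ⟨e.symm.toLinearMap ∘ₗ B, by
      intro g
      rw [LinearMap.comp_assoc, hB, ← LinearMap.comp_assoc]
      have := e.symm.isIntertwining' g
      rw [← LinearMap.comp_assoc]
      congr 1⟩
    obtain ⟨c, hc⟩ := (IsIrreducible.algebraMap_intertwiningMap_bijective_of_isAlgClosed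
      (ρ := σ)).2 u
    refine ⟨c, ?_⟩
    ext x
    have h3 : u x = c • x := by rw [← hc]; rfl
    have h4 : e.symm (B x) = c • x := h3
    have h5 : B x = e (c • x) := by
      rw [← h4]
      exact (e.toLinearEquiv.apply_symm_apply (B x)).symm
    rw [h5]
    show e (c • x) = c • A x
    rw [map_smul]
    rfl
  · exfalso
    apply hne
    exact congrArg (fun f => f.toLinearMap) h

/-- precomposition with a surjective homomorphism keeps irreducibility -/
theorem irr_comp {H : Type} [Group H] {V : Type} [AddCommGroup V] [Module ℂ V]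
    (ρ : Representation ℂ G V) (h : ρ.IsIrreducible) (φ : H →* G)
    (hφ : Function.Surjective φ) : Representation.IsIrreducible (MonoidHom.comp ρ φ) := by
  rw [irr_iff] at h ⊢
  refine ⟨h.1, fun S hS => h.2 S ?_⟩
  intro g v hv
  obtain ⟨x, rfl⟩ := hφ g
  exact hS x v hv

theorem irrC_comp {H : Type} [Group H] (φ : H →* G) (hφ : Function.Surjective φ)
    (χ : IrrC G) : (fun x => χ.1 (φ x)) ∈ IrrC H := by
  refine ⟨dg χ, MonoidHom.comp (md χ) φ, irr_comp _ (md_irr χ) φ hφ, ?_⟩
  ext x
  rw [← md_char χ]
  rfl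

end Pool.Agent.ACD8
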