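import Pool.Agent.Work.MP_76dc41_al.H8.Comp

set_option autoImplicit false

open Representation LinearMap

noncomputable section

namespace Pool.Agent.ACD8

variable {G : Type} [Group G] [Fintype G] (N : Subgroup G) [N.Normal]

theorem cj_cj (g h : G) (θ : IrrC N) : cj N g (cj N h θ) = cj N (h * g) θ := by
  apply Subtype.ext
  ext n
  show θ.1 (MulAut.conjNormal h (MulAut.conjNormal g n)) = θ.1 (MulAut.conjNormal (h * g) n)
  rw [map_mul]
  rfl

theorem cj_one (θ : IrrC N) : cj N 1 θ = θ := by
  apply Subtype.ext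
  ext n
  show θ.1 (MulAut.conjNormal 1 n) = θ.1 n
  rw [map_one]
  rfl

/-- stabiliser of `θ` in `G` -/
def stb (θ : IrrC N) : Subgroup G where
  carrier := {g | cj N g θ = θ}
  one_mem' := cj_one N θ
  mul_mem' := by
    intro a b ha hb
    show cj N (a * b) θ = θ
    rw [← cj_cj, ha, hb]
  inv_mem' := by
    intro a ha
    show cj N a⁻¹ θ = θ
    have h : cj N a⁻¹ (cj N a θ) = θ := by rw [cj_cj, mul_inv_cancel, cj_one]
    have ha' : cj N a θ = θ := ha
    rw [ha'] at h
    exact h

theorem mem_stb (θ : IrrC N) (g : G) : g ∈ stb N θ ↔ cj N g θ = θ := Iff.rfl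

theorem N_le_stb (θ : IrrC N) : N ≤ stb N θ := by
  intro g hg
  rw [mem_stb]
  apply Subtype.ext
  ext n
  show θ.1 (MulAut.conjNormal g n) = θ.1 n
  have : (MulAut.conjNormal (H := N) g n : N) = ⟨g, hg⟩ * n * ⟨g, hg⟩⁻¹ := by
    apply Subtype.ext
    simp [MulAut.conjNormal_apply]
  rw [this]
  exact char_conj' θ ⟨g, hg⟩ n

/-- stabiliser in the quotient -/
def stq (θ : IrrC N) : Subgroup (G ⧸ N) := (stb N θ).map (QuotientGroup.mk' N)

theorem mem_stq (θ : IrrC N) (g : G) : (QuotientGroup.mk g : G ⧸ N) ∈ stq N θ ↔ g ∈ stb N θ := by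
  constructor
  · rintro ⟨h, hh, e⟩
    have e' : (QuotientGroup.mk h : G ⧸ N) = QuotientGroup.mk g := e
    rw [QuotientGroup.eq] at e'
    have : g = h * (h⁻¹ * g) := by group
    rw [this]
    exact (stb N θ).mul_mem hh (N_le_stb N θ e')
  · intro h
    exact ⟨g, h, rfl⟩

/-- orbit-stabiliser -/
theorem card_cst_eq (χ : IrrC G) (θ : IrrC N) (h : θ ∈ cst N χ) :
    (cst N χ).card = (stq N θ).index := by
  classical
  have h1 : (stq N θ).index = (stb N θ).index := by
    unfold stq
    apply Subgroup.index_map_eq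
    · exact QuotientGroup.mk'_surjective N
    · rw [QuotientGroup.ker_mk']
      exact N_le_stb N θ
  rw [h1]
  have hmem : ∀ g : G, cj N g θ ∈ cst N χ := by
    intro g
    rw [mem_cst, mu_cj]
    exact (mem_cst N χ θ).1 h
  let φ : G ⧸ stb N θ → cst N χ := fun q => Quotient.liftOn' q (fun g => ⟨cj N g⁻¹ θ, hmem g⁻¹⟩) (by
    intro a b hab
    rw [QuotientGroup.leftRel_apply] at hab
    apply Subtype.ext
    show cj N a⁻¹ θ = cj N b⁻¹ θ
    have h2 : b⁻¹ = (a⁻¹ * b)⁻¹ * a⁻¹ := by group
    rw [h2, ← cj_cj]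
    have h3 : cj N (a⁻¹ * b)⁻¹ θ = θ := (stb N θ).inv_mem hab
    rw [h3])
  have hφ : Function.Bijective φ := by
    constructor
    · intro q q' hqq
      induction q using QuotientGroup.induction_on with
      | H a =>
        induction q' using QuotientGroup.induction_on with
        | H b =>
          have h2 : cj N a⁻¹ θ = cj N b⁻¹ θ := congrArg Subtype.val hqq
          rw [QuotientGroup.eq, mem_stb]
          calc cj N (a⁻¹ * b) θ = cj N b (cj N a⁻¹ θ) := (cj_cj N b a⁻¹ θ).symm
            _ = cj N b (cj N b⁻¹ θ) := by rw [h2]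
            _ = θ := by rw [cj_cj, inv_mul_cancel, cj_one]
    · rintro ⟨η, hη⟩
      obtain ⟨g, hg⟩ := clifford_conn N χ θ η ((mem_cst N χ θ).1 h) ((mem_cst N χ η).1 hη)
      refine ⟨QuotientGroup.mk g⁻¹, ?_⟩
      apply Subtype.ext
      show cj N g⁻¹⁻¹ θ = η
      rw [inv_inv, hg]
  have h4 := Nat.card_congr (Equiv.ofBijective φ hφ)
  have h5 : Nat.card (cst N χ) = (cst N χ).card := by simp
  rw [h5] at h4
  rw [← h4]
  rfl

/-- the number of irreducible characters over an orbit is at most the class number of the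
stabiliser -/
theorem card_fib_le_stab (χ₀ : IrrC G) (θ : IrrC N) (h : θ ∈ cst N χ₀) :
    (fib N (cst N χ₀)).card ≤ kc (stq N θ) := by
  classical
  set F := fib N (cst N χ₀) with hF
  -- a basis of the twisted intertwiners
  have htw : ∀ g : G, ∃ B : (Fin (dg θ) → ℂ) →ₗ[ℂ] (Fin (dg θ) → ℂ),
      ∀ A : (Fin (dg θ) → ℂ) →ₗ[ℂ] (Fin (dg θ) → ℂ),
      (∀ n : N, A ∘ₗ md θ n = md θ (MulAut.conjNormal (H := N) g n) ∘ₗ A) → ∃ c : ℂ, A = c • B := by
    intro g
    exact exists_tw N g θ
  choose B hB using htw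
  choose A hA1 hA2 hA3 using fun g : G => fun χ : IrrC G => coset_tw N g χ
  choose c hc using fun g : G => fun χ : IrrC G => hB g (A g χ θ) (hA1 g χ θ)
  -- representatives
  have hrep : ∀ κ : ConjClasses (stq N θ), ∃ g : G, ∃ hg : (QuotientGroup.mk g : G ⧸ N) ∈ stq N θ,
      ConjClasses.mk (⟨QuotientGroup.mk g, hg⟩ : stq N θ) = κ := by
    intro κ
    obtain ⟨⟨x, hx⟩, rfl⟩ := ConjClasses.mk_surjective κ
    obtain ⟨g, rfl⟩ := QuotientGroup.mk_surjective x
    exact ⟨g, hx, rfl⟩
  choose r hr1 hr2 using hrep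
  let L : (F → ℂ) →ₗ[ℂ] (ConjClasses (stq N θ) → ℂ) :=
    { toFun := fun a κ => ∑ χ : F, a χ * c (r κ) χ.1
      map_add' := by
        intro a a'
        ext p
        simp [add_mul, Finset.sum_add_distrib]
      map_smul' := by
        intro c a
        ext p
        simp [Finset.mul_sum, mul_assoc] }
  have hinj : Function.Injective L := by
    rw [injective_iff_map_eq_zero]
    intro a ha
    set f : G → ℂ := fun x => ∑ χ : F, a χ * χ.1.1 x with hf
    have hfc : ∀ g x, f (g * x * g⁻¹) = f x := by
      intro g x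
      simp only [hf]
      refine Finset.sum_congr rfl fun χ _ => ?_
      rw [char_conj']
    have hcmp : ∀ (η : IrrC N) (x : G), cmp N η f x = ∑ χ : F, a χ * cmp N η χ.1.1 x := by
      intro η x
      unfold cmp
      simp only [hf, Finset.sum_mul, Finset.mul_sum]
      rw [Finset.sum_comm]
      refine Finset.sum_congr rfl fun χ _ => Finset.sum_congr rfl fun m _ => ?_
      ring
    -- the `θ`-component vanishes on the representatives
    have h1 : ∀ (κ : ConjClasses (stq N θ)) (n : N), cmp N θ f (r κ * n) = 0 := by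
      intro κ n
      rw [hcmp]
      have : ∀ χ : F, a χ * cmp N θ χ.1.1 (r κ * n) =
          (a χ * c (r κ) χ.1) * LinearMap.trace ℂ _ (B (r κ) ∘ₗ md θ n) := by
        intro χ
        rw [hA3, hc (r κ) χ.1, LinearMap.smul_comp, map_smul, smul_eq_mul, mul_assoc]
      simp only [this, ← Finset.sum_mul]
      have h2 : ∑ χ : F, a χ * c (r κ) χ.1 = 0 := congrFun ha κ
      rw [h2, zero_mul]
    -- hence everywhere
    have h2 : ∀ x : G, cmp N θ f x = 0 := by
      intro x
      by_cases hx : x ∈ stb N θ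
      · set κ := ConjClasses.mk (⟨QuotientGroup.mk x, (mem_stq N θ x).2 hx⟩ : stq N θ) with hκ
        have h3 := hr2 κ
        rw [hκ, ConjClasses.mk_eq_mk_iff_isConj, isConj_iff] at h3
        obtain ⟨⟨d, hd⟩, hd2⟩ := h3
        obtain ⟨y, rfl⟩ := QuotientGroup.mk_surjective d
        have hy : y ∈ stb N θ := (mem_stq N θ y).1 hd
        have h4 : (QuotientGroup.mk (y * r κ * y⁻¹) : G ⧸ N) = QuotientGroup.mk x :=
          congrArg Subtype.val hd2
        have h5 : (QuotientGroup.mk (r κ) : G ⧸ N) = QuotientGroup.mk (y⁻¹ * x * y) := by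
          have : (QuotientGroup.mk (y⁻¹ * x * y) : G ⧸ N) =
            (QuotientGroup.mk y)⁻¹ * QuotientGroup.mk x * QuotientGroup.mk y := rfl
          rw [this, ← h4]
          show _ = (QuotientGroup.mk y : G ⧸ N)⁻¹ * (QuotientGroup.mk y * QuotientGroup.mk (r κ) *
            (QuotientGroup.mk y)⁻¹) * QuotientGroup.mk y
          group
        rw [QuotientGroup.eq] at h5
        set n : N := ⟨_, h5⟩ with hn
        have h6 : x = y * (r κ * n) * y⁻¹ := by
          rw [hn]
          group
        rw [h6, cmp_conj N θ f hfc, (mem_stb N θ y).1 hy]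
        exact h1 κ n
      · rw [hcmp]
        refine Finset.sum_eq_zero fun χ _ => ?_
        have h3 := hA3 x χ.1 θ 1
        have h4 : A x χ.1 θ = 0 := by
          by_contra hne
          apply hx
          rw [mem_stb]
          have h5 := schur_char (md θ)
            (MonoidHom.comp (md θ) (MulAut.conjNormal (H := N) x).toMonoidHom)
            (md_irr _) (irr_comp _ (md_irr _) _ (MulAut.conjNormal (H := N) x).surjective) _
            (hA1 x χ.1 θ) hne
          apply Subtype.ext
          rw [← md_char θ, h5]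
          ext n
          show θ.1 (MulAut.conjNormal x n) = _
          rw [← md_char θ]
          rfl
        rw [h4] at h3
        have h5 : cmp N θ χ.1.1 x = 0 := by
          simpa using h3
        rw [h5, mul_zero]
    have h3 : ∀ x : G, f x = 0 := by
      intro x
      rw [← cmp_sum N f x]
      refine Finset.sum_eq_zero fun η _ => ?_
      by_cases hη : η ∈ cst N χ₀
      · obtain ⟨y, rfl⟩ := clifford_conn N χ₀ θ η ((mem_cst N χ₀ θ).1 h) ((mem_cst N χ₀ _).1 hη)
        rw [← cmp_conj N θ f hfc]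
        exact h2 _
      · rw [hcmp]
        refine Finset.sum_eq_zero fun χ _ => ?_
        have h4 : mu N χ.1 η = 0 := by
          by_contra h5
          apply hη
          have h6 : χ.1 ∈ fib N (cst N χ₀) := χ.2
          rw [mem_fib] at h6
          rw [← h6, mem_cst]
          exact h5
        have h5 := hA3 x χ.1 η 1
        rw [hA2 x χ.1 η h4] at h5
        have h6 : cmp N η χ.1.1 x = 0 := by
          simpa using h5
        rw [h6, mul_zero]
    have hli := (Fintype.linearIndependent_iff.1
      (LinearIndependent.comp linIndep (fun χ : F => χ.1) Subtype.val_injective)) a (by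
        ext x
        have := h3 x
        simpa [hf] using this)
    ext χ
    exact hli χ
  have h7 := LinearMap.finrank_le_finrank_of_injective hinj
  have h8 : Module.finrank ℂ (F → ℂ) = F.card := by simp
  have := Fintype.ofFinite (ConjClasses (stq N θ))
  have h9 : Module.finrank ℂ (ConjClasses (stq N θ) → ℂ) = kc (stq N θ) := by
    rw [Module.finrank_fintype_fun_eq_card]
    unfold kc
    rw [Nat.card_eq_fintype_card]
  omega

end Pool.Agent.ACD8
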