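import Pool.Agent.Work.MP_76dc41_al.H8.Struct

set_option autoImplicit false

open MulAction
open scoped Pointwise

noncomputable section

namespace Pool.Agent.ACD8

/-- number of classes of a direct product -/
theorem kc_pi {ι : Type} [Fintype ι] (S : ι → Type) [∀ i, Group (S i)] [∀ i, Finite (S i)] :
    kc (∀ i, S i) = ∏ i, kc (S i) := by
  have h := commProb_pi S
  rw [commProb_def'] at h
  have h1 : ∀ i, commProb (S i) = (kc (S i) : ℚ) / Nat.card (S i) := fun i => commProb_def' (S i)
  rw [Finset.prod_congr rfl (fun i _ => h1 i), Finset.prod_div_distrib, Nat.card_pi] at h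
  have h2 : (∏ i, (Nat.card (S i) : ℚ)) ≠ 0 := by
    rw [Finset.prod_ne_zero_iff]
    intro i _
    exact_mod_cast Nat.card_pos.ne'
  have h3 : ((kc (∀ i, S i) : ℕ) : ℚ) = ∏ i, (kc (S i) : ℚ) := by
    push_cast at h
    rw [div_left_inj' h2] at h
    exact h
  exact_mod_cast h3

theorem kc_prod (A B : Type) [Group A] [Group B] [Finite A] [Finite B] :
    kc (A × B) = kc A * kc B := by
  have h := commProb_prod A B
  rw [commProb_def', commProb_def', commProb_def', Nat.card_prod] at h
  have ha : (Nat.card A : ℚ) ≠ 0 := by exact_mod_cast Nat.card_pos.ne'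
  have hb : (Nat.card B : ℚ) ≠ 0 := by exact_mod_cast Nat.card_pos.ne'
  have h3 : ((kc (A × B) : ℕ) : ℚ) = (kc A : ℚ) * (kc B : ℚ) := by
    unfold kc
    push_cast at h
    field_simp at h
    exact h
  exact_mod_cast h3

section

variable {H : Type} [Group H] [Finite H]

theorem disj_of_central (S N : Subgroup H) (h1 : IsSimpleGroup S) (h2 : ¬ Group.IsSolvable S)
    (hc : ∀ s ∈ S, ∀ n ∈ N, s * n = n * s) : Disjoint S N := by
  rw [disjoint_iff_inf_le]
  rintro x ⟨hx1, hx2⟩
  rw [Subgroup.mem_bot]
  exact center_triv S h1 h2 x hx1 (fun t ht => (hc t ht x hx2).symm)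

/-- orders and class numbers of the minimal normal subgroup -/
theorem card_kc_min (hH : TrivRad H) (M T : Subgroup H) [M.Normal] (hT : Min M T)
    (hM : ∀ N : Subgroup H, N.Normal → N ≤ M → N ≠ ⊥ → N = M) :
    Nat.card M = Nat.card T ^ Nat.card (orbit (ConjAct H) T) ∧
      kc M = kc T ^ Nat.card (orbit (ConjAct H) T) := by
  classical
  have := Fintype.ofFinite (orbit (ConjAct H) T)
  let S : orbit (ConjAct H) T → Subgroup H := fun i => i
  have hmin : ∀ i, Min M (S i) := fun i => min_orbit M T hT i
  have hcomm : Pairwise fun i j : orbit (ConjAct H) T => ∀ x y : H, x ∈ S i → y ∈ S j →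
      Commute x y := by
    intro i j hij x y hx hy
    exact min_comm M (S i) (S j) (hmin i) (hmin j) (fun e => hij (Subtype.ext e)) x hx y hy
  have hind : iSupIndep S := by
    intro i
    apply disj_of_central _ _ (min_simple M (S i) (hmin i) hM) (min_not_solv hH M (S i) (hmin i))
    intro s hs n hn
    have hle : (⨆ (j) (_ : j ≠ i), S j) ≤ Subgroup.centralizer (S i : Set H) := by
      refine iSup_le fun j => iSup_le fun hj => ?_
      intro y hy
      rw [Subgroup.mem_centralizer_iff]
      intro x hx
      exact hcomm hj.symm x y hx hy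
    have := hle hn
    rw [Subgroup.mem_centralizer_iff] at this
    exact this s hs
  have hinj := Subgroup.injective_noncommPiCoprod_of_iSupIndep (hcomm := hcomm) hind
  have hrange := Subgroup.noncommPiCoprod_range (hcomm := hcomm)
  have e1 : (∀ i, S i) ≃* (Subgroup.noncommPiCoprod hcomm).range := MonoidHom.ofInjective hinj
  have hr : (Subgroup.noncommPiCoprod hcomm).range = M := by
    rw [hrange]
    exact sup_orbit M T hT hM
  rw [hr] at e1
  have hiso : ∀ i, Nonempty (T ≃* S i) := by
    intro i
    obtain ⟨c, hc⟩ := i.2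
    have : S i = c • T := hc.symm
    rw [this]
    exact ⟨Subgroup.equivSMul c T⟩
  constructor
  · rw [← Nat.card_congr e1.toEquiv, Nat.card_pi, Finset.prod_congr rfl
      (fun i _ => (Nat.card_congr (hiso i).some.toEquiv).symm)]
    simp
  · rw [← kc_congr e1, kc_pi, Finset.prod_congr rfl (fun i _ => (kc_congr (hiso i).some).symm)]
    simp

/-- the action on the simple factors -/
def actH (T : Subgroup H) : H →* Equiv.Perm (orbit (ConjAct H) T) :=
  (toPermHom (ConjAct H) (orbit (ConjAct H) T)).comp (ConjAct.toConjAct : H ≃* ConjAct H).toMonoidHom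

theorem mem_actH_ker (T : Subgroup H) (g : H) : g ∈ (actH T).ker ↔
    ∀ S : orbit (ConjAct H) T, ConjAct.toConjAct g • (S : Subgroup H) = S := by
  rw [MonoidHom.mem_ker]
  constructor
  · intro h S
    have := congrArg (fun σ => ((σ S : orbit (ConjAct H) T) : Subgroup H)) h
    exact this
  · intro h
    ext1 S
    apply Subtype.ext
    exact h S

theorem smul_eq_of_conj (g : H) (S : Subgroup H) (h1 : ∀ s ∈ S, g⁻¹ * s * g ∈ S)
    (h2 : ∀ s ∈ S, g * s * g⁻¹ ∈ S) : ConjAct.toConjAct g • S = S := by
  ext x
  rw [mem_cs]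
  constructor
  · intro h
    have := h2 _ h
    simpa [mul_assoc] using this
  · intro h
    exact h1 x h

theorem M_le_ker (M T : Subgroup H) [M.Normal] (hT : Min M T) : M ≤ (actH T).ker := by
  intro m hm
  rw [mem_actH_ker]
  intro S
  have h := min_orbit M T hT S
  apply smul_eq_of_conj
  · intro s hs
    have := h.nm m⁻¹ (M.inv_mem hm) s hs
    simpa using this
  · intro s hs
    exact h.nm m hm s hs

theorem C_le_ker (M T : Subgroup H) [M.Normal] (hT : Min M T) :
    Subgroup.centralizer (M : Set H) ≤ (actH T).ker := by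
  intro c hc
  rw [mem_actH_ker]
  intro S
  have h := min_orbit M T hT S
  have hc1 : ∀ s ∈ (S : Subgroup H), s * c = c * s := by
    intro s hs
    exact (Subgroup.mem_centralizer_iff.1 hc) s (h.le hs)
  apply smul_eq_of_conj
  · intro s hs
    rw [mul_assoc, hc1 s hs, inv_mul_cancel_left]
    exact hs
  · intro s hs
    rw [← hc1 s hs, mul_inv_cancel_right]
    exact hs

/-- order of the kernel of the action on the factors -/
theorem card_ker_le (M T : Subgroup H) [M.Normal] (hT : Min M T)
    (hM : ∀ N : Subgroup H, N.Normal → N ≤ M → N ≠ ⊥ → N = M) :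
    Nat.card (actH T).ker ≤ Nat.card (Subgroup.centralizer (M : Set H)) *
      Nat.card (MulAut T) ^ Nat.card (orbit (ConjAct H) T) := by
  classical
  have := Fintype.ofFinite (orbit (ConjAct H) T)
  set K := (actH T).ker with hK
  have hle : ∀ S : orbit (ConjAct H) T, K ≤ Subgroup.normalizer ((S : Subgroup H) : Set H) := by
    intro S g hg
    rw [hK, mem_actH_ker] at hg
    rw [Subgroup.mem_normalizer_iff]
    intro x
    have h1 := hg S
    constructor
    · intro hx
      have h2 : g * x * g⁻¹ ∈ ConjAct.toConjAct g • (S : Subgroup H) := by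
        rw [mem_cs]
        simpa [mul_assoc] using hx
      rw [h1] at h2
      exact h2
    · intro hx
      have h2 : g * x * g⁻¹ ∈ ConjAct.toConjAct g • (S : Subgroup H) := by
        rw [h1]
        exact hx
      rw [mem_cs] at h2
      simpa [mul_assoc] using h2
  let Ψ : K →* (∀ S : orbit (ConjAct H) T, MulAut (S : Subgroup H)) :=
    MonoidHom.pi (fun S => ((S : Subgroup H).normalizerMonoidHom).comp (Subgroup.inclusion (hle S)))
  have hker : ∀ k : K, k ∈ Ψ.ker → (k : H) ∈ Subgroup.centralizer (M : Set H) := by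
    intro k hk
    rw [MonoidHom.mem_ker] at hk
    have h1 : ∀ S : orbit (ConjAct H) T, (S : Subgroup H) ≤ Subgroup.centralizer {(k : H)} := by
      intro S s hs
      have h2 := congrFun hk S
      have h3 : (Subgroup.inclusion (hle S) k) ∈ ((S : Subgroup H).normalizerMonoidHom).ker := by
        rw [MonoidHom.mem_ker]
        exact h2
      rw [Subgroup.normalizerMonoidHom_ker, Subgroup.mem_subgroupOf,
        Subgroup.mem_centralizer_iff] at h3
      rw [Subgroup.mem_centralizer_iff]
      rintro x hx
      rw [Set.mem_singleton_iff] at hx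
      rw [hx]
      exact (h3 s hs).symm
    have h2 : M ≤ Subgroup.centralizer {(k : H)} := by
      rw [← sup_orbit M T hT hM]
      exact iSup_le h1
    rw [Subgroup.mem_centralizer_iff]
    intro m hm
    have := h2 hm
    rw [Subgroup.mem_centralizer_iff] at this
    exact (this k rfl).symm
  have h1 : Nat.card K = Nat.card Ψ.ker * Nat.card Ψ.range := by
    rw [← Nat.card_congr (QuotientGroup.quotientKerEquivRange Ψ).toEquiv, mul_comm]
    exact Subgroup.card_eq_card_quotient_mul_card_subgroup Ψ.ker
  have h2 : Nat.card Ψ.ker ≤ Nat.card (Subgroup.centralizer (M : Set H)) := by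
    apply Nat.card_le_card_of_injective (fun k : Ψ.ker =>
      (⟨(k : K), hker k k.2⟩ : Subgroup.centralizer (M : Set H)))
    intro a b hab
    have := congrArg Subtype.val hab
    exact Subtype.ext (Subtype.ext this)
  have h3 : Nat.card Ψ.range ≤ Nat.card (MulAut T) ^ Nat.card (orbit (ConjAct H) T) := by
    calc Nat.card Ψ.range ≤ Nat.card (∀ S : orbit (ConjAct H) T, MulAut (S : Subgroup H)) :=
          Nat.card_le_card_of_injective _ Subtype.val_injective
      _ = ∏ S : orbit (ConjAct H) T, Nat.card (MulAut (S : Subgroup H)) := Nat.card_pi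
      _ = ∏ S : orbit (ConjAct H) T, Nat.card (MulAut T) := by
          refine Finset.prod_congr rfl fun S _ => ?_
          obtain ⟨c, hc⟩ := S.2
          have : (S : Subgroup H) = c • T := hc.symm
          rw [this]
          exact (Nat.card_congr (MulAut.congr (Subgroup.equivSMul c T)).toEquiv).symm
      _ = _ := by simp
  rw [h1]
  exact Nat.mul_le_mul h2 h3

end

end Pool.Agent.ACD8
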