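import Pool.Agent.Work.MP_76dc41_al.H8.KR

set_option autoImplicit false

open MulAction
open scoped Pointwise

noncomputable section

namespace Pool.Agent.ACD8

/-- no nontrivial solvable normal subgroup -/
def TrivRad (H : Type) [Group H] : Prop :=
  ∀ N : Subgroup H, N.Normal → Group.IsSolvable N → N = ⊥

/-- `S` is normalised by `M` -/
def Nm {H : Type} [Group H] (M S : Subgroup H) : Prop := ∀ m ∈ M, ∀ s ∈ S, m * s * m⁻¹ ∈ S

section

variable {H : Type} [Group H]

theorem nm_comm {M S T : Subgroup H} (hS : S ≤ M) (hT : T ≤ M) (h1 : Nm M S) (h2 : Nm M T)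
    (h : S ⊓ T = ⊥) : ∀ s ∈ S, ∀ t ∈ T, s * t = t * s := by
  intro s hs t ht
  have h3 : s * t * s⁻¹ * t⁻¹ ∈ S ⊓ T := by
    refine ⟨?_, ?_⟩
    · have : s * t * s⁻¹ * t⁻¹ = s * (t * s⁻¹ * t⁻¹) := by group
      rw [this]
      exact S.mul_mem hs (h1 t (hT ht) _ (S.inv_mem hs))
    · exact T.mul_mem (h2 s (hS hs) t ht) (T.inv_mem ht)
  rw [h, Subgroup.mem_bot] at h3
  calc s * t = (s * t * s⁻¹ * t⁻¹) * (t * s) := by group
    _ = t * s := by rw [h3, one_mul]

/-- product of two solvable normal subgroups -/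
theorem solv_sup (A B : Subgroup H) [A.Normal] [Group.IsSolvable A] [Group.IsSolvable B] :
    Group.IsSolvable (A ⊔ B : Subgroup H) := by
  have e := QuotientGroup.quotientInfEquivProdNormalQuotient B A
  have h1 : Group.IsSolvable (B ⧸ A.subgroupOf B) := inferInstance
  have h2 : Group.IsSolvable ((B ⊔ A : Subgroup H) ⧸ A.subgroupOf (B ⊔ A)) :=
    Group.isSolvable_of_surjective (f := e.toMonoidHom) e.surjective
  rw [sup_comm]
  have h3 : Group.IsSolvable (A.subgroupOf (B ⊔ A)) :=
    Group.isSolvable_of_isSolvable_injective (f := (Subgroup.subgroupOfEquivOfLe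
      (le_sup_right : A ≤ B ⊔ A)).toMonoidHom) (MulEquiv.injective _)
  exact Group.isSolvable_of_ker_le_range (A.subgroupOf (B ⊔ A)).subtype
    (QuotientGroup.mk' (A.subgroupOf (B ⊔ A))) (by
      rw [QuotientGroup.ker_mk', Subgroup.range_subtype])

/-- there is a largest solvable normal subgroup -/
theorem exists_solrad [Finite H] : ∃ R : Subgroup H, R.Normal ∧ Group.IsSolvable R ∧
    ∀ N : Subgroup H, N.Normal → Group.IsSolvable N → N ≤ R := by
  classical
  have : Finite (Subgroup H) := inferInstance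
  obtain ⟨R, hR, hmax⟩ := (Set.toFinite {N : Subgroup H | N.Normal ∧ Group.IsSolvable N}).exists_maximalFor
    (fun N => N) _ ⟨⊥, inferInstance, inferInstance⟩
  refine ⟨R, hR.1, hR.2, ?_⟩
  intro N h1 h2
  have := hR.1
  have := hR.2
  have h3 : Group.IsSolvable (R ⊔ N : Subgroup H) := solv_sup R N
  have h4 : (R ⊔ N : Subgroup H).Normal := inferInstance
  exact le_trans le_sup_right (hmax ⟨h4, h3⟩ le_sup_left)

/-- the property `TrivRad` passes to normal subgroups -/
theorem trivRad_normal [Finite H] (h : TrivRad H) (C : Subgroup H) [C.Normal] : TrivRad C := by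
  obtain ⟨R, h1, h2, h3⟩ := exists_solrad (H := C)
  have h4 : (R.map C.subtype).Normal := by
    refine ⟨?_⟩
    intro x hx g
    obtain ⟨y, hy, rfl⟩ := hx
    -- the image of `R` under conjugation by `g`
    have h5 : (R.map (MulAut.conjNormal g : MulAut C).toMonoidHom) ≤ R := by
      apply h3
      · exact Subgroup.Normal.map h1 _ (MulAut.conjNormal g : MulAut C).surjective
      · exact Group.isSolvable_of_surjective (f := (MulAut.conjNormal g : MulAut C).toMonoidHom.subgroupMap R)
          (MonoidHom.subgroupMap_surjective _ _)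
    refine ⟨MulAut.conjNormal g y, h5 ⟨y, hy, rfl⟩, ?_⟩
    simp [MulAut.conjNormal_apply]
  have h5 : Group.IsSolvable (R.map C.subtype) :=
    Group.isSolvable_of_surjective (f := C.subtype.subgroupMap R) (MonoidHom.subgroupMap_surjective _ _)
  have h6 := h _ h4 h5
  have h7 : R = ⊥ := by
    rw [Subgroup.map_eq_bot_iff_of_injective _ C.subtype_injective] at h6
    exact h6
  intro N hN1 hN2
  have := h3 N hN1 hN2
  rw [h7] at this
  exact le_bot_iff.1 this

/-- minimal nontrivial `M`-normalised subgroup of `M` -/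
structure Min (M S : Subgroup H) : Prop where
  le : S ≤ M
  ne : S ≠ ⊥
  nm : Nm M S
  min : ∀ S' ≤ S, S' ≠ ⊥ → Nm M S' → S' = S

theorem mem_cs (c : ConjAct H) (S : Subgroup H) (x : H) :
    x ∈ c • S ↔ (ConjAct.ofConjAct c)⁻¹ * x * ConjAct.ofConjAct c ∈ S := by
  rw [Subgroup.mem_pointwise_smul_iff_inv_smul_mem, ConjAct.smul_def]
  simp

theorem normal_smul (M : Subgroup H) [hM : M.Normal] (c : ConjAct H) : c • M = M := by
  ext x
  rw [mem_cs]
  constructor
  · intro h
    have := hM.conj_mem _ h (ConjAct.ofConjAct c)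
    have e : ConjAct.ofConjAct c * ((ConjAct.ofConjAct c)⁻¹ * x * ConjAct.ofConjAct c) *
      (ConjAct.ofConjAct c)⁻¹ = x := by group
    rwa [e] at this
  · intro h
    have := hM.conj_mem _ h (ConjAct.ofConjAct c)⁻¹
    simpa using this

theorem nm_smul (M : Subgroup H) [M.Normal] (S : Subgroup H) (c : ConjAct H) (h : Nm M S) :
    Nm M (c • S) := by
  intro m hm s hs
  rw [mem_cs] at hs ⊢
  have h1 : (ConjAct.ofConjAct c)⁻¹ * m * ConjAct.ofConjAct c ∈ M := by
    rw [← mem_cs, normal_smul]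
    exact hm
  have := h _ h1 _ hs
  have e : (ConjAct.ofConjAct c)⁻¹ * m * ConjAct.ofConjAct c *
      ((ConjAct.ofConjAct c)⁻¹ * s * ConjAct.ofConjAct c) *
      ((ConjAct.ofConjAct c)⁻¹ * m * ConjAct.ofConjAct c)⁻¹ =
      (ConjAct.ofConjAct c)⁻¹ * (m * s * m⁻¹) * ConjAct.ofConjAct c := by group
  rwa [e] at this

theorem min_smul (M : Subgroup H) [M.Normal] (S : Subgroup H) (c : ConjAct H) (h : Min M S) :
    Min M (c • S) where
  le := by
    have : c • S ≤ c • M := Subgroup.pointwise_smul_le_pointwise_smul_iff.2 h.le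
    rwa [normal_smul M] at this
  ne := by
    intro e
    apply h.ne
    have : c⁻¹ • (c • S) = c⁻¹ • (⊥ : Subgroup H) := by rw [e]
    rw [inv_smul_smul, Subgroup.smul_bot] at this
    exact this
  nm := nm_smul M S c h.nm
  min := by
    intro S' h1 h2 h3
    have h4 : c⁻¹ • S' ≤ S := by
      have : c⁻¹ • S' ≤ c⁻¹ • (c • S) := Subgroup.pointwise_smul_le_pointwise_smul_iff.2 h1
      rwa [inv_smul_smul] at this
    have h5 : c⁻¹ • S' ≠ ⊥ := by
      intro e
      apply h2
      have : c • (c⁻¹ • S') = c • (⊥ : Subgroup H) := by rw [e]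
      rw [smul_inv_smul, Subgroup.smul_bot] at this
      exact this
    have h6 := h.min _ h4 h5 (nm_smul M S' c⁻¹ h3)
    rw [← h6, smul_inv_smul]

theorem min_inf (M S T : Subgroup H) (h1 : Min M S) (h2 : Min M T) (hne : S ≠ T) :
    S ⊓ T = ⊥ := by
  by_contra h
  have h3 : Nm M (S ⊓ T) := fun m hm s hs => ⟨h1.nm m hm s hs.1, h2.nm m hm s hs.2⟩
  have e1 := h1.min (S ⊓ T) inf_le_left h h3
  have e2 := h2.min (S ⊓ T) inf_le_right h h3
  exact hne (e1.symm.trans e2)

theorem min_comm (M S T : Subgroup H) (h1 : Min M S) (h2 : Min M T) (hne : S ≠ T) :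
    ∀ s ∈ S, ∀ t ∈ T, s * t = t * s :=
  nm_comm h1.le h2.le h1.nm h2.nm (min_inf M S T h1 h2 hne)

theorem exists_min [Finite H] [Nontrivial H] : ∃ M T : Subgroup H, M.Normal ∧ Min M T ∧
    ∀ N : Subgroup H, N.Normal → N ≤ M → N ≠ ⊥ → N = M := by
  classical
  have : Finite (Subgroup H) := inferInstance
  obtain ⟨M, hM, hmin⟩ := (Set.toFinite {N : Subgroup H | N.Normal ∧ N ≠ ⊥}).exists_minimalFor
    (fun N => N) _ ⟨⊤, inferInstance, top_ne_bot⟩
  obtain ⟨T, hT, hmin2⟩ := (Set.toFinite {N : Subgroup H | N ≤ M ∧ N ≠ ⊥ ∧ Nm M N}).exists_minimalFor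
    (fun N => N) _ ⟨M, le_rfl, hM.2, fun m hm s hs => M.mul_mem (M.mul_mem hm hs) (M.inv_mem hm)⟩
  refine ⟨M, T, hM.1, ⟨hT.1, hT.2.1, hT.2.2, ?_⟩, ?_⟩
  · intro S' h1 h2 h3
    exact le_antisymm h1 (hmin2 ⟨h1.trans hT.1, h2, h3⟩ h1)
  · intro N h1 h2 h3
    exact le_antisymm h2 (hmin ⟨h1, h3⟩ h2)

/-- `M` is generated by the conjugates of `T` -/
theorem sup_orbit (M T : Subgroup H) [M.Normal] (hT : Min M T)
    (hM : ∀ N : Subgroup H, N.Normal → N ≤ M → N ≠ ⊥ → N = M) :
    (⨆ S : orbit (ConjAct H) T, (S : Subgroup H)) = M := by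
  apply hM
  · refine ⟨?_⟩
    intro x hx g
    have key : ∀ c : ConjAct H, c • (⨆ S : orbit (ConjAct H) T, (S : Subgroup H)) ≤
        ⨆ S : orbit (ConjAct H) T, (S : Subgroup H) := by
      intro c
      rw [Subgroup.pointwise_smul_subset_iff]
      refine iSup_le fun S => ?_
      rw [← Subgroup.pointwise_smul_subset_iff]
      exact le_iSup (fun S : orbit (ConjAct H) T => (S : Subgroup H)) (c • S)
    apply key (ConjAct.toConjAct g)
    rw [mem_cs]
    simpa [mul_assoc] using hx
  · refine iSup_le fun S => ?_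
    obtain ⟨c, hc⟩ := S.2
    have : (S : Subgroup H) = c • T := hc.symm
    rw [this]
    exact (min_smul M T c hT).le
  · intro e
    rw [iSup_eq_bot] at e
    exact hT.ne (e ⟨T, mem_orbit_self T⟩)

/-- every conjugate is minimal too -/
theorem min_orbit (M T : Subgroup H) [M.Normal] (hT : Min M T) (S : orbit (ConjAct H) T) :
    Min M (S : Subgroup H) := by
  obtain ⟨c, hc⟩ := S.2
  have : (S : Subgroup H) = c • T := hc.symm
  rw [this]
  exact min_smul M T c hT

/-- the subgroup `T` is not solvable -/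
theorem min_not_solv [Finite H] (hH : TrivRad H) (M T : Subgroup H) [M.Normal] (hT : Min M T) :
    ¬ Group.IsSolvable T := by
  intro h
  have h1 : TrivRad M := trivRad_normal hH M
  have h2 : (T.subgroupOf M).Normal := by
    refine ⟨fun n hn g => ?_⟩
    rw [Subgroup.mem_subgroupOf] at hn ⊢
    exact hT.nm g g.2 n hn
  have h3 : Group.IsSolvable (T.subgroupOf M) :=
    Group.isSolvable_of_isSolvable_injective (f := (Subgroup.subgroupOfEquivOfLe hT.le).toMonoidHom)
      (MulEquiv.injective _)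
  have h4 := h1 _ h2 h3
  rw [Subgroup.subgroupOf_eq_bot, disjoint_iff] at h4
  rw [inf_eq_left.2 hT.le] at h4
  exact hT.ne h4

/-- the subgroup `T` is simple -/
theorem min_simple (M T : Subgroup H) [M.Normal] (hT : Min M T)
    (hM : ∀ N : Subgroup H, N.Normal → N ≤ M → N ≠ ⊥ → N = M) : IsSimpleGroup T := by
  have hnt : Nontrivial T := (Subgroup.nontrivial_iff_ne_bot T).2 hT.ne
  refine ⟨fun U hU => ?_⟩
  by_cases hUb : U = ⊥
  · exact Or.inl hUb
  right
  set V := U.map T.subtype with hV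
  have hVT : V ≤ T := by
    rw [hV]
    exact Subgroup.map_subtype_le U
  have hVne : V ≠ ⊥ := by
    intro e
    rw [hV, Subgroup.map_eq_bot_iff_of_injective _ T.subtype_injective] at e
    exact hUb e
  have hVmem : ∀ t ∈ T, ∀ v ∈ V, t * v * t⁻¹ ∈ V := by
    intro t ht v hv
    obtain ⟨u, hu, rfl⟩ := hv
    exact ⟨⟨t, ht⟩ * u * ⟨t, ht⟩⁻¹, hU.conj_mem u hu ⟨t, ht⟩, rfl⟩
  -- everything in `M` normalises `V`
  let Nr : Subgroup H :=
    { carrier := {m | (∀ v ∈ V, m * v * m⁻¹ ∈ V) ∧ ∀ v ∈ V, m⁻¹ * v * m ∈ V}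
      one_mem' := ⟨fun v hv => by simpa using hv, fun v hv => by simpa using hv⟩
      mul_mem' := by
        rintro a b ⟨ha1, ha2⟩ ⟨hb1, hb2⟩
        refine ⟨fun v hv => ?_, fun v hv => ?_⟩
        · have := ha1 _ (hb1 v hv)
          have e : a * (b * v * b⁻¹) * a⁻¹ = a * b * v * (a * b)⁻¹ := by group
          rwa [e] at this
        · have := hb2 _ (ha2 v hv)
          have e : b⁻¹ * (a⁻¹ * v * a) * b = (a * b)⁻¹ * v * (a * b) := by group
          rwa [e] at this
      inv_mem' := by
        rintro a ⟨ha1, ha2⟩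
        refine ⟨fun v hv => ?_, fun v hv => ?_⟩
        · simpa using ha2 v hv
        · simpa using ha1 v hv }
  have hNr : M ≤ Nr := by
    rw [← sup_orbit M T hT hM]
    refine iSup_le fun S => ?_
    by_cases hS : (S : Subgroup H) = T
    · rw [hS]
      intro t ht
      exact ⟨fun v hv => hVmem t ht v hv, fun v hv => by
        have := hVmem t⁻¹ (T.inv_mem ht) v hv
        simpa using this⟩
    · intro t ht
      have hc := min_comm M S T (min_orbit M T hT S) hT hS t ht
      have hc' := min_comm M S T (min_orbit M T hT S) hT hS t⁻¹ ((S : Subgroup H).inv_mem ht)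
      refine ⟨fun v hv => ?_, fun v hv => ?_⟩
      · rw [hc v (hVT hv), mul_inv_cancel_right]
        exact hv
      · have := hc' v (hVT hv)
        rw [this, inv_mul_cancel_right]
        exact hv
  have hVnm : Nm M V := fun m hm v hv => (hNr hm).1 v hv
  have h5 := hT.min V hVT hVne hVnm
  rw [eq_top_iff]
  intro t _
  have : (t : H) ∈ V := by rw [h5]; exact t.2
  obtain ⟨u, hu, hut⟩ := this
  have : u = t := Subtype.ext hut
  rw [← this]
  exact hu

/-- `T` is subnormal -/
theorem min_subnormal (M T : Subgroup H) [M.Normal] (hT : Min M T) : T.IsSubnormal := by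
  refine Subgroup.IsSubnormal.step T M hT.le (Subgroup.Normal.isSubnormal inferInstance) ?_
  refine ⟨fun n hn g => ?_⟩
  rw [Subgroup.mem_subgroupOf] at hn ⊢
  exact hT.nm g g.2 n hn

/-- the centre of a nonsolvable simple group is trivial: version inside `H` -/
theorem center_triv (T : Subgroup H) (h1 : IsSimpleGroup T) (h2 : ¬ Group.IsSolvable T) (x : H)
    (hx : x ∈ T) (hc : ∀ t ∈ T, x * t = t * x) : x = 1 := by
  have h3 := h1.eq_bot_or_eq_top_of_normal (Subgroup.center T) inferInstance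
  rcases h3 with h3 | h3
  · have : (⟨x, hx⟩ : T) ∈ Subgroup.center T := by
      rw [Subgroup.mem_center_iff]
      intro g
      apply Subtype.ext
      exact (hc g g.2).symm
    rw [h3, Subgroup.mem_bot] at this
    exact congrArg Subtype.val this
  · exfalso
    apply h2
    apply Group.isSolvable_of_comm
    intro a b
    have : a ∈ Subgroup.center T := by rw [h3]; trivial
    rw [Subgroup.mem_center_iff] at this
    exact (this b).symm

end

end Pool.Agent.ACD8
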